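import Pool.Agent.Y868.ZE.K9

/-! Project ZE (helper868): progressions; functions close to Dirichlet characters; the converse. -/

set_option autoImplicit false

namespace Pool.Agent.Y868.ZE

open Finset Filter Topology MeasureTheory
open Pool.Agent.Y868.VR

theorem LA_re (b : ℕ → ℂ) (N : ℕ) : LA b N =
    ((LR (fun n => (b n).re) N : ℝ) : ℂ) + ((LR (fun n => (b n).im) N : ℝ) : ℂ) * Complex.I := by
  rw [← LA_ofReal, ← LA_ofReal, mul_comm, ← LA_smul, ← LA_add]
  congr 1
  funext n
  rw [mul_comm, Complex.re_add_im]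

theorem LA_shift {b : ℕ → ℂ} {C : ℝ} (hb : ∀ n, ‖b n‖ ≤ C) :
    Tendsto (fun N => LA (fun n => b (n + 1)) N - LA b N) atTop (𝓝 0) := by
  have h1 := LR_shift (b := fun n => (b n).re) (fun n => (Complex.abs_re_le_norm _).trans (hb n))
  have h2 := LR_shift (b := fun n => (b n).im) (fun n => (Complex.abs_im_le_norm _).trans (hb n))
  have h3 := ((Complex.continuous_ofReal.tendsto _).comp h1).add
    (((Complex.continuous_ofReal.tendsto _).comp h2).mul_const Complex.I)
  rw [Complex.ofReal_zero, zero_mul, add_zero] at h3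
  refine h3.congr fun N => ?_
  rw [LA_re (fun n => b (n + 1)), LA_re b]
  simp only [Function.comp_def]
  push_cast
  ring

theorem LA_shift' {b : ℕ → ℂ} {C : ℝ} (hb : ∀ n, ‖b n‖ ≤ C) (r : ℕ) :
    Tendsto (fun N => LA (fun n => b (n + r)) N - LA b N) atTop (𝓝 0) := by
  induction r with
  | zero => simp
  | succ r ih =>
    have h1 := (LA_shift (b := fun n => b (n + r)) fun n => hb _).add ih
    rw [add_zero] at h1
    refine h1.congr fun N => ?_
    have e : (fun n => b (n + 1 + r)) = fun n => b (n + (r + 1)) := by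
      funext n; congr 1; omega
    rw [e]; ring

/-- averages along a progression -/
theorem prog {w : ℕ → ℂ} {C : ℝ} (hw : ∀ n, ‖w n‖ ≤ C) {q r : ℕ} (hr : r < q)
    (h : Tendsto (LA fun n => w (q * n + r)) atTop (𝓝 0)) :
    Tendsto (LA fun n => if n % q = r then w n else 0) atTop (𝓝 0) := by
  have hq : 0 < q := by omega
  have hC : 0 ≤ C := (norm_nonneg _).trans (hw 0)
  have h1 := LA_dil (b := fun n => w (n + r)) (fun n => hw _) hq
  have h2 := h.const_mul (1 / (q : ℂ))
  rw [mul_zero] at h2
  have h3 := h1.add h2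
  simp only [sub_add_cancel, add_zero] at h3
  have h4 := LA_shift' (b := fun n => if n % q = r then w n else 0) (C := C) (fun n => by
    split_ifs
    · exact hw n
    · simpa using hC) r
  have h5 := h3.sub h4
  rw [sub_zero] at h5
  refine h5.congr fun N => ?_
  have e : (fun n => if q ∣ n then w (n + r) else 0) =
      fun n => if (n + r) % q = r then w (n + r) else 0 := by
    funext n
    have : (n + r) % q = r ↔ q ∣ n := by
      constructor
      · intro h6
        have h7 : (n + r) ≡ 0 + r [MOD q] := by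
          unfold Nat.ModEq
          rw [h6, zero_add, Nat.mod_eq_of_lt hr]
        exact (Nat.modEq_zero_iff_dvd).1 (Nat.ModEq.add_right_cancel' r h7)
      · rintro ⟨k, rfl⟩
        rw [Nat.mul_add_mod, Nat.mod_eq_of_lt hr]
    simp only [this]
  rw [e]; ring

/-- averages against a periodic function -/
theorem periodic_avg {w : ℕ → ℂ} {C : ℝ} (hw : ∀ n, ‖w n‖ ≤ C) {q : ℕ} (hq : 0 < q)
    (h : ∀ r < q, Tendsto (LA fun n => w (q * n + r)) atTop (𝓝 0)) (v : ℕ → ℂ)
    (hv : ∀ n, 0 < n → v n = v (n % q + q)) :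
    Tendsto (LA fun n => v n * w n) atTop (𝓝 0) := by
  have h1 : Tendsto (fun N => ∑ r ∈ range q, v (r + q) * LA (fun n => if n % q = r then w n else 0) N)
      atTop (𝓝 (∑ r ∈ range q, v (r + q) * 0)) :=
    tendsto_finsetSum _ fun r hr => (prog hw (mem_range.1 hr) (h r (mem_range.1 hr))).const_mul _
  simp only [mul_zero, sum_const_zero] at h1
  refine h1.congr fun N => ?_
  simp only [← LA_smul]
  rw [← LA_sum]
  refine LA_congr (fun n hn => ?_) N
  rw [hv n hn, sum_eq_single (n % q)]
  · simp
  · intro r _ hr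
    rw [if_neg (fun h => hr h.symm), mul_zero]
  · intro h2
    exact absurd (mem_range.2 (Nat.mod_lt n hq)) h2

open scoped Classical in
/-- the case of functions close to a character of the residues mod `q` -/
theorem dirichlet_level {G₀ : Type} [CommGroupWithZero G₀] {g : ℕ → G₀} (hg : Mul1 g)
    {a : ℕ → ℂ} {C : ℝ} (ha : ∀ n, ‖a n‖ ≤ C) {q : ℕ} (hq : 0 < q)
    (ψ : (ZMod q)ˣ →* G₀ˣ)
    (hs : Summable (fun p : Nat.Primes => if h : Nat.Coprime p q then
      (if g p = (ψ (ZMod.unitOfCoprime p h) : G₀) then 0 else 1 / ((p : ℕ) : ℝ)) else 0))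
    (hd : ∀ d : ℕ, 1 ≤ d → ∀ r : ℕ, Tendsto (LA fun n => a (d * n + r)) atTop (𝓝 0))
    (c : G₀) :
    Tendsto (LA fun n => (if g n = c then (1 : ℂ) else 0) * a n) atTop (𝓝 0) := by
  by_cases hc : c = 0
  · subst hc
    exact zero_level hg ha fun d hd1 => by simpa only [add_zero] using hd d hd1 0
  letI : TopologicalSpace G₀ˣ := ⊥
  haveI : DiscreteTopology G₀ˣ := ⟨rfl⟩
  letI : MeasurableSpace (PontryaginDual G₀ˣ) := borel _
  haveI : BorelSpace (PontryaginDual G₀ˣ) := ⟨rfl⟩
  let K₀ : TopologicalSpace.PositiveCompacts (PontryaginDual G₀ˣ) := ⊤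
  haveI : IsProbabilityMeasure (Measure.haarMeasure K₀) := by
    constructor
    have := Measure.haarMeasure_self (K₀ := K₀)
    exact this
  refine level_ae (Measure.haarMeasure K₀) g ha (Eventually.of_forall fun χ => ?_) hc
  -- the completely multiplicative function
  set v : ArithmeticFunction ℂ := ⟨fun n => if n = 0 then 0 else
    if h : Nat.Coprime n q then ev (ψ (ZMod.unitOfCoprime n h)) χ else 0, by simp⟩ with hv
  have hva : ∀ n, n ≠ 0 → v n = if h : Nat.Coprime n q then ev (ψ (ZMod.unitOfCoprime n h)) χ else 0 := by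
    intro n hn
    rw [hv]
    change (if n = 0 then 0 else _) = _
    rw [if_neg hn]
  have hcma : CMA v := by
    refine ⟨?_, fun m n => ?_, fun n => ?_⟩
    · rw [hva 1 one_ne_zero, dif_pos (Nat.coprime_one_left q)]
      have e : ZMod.unitOfCoprime 1 (Nat.coprime_one_left q) = 1 := by
        ext; simp
      rw [e, map_one, ev_one]
    · rcases eq_or_ne m 0 with h0 | h0
      · subst h0; simp
      rcases eq_or_ne n 0 with h0' | h0'
      · subst h0'; simp
      rw [hva m h0, hva n h0', hva _ (mul_ne_zero h0 h0')]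
      by_cases h1 : Nat.Coprime m q
      · by_cases h2 : Nat.Coprime n q
        · have h3 : Nat.Coprime (m * n) q := Nat.Coprime.mul_left h1 h2
          rw [dif_pos h1, dif_pos h2, dif_pos h3, ← ev_mul, ← map_mul]
          congr 2
          ext
          simp
        · rw [dif_neg h2, dif_neg (fun h => h2 (Nat.Coprime.coprime_mul_left h)), mul_zero]
      · rw [dif_neg h1, dif_neg (fun h => h1 (Nat.Coprime.coprime_mul_right h)), zero_mul]
    · rcases eq_or_ne n 0 with h0 | h0
      · subst h0; simp
      rw [hva n h0]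
      split_ifs
      · exact (ev_norm _ _).le
      · simp
  have hclo : Clo (uf g χ) v := by
    unfold Clo
    have h1 : Summable (fun p : ℕ => (if p.Prime then (if h : Nat.Coprime p q then
      (if g p = (ψ (ZMod.unitOfCoprime p h) : G₀) then 0 else 1 / (p : ℝ)) else 0) else 0) +
        (if p ∈ q.primeFactors then (1 : ℝ) / p else 0)) := by
      refine (summ_nat (f := fun p : ℕ => if h : Nat.Coprime p q then
        (if g p = (ψ (ZMod.unitOfCoprime p h) : G₀) then 0 else 1 / (p : ℝ)) else 0) hs).add ?_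
      refine summable_of_ne_finset_zero (s := q.primeFactors) fun p hp => ?_
      rw [if_neg hp]
    refine Summable.of_nonneg_of_le (fun p => by positivity) (fun p => ?_) h1
    by_cases hp : p.Prime
    · rw [if_pos hp]
      by_cases h2 : Nat.Coprime p q
      · rw [dif_pos h2]
        by_cases h3 : g p = (ψ (ZMod.unitOfCoprime p h2) : G₀)
        · rw [if_pos h3, if_neg]
          · positivity
          · rintro ⟨_, h4⟩
            apply h4
            rw [uf_apply g χ hp.ne_zero, hva p hp.ne_zero, dif_pos h2]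
            have h5 : g p ≠ 0 := by rw [h3]; exact Units.ne_zero _
            unfold Ug Fg
            rw [if_neg h5, dif_neg h5]
            congr 1
            ext
            rw [Units.val_mk0, h3]
        · rw [if_neg h3]
          have h6 : (0 : ℝ) ≤ if p ∈ q.primeFactors then (1 : ℝ) / p else 0 := by positivity
          split_ifs <;> first | linarith | (have : (0 : ℝ) ≤ 1 / p := by positivity) <;> linarith
      · have h7 : p ∈ q.primeFactors := by
          rw [Nat.mem_primeFactors]
          refine ⟨hp, ?_, hq.ne'⟩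
          by_contra h8
          exact h2 ((Nat.Prime.coprime_iff_not_dvd hp).2 h8)
        rw [dif_neg h2, if_pos h7, zero_add]
        split_ifs
        · exact le_rfl
        · positivity
    · rw [if_neg (fun h => hp h.1)]
      rw [if_neg hp]
      positivity
  have hper : ∀ n, 0 < n → v n = v (n % q + q) := by
    intro n hn
    rw [hva n hn.ne', hva (n % q + q) (by omega)]
    have h1 : ((n % q + q : ℕ) : ZMod q) = (n : ZMod q) := by
      rw [Nat.cast_add, ZMod.natCast_self, add_zero, ZMod.natCast_mod]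
    have h2 : Nat.Coprime n q ↔ Nat.Coprime (n % q + q) q := by
      rw [Nat.coprime_add_self_left]
      unfold Nat.Coprime
      rw [← Nat.gcd_rec, Nat.gcd_comm]
    by_cases h3 : Nat.Coprime n q
    · rw [dif_pos h3, dif_pos (h2.1 h3)]
      congr 2
      ext
      rw [ZMod.coe_unitOfCoprime, ZMod.coe_unitOfCoprime, h1]
    · rw [dif_neg h3, dif_neg (fun h => h3 (h2.2 h))]
  have h1 := conv_LA (uf_mb hg χ) hcma hclo ha (fun d hd1 => by
    refine periodic_avg (w := fun m => a (d * m)) (fun n => ha _) hq (fun r _ => ?_) v hper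
    have h2 := hd (d * q) (Nat.mul_pos hd1 hq) (d * r)
    refine h2.congr fun N => ?_
    congr 1
    funext n
    congr 1
    ring)
  exact h1.congr fun N => LA_congr (fun n hn => by rw [uf_apply g χ hn.ne']) N

open scoped Classical in
/-- the converse of the reduction -/
theorem root_of_level {a : ℕ → ℂ} {v : ℕ → ℂ} {k : ℕ} (hk : 1 ≤ k) (hv : ∀ n, 0 < n → v n ^ k = 1)
    (h : ∀ c : ℂ, Tendsto (LA fun n => (if v n = c then (1 : ℂ) else 0) * a n) atTop (𝓝 0)) :
    Tendsto (LA fun n => v n * a n) atTop (𝓝 0) := by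
  have h1 : Tendsto (fun N => ∑ c ∈ Polynomial.nthRootsFinset k (1 : ℂ),
      c * LA (fun n => (if v n = c then (1 : ℂ) else 0) * a n) N) atTop
      (𝓝 (∑ c ∈ Polynomial.nthRootsFinset k (1 : ℂ), c * 0)) :=
    tendsto_finsetSum _ fun c _ => (h c).const_mul c
  simp only [mul_zero, sum_const_zero] at h1
  refine h1.congr fun N => ?_
  simp only [← LA_smul]
  rw [← LA_sum]
  refine LA_congr (fun n hn => ?_) N
  rw [sum_eq_single (v n)]
  · simp
  · intro c _ hc
    rw [if_neg (fun h => hc h.symm)]; ring
  · intro h2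
    exact absurd ((Polynomial.mem_nthRootsFinset (by omega) _).2 (hv n hn)) h2

end Pool.Agent.Y868.ZE
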