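import Pool.Agent.Y868.ZE.K13

/-! Project ZE (helper868): discrete spectrum. -/

set_option autoImplicit false

namespace Pool.Agent.Y868.ZE

open Finset Filter Topology MeasureTheory
open scoped ComplexConjugate

section

variable {X : Type} [MetricSpace X] [CompactSpace X] [MeasurableSpace X] [BorelSpace X]

/-- a uniquely ergodic measure is ergodic -/
theorem erg {S : X → X} {μ : Measure X} [IsProbabilityMeasure μ] (hS : MeasurePreserving S μ μ)
    (huniq : ∀ ν : Measure X, IsProbabilityMeasure ν → MeasurePreserving S ν ν → ν = μ) :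
    Ergodic S μ := by
  refine ⟨hS, ⟨fun s hs hinv => ?_⟩⟩
  rw [Filter.eventuallyConst_set']
  by_cases h0 : μ s = 0
  · left
    exact ae_eq_empty.2 h0
  right
  have h1 : MeasurePreserving S (μ.restrict s) (μ.restrict s) := by
    have := hS.restrict_preimage hs
    rwa [hinv] at this
  have h2 := h1.smul_measure ((μ s)⁻¹)
  have h3 : IsProbabilityMeasure ((μ s)⁻¹ • μ.restrict s) := by
    constructor
    rw [Measure.smul_apply, Measure.restrict_apply_univ, smul_eq_mul]
    exact ENNReal.inv_mul_cancel h0 (measure_ne_top _ _)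
  have h4 := huniq _ h3 h2
  rw [ae_eq_univ]
  have h5 : ((μ s)⁻¹ • μ.restrict s) sᶜ = 0 := by
    rw [Measure.smul_apply, Measure.restrict_apply hs.compl, Set.compl_inter_self, measure_empty,
      smul_zero]
  rw [h4] at h5
  exact h5

theorem exp_I_pow (k : ℕ) (hk : 1 ≤ k) : Complex.exp Complex.I ^ k ≠ 1 := by
  intro h
  rw [← Complex.exp_nat_mul, Complex.exp_eq_one_iff] at h
  obtain ⟨n, hn⟩ := h
  have h1 : (k : ℂ) = n * (2 * Real.pi) := by
    have h2 : (k : ℂ) * Complex.I = (n * (2 * Real.pi)) * Complex.I := by rw [hn]; ring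
    exact mul_right_cancel₀ Complex.I_ne_zero h2
  have h2 : (k : ℝ) = n * (2 * Real.pi) := by exact_mod_cast h1
  have hn0 : (n : ℝ) ≠ 0 := by
    intro h3
    rw [h3, zero_mul] at h2
    have : (1 : ℝ) ≤ k := by exact_mod_cast hk
    linarith
  apply irrational_pi
  refine ⟨(k : ℚ) / (2 * n), ?_⟩
  push_cast
  rw [h2]
  field_simp

/-- every continuous function is approximated in `L²` by finite sums of bounded eigenfunctions -/
def DS (T : X → X) (μ : Measure X) : Prop :=
  ∀ (f : C(X, ℂ)) (ε : ℝ), 0 < ε → ∃ (m : ℕ) (φ : Fin m → X → ℂ) (z : Fin m → ℂ),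
    (∀ i, Eig T μ (φ i) (z i)) ∧ ∫ x, ‖f x - ∑ i, φ i x‖ ^ 2 ∂μ < ε

open scoped Classical in
theorem ds_approx {T : X → X} (hT : Continuous T) {μ : Measure X} [IsProbabilityMeasure μ]
    (hTm : MeasurePreserving T μ μ)
    (huniq : ∀ k : ℕ, 1 ≤ k → ∀ ν : Measure X, IsProbabilityMeasure ν →
      MeasurePreserving (T^[k]) ν ν → ν = μ) (hds : DS T μ) (f : C(X, ℂ)) {ε : ℝ} (hε : 0 < ε) :
    ∃ (m : ℕ) (φ : Fin m → X → ℂ) (z : Fin m → ℂ),
      (∀ i, Eig T μ (φ i) (z i) ∧ ∀ k : ℕ, 1 ≤ k → z i ^ k ≠ 1) ∧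
        ∫ x, ‖(f x - ∫ y, f y ∂μ) - ∑ i, φ i x‖ ^ 2 ∂μ ≤ ε := by
  obtain ⟨m, φ, z, hφ, hap⟩ := hds f (ε / 4) (by positivity)
  set t : ℝ := √(ε / 4) with ht
  have ht0 : 0 < t := Real.sqrt_pos.2 (by positivity)
  have htt : t ^ 2 = ε / 4 := Real.sq_sqrt (by positivity)
  set J : Fin m → Prop := fun i => ∃ k : ℕ, 1 ≤ k ∧ z i ^ k = 1 with hJ
  -- constants
  have hcst : ∀ i, ∃ c : ℂ, J i → φ i =ᵐ[μ] fun _ => c := by
    intro i
    by_cases hi : J i
    · obtain ⟨k, hk, hzk⟩ := hi
      have he : Ergodic (T^[k]) μ := erg (hTm.iterate k) (huniq k hk)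
      have h1 : φ i ∘ (T^[k]) =ᵐ[μ] φ i := by
        filter_upwards [(hφ i).iter hTm k] with x hx
        simp only [Function.comp_apply]
        rw [hx, hzk, one_mul]
      obtain ⟨c, hc⟩ := he.ae_eq_const_of_ae_eq_comp_ae (hφ i).meas.aestronglyMeasurable h1
      exact ⟨c, fun _ => hc⟩
    · exact ⟨0, fun h => absurd h hi⟩
  choose c hc using hcst
  have hzero : ∀ i, ¬ J i → ∫ x, φ i x ∂μ = 0 := by
    intro i hi
    have h1 : ∫ x, φ i x ∂μ = ∫ x, φ i (T x) ∂μ := by
      conv_lhs => rw [← hTm.map_eq]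
      rw [integral_map hTm.measurable.aemeasurable (hφ i).meas.aestronglyMeasurable]
    have h2 : ∫ x, φ i (T x) ∂μ = z i * ∫ x, φ i x ∂μ := by
      rw [← integral_const_mul]
      exact integral_congr_ae (hφ i).eig
    have h3 : (1 - z i) * ∫ x, φ i x ∂μ = 0 := by
      rw [sub_mul, one_mul, ← h2, ← h1, sub_self]
    rcases mul_eq_zero.1 h3 with h | h
    · exact absurd ⟨1, le_rfl, by rw [pow_one]; exact (sub_eq_zero.1 h).symm⟩ hi
    · exact h
  -- the new family
  set φ' : Fin m → X → ℂ := fun i => if J i then fun _ => 0 else φ i with hφ'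
  set z' : Fin m → ℂ := fun i => if J i then Complex.exp Complex.I else z i with hz'
  choose Cφ hCφ using fun i => (hφ i).bdd
  have hfi : Integrable (fun x => f x) μ := Integrable.of_bound f.continuous.aestronglyMeasurable ‖f‖
      (Eventually.of_forall fun y => f.norm_coe_le_norm y)
  have hφi : ∀ i, Integrable (φ i) μ := fun i =>
    Integrable.of_bound (hφ i).meas.aestronglyMeasurable (Cφ i) (Eventually.of_forall (hCφ i))
  set r : X → ℂ := fun x => f x - ∑ i, φ i x with hr
  have hri : Integrable r μ := hfi.sub (integrable_finsetSum _ fun i _ => hφi i)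
  have hrm : Measurable r := f.continuous.measurable.sub
    (Finset.measurable_sum _ fun i _ => (hφ i).meas)
  have hrb : ∀ x, ‖r x‖ ≤ ‖f‖ + ∑ i, Cφ i := by
    intro x
    refine (norm_sub_le _ _).trans (add_le_add (f.norm_coe_le_norm x) ?_)
    exact (norm_sum_le _ _).trans (sum_le_sum fun i _ => hCφ i x)
  have i2 : Integrable (fun x => ‖r x‖ ^ 2) μ := by
    refine Integrable.of_bound (hrm.norm.pow_const 2).aestronglyMeasurable
      ((‖f‖ + ∑ i, Cφ i) ^ 2) (Eventually.of_forall fun x => ?_)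
    rw [Real.norm_of_nonneg (by positivity)]
    exact pow_le_pow_left₀ (norm_nonneg _) (hrb x) 2
  set s : ℂ := ∫ x, r x ∂μ with hs
  have hs1 : s = (∫ y, f y ∂μ) - ∑ i, if J i then c i else 0 := by
    rw [hs, hr]
    simp only
    rw [integral_sub hfi (integrable_finsetSum _ fun i _ => hφi i), integral_finsetSum _ fun i _ => hφi i]
    congr 1
    refine sum_congr rfl fun i _ => ?_
    by_cases hi : J i
    · rw [if_pos hi, integral_congr_ae (hc i hi), integral_const]
      simp
    · rw [if_neg hi, hzero i hi]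
  have hsn : ‖s‖ ≤ t := by
    refine (norm_integral_le_integral_norm _).trans ?_
    have h1 : ∫ x, ‖r x‖ ∂μ ≤ ∫ x, (‖r x‖ ^ 2 / (2 * t) + t / 2) ∂μ := by
      refine integral_mono hri.norm ((i2.div_const _).add (integrable_const _)) fun x => ?_
      have h3 : ‖r x‖ ^ 2 / (2 * t) + t / 2 - ‖r x‖ = (‖r x‖ - t) ^ 2 / (2 * t) := by
        field_simp; ring
      have h4 : 0 ≤ (‖r x‖ - t) ^ 2 / (2 * t) := by positivity
      show ‖r x‖ ≤ ‖r x‖ ^ 2 / (2 * t) + t / 2
      linarith
    rw [integral_add (i2.div_const _) (integrable_const _), integral_div, integral_const] at h1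
    have h5 : (∫ x, ‖r x‖ ^ 2 ∂μ) / (2 * t) ≤ t / 2 := by
      rw [div_le_iff₀ (by positivity)]
      calc ∫ x, ‖r x‖ ^ 2 ∂μ ≤ ε / 4 := hap.le
        _ = t ^ 2 := htt.symm
        _ = t / 2 * (2 * t) := by ring
    simp at h1
    linarith
  refine ⟨m, φ', z', fun i => ?_, ?_⟩
  · by_cases hi : J i
    · have e1 : φ' i = fun _ => 0 := by rw [hφ']; simp only; rw [if_pos hi]
      have e2 : z' i = Complex.exp Complex.I := by rw [hz']; simp only; rw [if_pos hi]
      rw [e1, e2]
      refine ⟨⟨measurable_const, ⟨0, by simp⟩, ?_, Eventually.of_forall fun x => by simp⟩, exp_I_pow⟩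
      have := Complex.norm_exp_ofReal_mul_I 1
      simpa using this
    · have e1 : φ' i = φ i := by rw [hφ']; simp only; rw [if_neg hi]
      have e2 : z' i = z i := by rw [hz']; simp only; rw [if_neg hi]
      rw [e1, e2]
      exact ⟨hφ i, fun k hk h => hi ⟨k, hk, h⟩⟩
  · have hall : ∀ᵐ x ∂μ, ∀ i, J i → φ i x = c i := by
      rw [ae_all_iff]
      intro i
      by_cases hi : J i
      · filter_upwards [hc i hi] with x hx _
        exact hx
      · exact Eventually.of_forall fun x h => absurd h hi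
    have h1 : ∫ x, ‖(f x - ∫ y, f y ∂μ) - ∑ i, φ' i x‖ ^ 2 ∂μ = ∫ x, ‖r x - s‖ ^ 2 ∂μ := by
      refine integral_congr_ae ?_
      filter_upwards [hall] with x hx
      have h2 : (f x - ∫ y, f y ∂μ) - ∑ i, φ' i x = r x - s := by
        have h3 : ∑ i, φ' i x = ∑ i, φ i x - ∑ i, if J i then c i else 0 := by
          rw [← sum_sub_distrib]
          refine sum_congr rfl fun i _ => ?_
          rw [hφ']
          simp only
          by_cases hi : J i
          · rw [if_pos hi, if_pos hi, hx i hi, sub_self]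
          · rw [if_neg hi, if_neg hi, sub_zero]
        rw [h3, hs1, hr]
        ring
      rw [h2]
    rw [h1]
    have h2 : ∫ x, ‖r x - s‖ ^ 2 ∂μ ≤ ∫ x, (2 * ‖r x‖ ^ 2 + 2 * t ^ 2) ∂μ := by
      refine integral_mono_of_nonneg (Eventually.of_forall fun x => by positivity)
        ((i2.const_mul 2).add (integrable_const _)) (Eventually.of_forall fun x => ?_)
      show ‖r x - s‖ ^ 2 ≤ 2 * ‖r x‖ ^ 2 + 2 * t ^ 2
      have h3 : ‖r x - s‖ ≤ ‖r x‖ + t := (norm_sub_le _ _).trans (by linarith)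
      have h4 : ‖r x - s‖ ^ 2 ≤ (‖r x‖ + t) ^ 2 := pow_le_pow_left₀ (norm_nonneg _) h3 2
      nlinarith [sq_nonneg (‖r x‖ - t)]
    refine h2.trans ?_
    rw [integral_add (i2.const_mul 2) (integrable_const _), integral_const_mul, integral_const]
    simp
    linarith [hap.le]

end

end Pool.Agent.Y868.ZE
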