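import Mathlib

/-! Project ZE (helper868): logarithmic averages. -/

set_option autoImplicit false

namespace Pool.Agent.Y868.ZE

open Finset Filter Topology

/-- logarithmic averages -/
noncomputable def LA (b : ℕ → ℂ) (N : ℕ) : ℂ :=
  ((1 : ℂ) / ((Real.log (N : ℝ) : ℝ) : ℂ)) * ∑ n ∈ Icc 1 N, ((1 : ℂ) / (n : ℂ)) * b n

/-- logarithmic averages of real sequences -/
noncomputable def LR (b : ℕ → ℝ) (N : ℕ) : ℝ :=
  (1 / Real.log (N : ℝ)) * ∑ n ∈ Icc 1 N, (1 / (n : ℝ)) * b n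

theorem LA_ofReal (b : ℕ → ℝ) (N : ℕ) : LA (fun n => (b n : ℂ)) N = ((LR b N : ℝ) : ℂ) := by
  unfold LA LR
  push_cast
  rfl

theorem LA_add (b c : ℕ → ℂ) (N : ℕ) : LA (fun n => b n + c n) N = LA b N + LA c N := by
  unfold LA
  rw [← mul_add, ← sum_add_distrib]
  simp only [mul_add]

theorem LA_sub (b c : ℕ → ℂ) (N : ℕ) : LA (fun n => b n - c n) N = LA b N - LA c N := by
  unfold LA
  rw [← mul_sub, ← sum_sub_distrib]
  simp only [mul_sub]

theorem LA_smul (z : ℂ) (b : ℕ → ℂ) (N : ℕ) : LA (fun n => z * b n) N = z * LA b N := by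
  unfold LA
  rw [mul_left_comm, mul_sum]
  rw [mul_sum, mul_sum]
  exact sum_congr rfl fun n _ => by ring

theorem LA_sum {ι : Type} (s : Finset ι) (b : ι → ℕ → ℂ) (N : ℕ) :
    LA (fun n => ∑ i ∈ s, b i n) N = ∑ i ∈ s, LA (b i) N := by
  unfold LA
  rw [← mul_sum]
  congr 1
  rw [sum_comm]
  exact sum_congr rfl fun n _ => mul_sum _ _ _

theorem LR_smul (z : ℝ) (b : ℕ → ℝ) (N : ℕ) : LR (fun n => z * b n) N = z * LR b N := by
  unfold LR
  rw [mul_sum, mul_sum, mul_sum]
  exact sum_congr rfl fun n _ => by ring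

theorem LR_sum {ι : Type} (s : Finset ι) (b : ι → ℕ → ℝ) (N : ℕ) :
    LR (fun n => ∑ i ∈ s, b i n) N = ∑ i ∈ s, LR (b i) N := by
  unfold LR
  rw [← mul_sum]
  congr 1
  rw [sum_comm]
  exact sum_congr rfl fun n _ => mul_sum _ _ _

theorem inv_log_nonneg (N : ℕ) : 0 ≤ 1 / Real.log (N : ℝ) :=
  one_div_nonneg.2 (Real.log_natCast_nonneg N)

theorem norm_LA_le (b : ℕ → ℂ) (N : ℕ) : ‖LA b N‖ ≤ LR (fun n => ‖b n‖) N := by
  unfold LA LR
  rw [norm_mul]
  have h1 : ‖(1 : ℂ) / ((Real.log (N : ℝ) : ℝ) : ℂ)‖ = 1 / Real.log N := by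
    rw [norm_div, norm_one, Complex.norm_real, Real.norm_of_nonneg (Real.log_natCast_nonneg N)]
  rw [h1]
  refine mul_le_mul_of_nonneg_left ?_ (inv_log_nonneg N)
  refine (norm_sum_le _ _).trans (sum_le_sum fun n _ => ?_)
  rw [norm_mul, norm_div, norm_one, Complex.norm_natCast]

theorem LR_mono {b c : ℕ → ℝ} (h : ∀ n, b n ≤ c n) (N : ℕ) : LR b N ≤ LR c N := by
  unfold LR
  refine mul_le_mul_of_nonneg_left (sum_le_sum fun n _ => ?_) (inv_log_nonneg N)
  exact mul_le_mul_of_nonneg_left (h n) (by positivity)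

theorem LR_nonneg {b : ℕ → ℝ} (h : ∀ n, 0 ≤ b n) (N : ℕ) : 0 ≤ LR b N := by
  unfold LR
  refine mul_nonneg (inv_log_nonneg N) (sum_nonneg fun n _ => mul_nonneg (by positivity) (h n))

theorem norm_LA_le' {b : ℕ → ℂ} {C : ℝ} (h : ∀ n, ‖b n‖ ≤ C) (N : ℕ) :
    ‖LA b N‖ ≤ C * LR (fun _ => 1) N := by
  refine (norm_LA_le b N).trans ?_
  rw [← LR_smul]
  exact LR_mono (fun n => by simpa using h n) N

/-- Cauchy-Schwarz -/
theorem LR_sq {b : ℕ → ℝ} (N : ℕ) :
    (LR b N) ^ 2 ≤ LR (fun _ => 1) N * LR (fun n => b n ^ 2) N := by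
  unfold LR
  have h1 : (∑ n ∈ Icc 1 N, (1 / (n : ℝ)) * b n) ^ 2 ≤
      (∑ n ∈ Icc 1 N, (1 / (n : ℝ)) * 1) * ∑ n ∈ Icc 1 N, (1 / (n : ℝ)) * b n ^ 2 := by
    apply sum_sq_le_sum_mul_sum_of_sq_le_mul
    · intro i _; positivity
    · intro i _; positivity
    · intro i _; exact le_of_eq (by ring)
  have h2 := mul_le_mul_of_nonneg_left h1 (mul_nonneg (inv_log_nonneg N) (inv_log_nonneg N))
  calc _ = (1 / Real.log (N : ℝ) * (1 / Real.log (N : ℝ))) *
        (∑ n ∈ Icc 1 N, (1 / (n : ℝ)) * b n) ^ 2 := by ring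
    _ ≤ _ := h2
    _ = _ := by ring

theorem log_top : Tendsto (fun N : ℕ => Real.log (N : ℝ)) atTop atTop :=
  Real.tendsto_log_atTop.comp tendsto_natCast_atTop_atTop

theorem LR_one : Tendsto (LR fun _ => 1) atTop (𝓝 1) := by
  have h1 := Real.tendsto_harmonic_sub_log
  have h2 : Tendsto (fun N : ℕ => 1 + ((harmonic N : ℝ) - Real.log N) / Real.log N) atTop
      (𝓝 (1 + 0)) := tendsto_const_nhds.add (h1.div_atTop log_top)
  rw [add_zero] at h2
  refine h2.congr' ?_
  filter_upwards [log_top.eventually_gt_atTop 0] with N hN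
  unfold LR
  rw [harmonic_eq_sum_Icc]
  push_cast
  have h3 : ∑ n ∈ Icc 1 N, (1 / (n : ℝ)) * 1 = ∑ n ∈ Icc 1 N, ((n : ℝ))⁻¹ :=
    sum_congr rfl fun n _ => by rw [mul_one, one_div]
  rw [h3]
  field_simp
  ring

/-- the dilation property -/
theorem LA_dil {b : ℕ → ℂ} {C : ℝ} (hb : ∀ n, ‖b n‖ ≤ C) {p : ℕ} (hp : 0 < p) :
    Tendsto (fun N => LA (fun n => if p ∣ n then b n else 0) N - (1 / (p : ℂ)) * LA (fun n => b (p * n)) N)
      atTop (𝓝 0) := by
  have hC : 0 ≤ C := (norm_nonneg _).trans (hb 0)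
  have hpr : (0 : ℝ) < p := by exact_mod_cast hp
  have hpc : (p : ℂ) ≠ 0 := by exact_mod_cast hp.ne'
  have key : ∀ N : ℕ, ‖LA (fun n => if p ∣ n then b n else 0) N -
      (1 / (p : ℂ)) * LA (fun n => b (p * n)) N‖ ≤ C * (1 / Real.log N) := by
    intro N
    have h1 : ∑ n ∈ Icc 1 N, ((1 : ℂ) / (n : ℂ)) * (if p ∣ n then b n else 0) =
        (1 / (p : ℂ)) * ∑ m ∈ Icc 1 (N / p), ((1 : ℂ) / (m : ℂ)) * b (p * m) := by
      have e1 : ∑ n ∈ Icc 1 N, ((1 : ℂ) / (n : ℂ)) * (if p ∣ n then b n else 0) =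
          ∑ n ∈ (Icc 1 N).filter (fun n => p ∣ n), ((1 : ℂ) / (n : ℂ)) * b n := by
        rw [sum_filter]
        exact sum_congr rfl fun n _ => by split_ifs <;> simp
      rw [e1, mul_sum]
      refine sum_nbij' (fun n => n / p) (fun m => p * m) ?_ ?_ ?_ ?_ ?_
      · intro n hn
        rw [mem_filter, mem_Icc] at hn
        rw [mem_Icc]
        obtain ⟨⟨h1, h2⟩, k, rfl⟩ := hn
        rw [Nat.mul_div_cancel_left _ hp]
        refine ⟨?_, ?_⟩
        · rcases Nat.eq_zero_or_pos k with h | h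
          · subst h; simp at h1
          · exact h
        · rw [Nat.le_div_iff_mul_le hp, mul_comm]; exact h2
      · intro m hm
        rw [mem_Icc] at hm
        rw [mem_filter, mem_Icc]
        refine ⟨⟨Nat.mul_pos hp hm.1, ?_⟩, dvd_mul_right _ _⟩
        have := (Nat.le_div_iff_mul_le hp).1 hm.2
        rwa [mul_comm] at this
      · intro n hn
        rw [mem_filter] at hn
        exact Nat.mul_div_cancel' hn.2
      · intro m _
        exact Nat.mul_div_cancel_left _ hp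
      · intro n hn
        rw [mem_filter, mem_Icc] at hn
        obtain ⟨⟨h1, h2⟩, k, rfl⟩ := hn
        rw [Nat.mul_div_cancel_left _ hp]
        push_cast
        rw [← mul_assoc, one_div_mul_one_div]
    have h2 : Icc 1 N = Icc 1 (N / p) ∪ Ioc (N / p) N := by
      ext n
      simp only [mem_union, mem_Icc, mem_Ioc]
      have := Nat.div_le_self N p
      generalize N / p = q at *
      omega
    have h3 : Disjoint (Icc 1 (N / p)) (Ioc (N / p) N) := by
      rw [Finset.disjoint_left]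
      intro n hn hn'
      rw [mem_Icc] at hn
      rw [mem_Ioc] at hn'
      omega
    have h4 : LA (fun n => if p ∣ n then b n else 0) N - (1 / (p : ℂ)) * LA (fun n => b (p * n)) N =
        -(((1 : ℂ) / ((Real.log (N : ℝ) : ℝ) : ℂ)) * ((1 / (p : ℂ)) *
          ∑ m ∈ Ioc (N / p) N, ((1 : ℂ) / (m : ℂ)) * b (p * m))) := by
      unfold LA
      rw [h1]
      conv_lhs => rw [h2]
      rw [sum_union h3]
      ring
    rw [h4, norm_neg, norm_mul, norm_mul]
    have h5 : ‖(1 : ℂ) / ((Real.log (N : ℝ) : ℝ) : ℂ)‖ = 1 / Real.log N := by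
      rw [norm_div, norm_one, Complex.norm_real, Real.norm_of_nonneg (Real.log_natCast_nonneg N)]
    have h6 : ‖(1 : ℂ) / (p : ℂ)‖ = 1 / p := by
      rw [norm_div, norm_one, Complex.norm_natCast]
    rw [h5, h6, mul_comm C]
    refine mul_le_mul_of_nonneg_left ?_ (inv_log_nonneg N)
    have h7 : ‖∑ m ∈ Ioc (N / p) N, ((1 : ℂ) / (m : ℂ)) * b (p * m)‖ ≤ p * C := by
      refine (norm_sum_le _ _).trans ?_
      rcases Nat.eq_zero_or_pos N with hN | hN
      · subst hN
        simp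
        positivity
      have hNr : (0 : ℝ) < N := by exact_mod_cast hN
      have h8 : ∀ m ∈ Ioc (N / p) N, ‖((1 : ℂ) / (m : ℂ)) * b (p * m)‖ ≤ (p / N : ℝ) * C := by
        intro m hm
        rw [mem_Ioc] at hm
        rw [norm_mul, norm_div, norm_one, Complex.norm_natCast]
        have h9 : N < p * m := by
          have := (Nat.div_lt_iff_lt_mul hp).1 hm.1
          rwa [mul_comm] at this
        have h10 : (N : ℝ) ≤ p * m := by exact_mod_cast h9.le
        have hm0 : 0 < m := (Nat.zero_le _).trans_lt hm.1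
        have hmr : (0 : ℝ) < m := by exact_mod_cast hm0
        refine mul_le_mul ?_ (hb _) (norm_nonneg _) (by positivity)
        rw [div_le_div_iff₀ hmr hNr, one_mul]
        exact h10
      refine (sum_le_sum h8).trans ?_
      rw [sum_const, nsmul_eq_mul, Nat.card_Ioc]
      have h11 : ((N - N / p : ℕ) : ℝ) ≤ N := by exact_mod_cast Nat.sub_le _ _
      calc ((N - N / p : ℕ) : ℝ) * ((p / N : ℝ) * C) ≤ N * ((p / N : ℝ) * C) :=
            mul_le_mul_of_nonneg_right h11 (by positivity)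
        _ = p * C := by field_simp
    calc 1 / (p : ℝ) * ‖∑ m ∈ Ioc (N / p) N, ((1 : ℂ) / (m : ℂ)) * b (p * m)‖ ≤ 1 / p * (p * C) :=
          mul_le_mul_of_nonneg_left h7 (by positivity)
      _ = C := by field_simp
  refine squeeze_zero_norm key ?_
  have := (tendsto_const_nhds (x := C)).mul (tendsto_inv_atTop_zero.comp log_top)
  simpa [Function.comp_def] using this

theorem LR_dvd {d : ℕ} (hd : 0 < d) :
    Tendsto (LR fun n => if d ∣ n then 1 else 0) atTop (𝓝 (1 / d)) := by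
  have h1 := LA_dil (b := fun _ => 1) (C := 1) (by simp) hd
  have h2 : Tendsto (fun N => (1 / (d : ℂ)) * LA (fun _ => 1) N) atTop (𝓝 ((1 / (d : ℂ)) * 1)) := by
    refine Tendsto.const_mul _ ?_
    have h3 := (Complex.continuous_ofReal.tendsto 1).comp LR_one
    simp only [Complex.ofReal_one] at h3
    refine h3.congr fun N => ?_
    have := LA_ofReal (fun _ => 1) N
    simp only [Complex.ofReal_one] at this
    simp only [Function.comp_def, this]
  have h4 := h1.add h2
  simp only [sub_add_cancel, zero_add, mul_one] at h4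
  have h5 := (Complex.continuous_re.tendsto _).comp h4
  have h6 : (1 / (d : ℂ)).re = 1 / d := by
    rw [← Complex.ofReal_natCast, ← Complex.ofReal_one, ← Complex.ofReal_div, Complex.ofReal_re]
  rw [h6] at h5
  refine h5.congr fun N => ?_
  have h7 := LA_ofReal (fun n => if d ∣ n then 1 else 0) N
  simp only [Function.comp_def]
  have h8 : (fun n => (((if d ∣ n then (1 : ℝ) else 0) : ℝ) : ℂ)) = fun n => if d ∣ n then (1 : ℂ) else 0 := by
    funext n; split_ifs <;> simp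
  rw [h8] at h7
  rw [h7, Complex.ofReal_re]

end Pool.Agent.Y868.ZE
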