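import Pool.Agent.Y868.ZE.K10

/-! Project ZE (helper868): Kátai's criterion with small correlations. -/

set_option autoImplicit false

namespace Pool.Agent.Y868.ZE

open Finset Filter Topology MeasureTheory
open scoped ComplexConjugate

/-- the finite form of Kátai's inequality -/
theorem katai_step' {u a : ℕ → ℂ} (hu1 : ∀ n, ‖u n‖ ≤ 1)
    (hu : ∀ m n : ℕ, 0 < m → 0 < n → Nat.Coprime m n → u (m * n) = u m * u n)
    (ha : ∀ n, ‖a n‖ ≤ 1) (F : Finset ℕ) (hF : ∀ p ∈ F, p.Prime)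
    {δ : ℝ} (hδ : 0 ≤ δ) (hc : ∀ p ∈ F, ∀ q ∈ F, p ≠ q →
      ∀ᶠ N in atTop, ‖LA (fun n => a (p * n) * conj (a (q * n))) N‖ ≤ δ) :
    ∀ᶠ N in atTop, (∑ p ∈ F, 1 / (p : ℝ)) * ‖LA (fun n => u n * a n) N‖ ≤
      √(∑ p ∈ F, 1 / (p : ℝ)) + 5 + √(2 * δ) * ∑ p ∈ F, 1 / (p : ℝ) := by
  set lam : ℝ := ∑ p ∈ F, 1 / (p : ℝ) with hlam
  have hlam0 : 0 ≤ lam := sum_nonneg fun p _ => by positivity
  have hua : ∀ n, ‖u n * a n‖ ≤ 1 := fun n => by
    rw [norm_mul]
    exact mul_le_one₀ (hu1 n) (norm_nonneg _) (ha n)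
  set S : ℕ → ℂ := LA (fun n => u n * a n) with hS
  set E : ℕ → ℕ → ℝ := fun p N => ‖LA (fun n => if p ∣ n then u n * a n else 0) N -
    (1 / (p : ℂ)) * LA (fun n => u (p * n) * a (p * n)) N‖ with hE
  set D : ℕ → ℕ → ℝ := fun p N => (2 / (p : ℝ)) * LR (fun n => if p ∣ n then 1 else 0) N with hD
  set K : ℕ → ℕ → ℕ → ℝ := fun p q N => (1 / (p : ℝ)) * (1 / (q : ℝ)) *
    (if p = q then LR (fun _ => 1) N else ‖LA (fun n => a (p * n) * conj (a (q * n))) N‖) with hK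
  set G : ℕ → ℂ := fun n => ∑ p ∈ F, (u p / p) * a (p * n) with hG
  -- the first identity
  have e1 : ∀ N, (lam : ℂ) * S N = ∑ p ∈ F, LA (fun n => if p ∣ n then u n * a n else 0) N -
      LA (fun n => u n * a n * ((∑ p ∈ F, dv p n : ℝ) : ℂ)) N := by
    intro N
    rw [← LA_sum, ← LA_sub, hS, ← LA_smul]
    congr 1
    funext n
    have : ((∑ p ∈ F, dv p n : ℝ) : ℂ) = ∑ p ∈ F, (if p ∣ n then (1 : ℂ) else 0) - (lam : ℂ) := by
      rw [hlam]
      unfold dv
      rw [sum_sub_distrib]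
      push_cast
      congr 1
      exact sum_congr rfl fun p _ => by split_ifs <;> simp
    rw [this, mul_sub, mul_sum]
    have h2 : ∀ p ∈ F, (u n * a n * if p ∣ n then (1 : ℂ) else 0) =
        if p ∣ n then u n * a n else 0 := fun p _ => by split_ifs <;> simp
    rw [sum_congr rfl h2]
    ring
  -- second
  have e2 : ∀ N, ‖LA (fun n => u n * a n * ((∑ p ∈ F, dv p n : ℝ) : ℂ)) N‖ ≤
      √(LR (fun _ => 1) N * LR (fun n => (∑ p ∈ F, dv p n) ^ 2) N) := by
    intro N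
    refine (norm_LA_le _ _).trans ?_
    have h1 : LR (fun n => ‖u n * a n * ((∑ p ∈ F, dv p n : ℝ) : ℂ)‖) N ≤
        LR (fun n => |∑ p ∈ F, dv p n|) N := by
      refine LR_mono (fun n => ?_) N
      rw [norm_mul, Complex.norm_real, Real.norm_eq_abs]
      exact mul_le_of_le_one_left (abs_nonneg _) (hua n)
    refine h1.trans (Real.le_sqrt_of_sq_le ?_)
    have h2 := LR_sq (b := fun n => |∑ p ∈ F, dv p n|) N
    simpa only [sq_abs] using h2
  -- third
  have e3 : ∀ N, ∀ p ∈ F, ‖(1 / (p : ℂ)) * LA (fun n => u (p * n) * a (p * n)) N -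
      (1 / (p : ℂ)) * LA (fun n => u p * u n * a (p * n)) N‖ ≤ D p N := by
    intro N p hp
    have hpp := hF p hp
    have hpr : (0 : ℝ) < p := by exact_mod_cast hpp.pos
    rw [← mul_sub, ← LA_sub, norm_mul]
    have h6 : ‖(1 : ℂ) / (p : ℂ)‖ = 1 / p := by
      rw [norm_div, norm_one, Complex.norm_natCast]
    rw [h6, hD]
    have h7 : ‖LA (fun n => u (p * n) * a (p * n) - u p * u n * a (p * n)) N‖ ≤
        2 * LR (fun n => if p ∣ n then 1 else 0) N := by
      refine (norm_LA_le _ _).trans ?_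
      rw [← LR_smul]
      refine LR_mono (fun n => ?_) N
      rw [← sub_mul, norm_mul]
      by_cases hpn : p ∣ n
      · rw [if_pos hpn, mul_one]
        have h8 : ‖u (p * n) - u p * u n‖ ≤ 2 := by
          refine (norm_sub_le _ _).trans ?_
          have h9 := hu1 (p * n)
          have h10 : ‖u p * u n‖ ≤ 1 := by
            rw [norm_mul]
            exact mul_le_one₀ (hu1 p) (norm_nonneg _) (hu1 n)
          linarith
        calc ‖u (p * n) - u p * u n‖ * ‖a (p * n)‖ ≤ 2 * 1 :=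
              mul_le_mul h8 (ha _) (norm_nonneg _) (by norm_num)
          _ = 2 := by norm_num
      · have hn0 : 0 < n := by
          rcases Nat.eq_zero_or_pos n with h | h
          · subst h; exact absurd (dvd_zero p) hpn
          · exact h
        have hcop : Nat.Coprime p n := (Nat.Prime.coprime_iff_not_dvd hpp).2 hpn
        rw [hu p n hpp.pos hn0 hcop, sub_self, norm_zero, zero_mul, if_neg hpn, mul_zero]
    calc 1 / (p : ℝ) * ‖LA (fun n => u (p * n) * a (p * n) - u p * u n * a (p * n)) N‖ ≤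
          1 / p * (2 * LR (fun n => if p ∣ n then 1 else 0) N) :=
        mul_le_mul_of_nonneg_left h7 (by positivity)
      _ = _ := by ring
  -- fourth
  have e4 : ∀ N, ∑ p ∈ F, (1 / (p : ℂ)) * LA (fun n => u p * u n * a (p * n)) N =
      LA (fun n => u n * G n) N := by
    intro N
    have h1 : (fun n => u n * G n) = fun n => ∑ p ∈ F, (1 / (p : ℂ)) * (u p * u n * a (p * n)) := by
      funext n
      rw [hG]
      simp only
      rw [mul_sum]
      exact sum_congr rfl fun p _ => by ring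
    rw [h1, LA_sum]
    exact sum_congr rfl fun p _ => (LA_smul _ _ _).symm
  -- fifth
  have e5 : ∀ N, LR (fun n => ‖G n‖ ^ 2) N ≤ ∑ p ∈ F, ∑ q ∈ F, K p q N := by
    intro N
    have h1 : LA (fun n => (((‖G n‖ ^ 2 : ℝ)) : ℂ)) N = ∑ p ∈ F, ∑ q ∈ F,
        ((u p / p) * conj (u q / q)) * LA (fun n => a (p * n) * conj (a (q * n))) N := by
      have h2 : (fun n => (((‖G n‖ ^ 2 : ℝ)) : ℂ)) = fun n => ∑ p ∈ F, ∑ q ∈ F,
          ((u p / p) * conj (u q / q)) * (a (p * n) * conj (a (q * n))) := by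
        funext n
        push_cast
        rw [← Complex.mul_conj', hG]
        simp only [map_sum, map_mul]
        rw [sum_mul_sum]
        exact sum_congr rfl fun p _ => sum_congr rfl fun q _ => by ring
      rw [h2, LA_sum]
      refine sum_congr rfl fun p _ => ?_
      rw [LA_sum]
      exact sum_congr rfl fun q _ => LA_smul _ _ _
    rw [LA_ofReal] at h1
    have h3 : 0 ≤ LR (fun n => ‖G n‖ ^ 2) N := LR_nonneg (fun n => by positivity) N
    have h4 : LR (fun n => ‖G n‖ ^ 2) N = ‖((LR (fun n => ‖G n‖ ^ 2) N : ℝ) : ℂ)‖ := by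
      rw [Complex.norm_real, Real.norm_of_nonneg h3]
    rw [h4, h1]
    refine (norm_sum_le _ _).trans (sum_le_sum fun p hp => ?_)
    refine (norm_sum_le _ _).trans (sum_le_sum fun q hq => ?_)
    have h5 : ∀ r ∈ F, ‖u r / r‖ ≤ 1 / r := by
      intro r _
      rw [norm_div, Complex.norm_natCast]
      exact div_le_div_of_nonneg_right (hu1 r) (Nat.cast_nonneg _)
    rw [norm_mul, norm_mul, Complex.norm_conj, hK]
    refine mul_le_mul (mul_le_mul (h5 p hp) (h5 q hq) (norm_nonneg _) (by positivity)) ?_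
      (norm_nonneg _) (by positivity)
    split_ifs with hpq
    · subst hpq
      have := norm_LA_le' (b := fun n => a (p * n) * conj (a (p * n))) (C := 1) (fun n => by
        rw [norm_mul, Complex.norm_conj]
        exact mul_le_one₀ (ha _) (norm_nonneg _) (ha _)) N
      rwa [one_mul] at this
    · exact le_rfl
  have e6 : ∀ N, ‖LA (fun n => u n * G n) N‖ ≤
      √(LR (fun _ => 1) N * ∑ p ∈ F, ∑ q ∈ F, K p q N) := by
    intro N
    refine (norm_LA_le _ _).trans ?_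
    have h1 : LR (fun n => ‖u n * G n‖) N ≤ LR (fun n => ‖G n‖) N := by
      refine LR_mono (fun n => ?_) N
      rw [norm_mul]
      exact mul_le_of_le_one_left (norm_nonneg _) (hu1 n)
    refine h1.trans (Real.le_sqrt_of_sq_le ?_)
    refine (LR_sq (b := fun n => ‖G n‖) N).trans ?_
    exact mul_le_mul_of_nonneg_left (e5 N) (LR_nonneg (fun _ => zero_le_one) N)
  -- assembling
  have e7 : ∀ N, lam * ‖S N‖ ≤ √(LR (fun _ => 1) N * LR (fun n => (∑ p ∈ F, dv p n) ^ 2) N) +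
      ∑ p ∈ F, E p N + ∑ p ∈ F, D p N + √(LR (fun _ => 1) N * ∑ p ∈ F, ∑ q ∈ F, K p q N) := by
    intro N
    have h1 : lam * ‖S N‖ = ‖(lam : ℂ) * S N‖ := by
      rw [norm_mul, Complex.norm_real, Real.norm_of_nonneg hlam0]
    rw [h1]
    have h2 : (lam : ℂ) * S N =
        -LA (fun n => u n * a n * ((∑ p ∈ F, dv p n : ℝ) : ℂ)) N +
        ∑ p ∈ F, (LA (fun n => if p ∣ n then u n * a n else 0) N -
          (1 / (p : ℂ)) * LA (fun n => u (p * n) * a (p * n)) N) +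
        ∑ p ∈ F, ((1 / (p : ℂ)) * LA (fun n => u (p * n) * a (p * n)) N -
          (1 / (p : ℂ)) * LA (fun n => u p * u n * a (p * n)) N) +
        LA (fun n => u n * G n) N := by
      rw [e1 N, ← e4 N, sum_sub_distrib, sum_sub_distrib]
      ring
    rw [h2]
    refine (norm_add_le _ _).trans (add_le_add ?_ (e6 N))
    refine (norm_add_le _ _).trans (add_le_add ?_ ?_)
    · refine (norm_add_le _ _).trans (add_le_add ?_ ?_)
      · rw [norm_neg]; exact e2 N
      · exact norm_sum_le _ _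
    · exact (norm_sum_le _ _).trans (sum_le_sum fun p hp => e3 N p hp)
  -- limits
  have l1 : Tendsto (fun N => √(LR (fun _ => 1) N * LR (fun n => (∑ p ∈ F, dv p n) ^ 2) N)) atTop
      (𝓝 √(1 * ∑ p ∈ F, (1 / (p : ℝ) - 1 / (p : ℝ) ^ 2))) :=
    (Real.continuous_sqrt.tendsto _).comp (LR_one.mul (LR_om F hF))
  have l2 : Tendsto (fun N => ∑ p ∈ F, E p N) atTop (𝓝 (∑ p ∈ F, (0 : ℝ))) :=
    tendsto_finsetSum _ fun p hp => by
      have := (LA_dil (b := fun n => u n * a n) hua (hF p hp).pos).norm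
      rwa [norm_zero] at this
  have l3 : Tendsto (fun N => ∑ p ∈ F, D p N) atTop (𝓝 (∑ p ∈ F, (2 / (p : ℝ)) * (1 / p))) :=
    tendsto_finsetSum _ fun p hp => (LR_dvd (hF p hp).pos).const_mul _
  have hsq := sq_sum_le F hF
  have b1 : √(1 * ∑ p ∈ F, (1 / (p : ℝ) - 1 / (p : ℝ) ^ 2)) ≤ √lam := by
    apply Real.sqrt_le_sqrt
    rw [one_mul, sum_sub_distrib]
    have : 0 ≤ ∑ p ∈ F, 1 / (p : ℝ) ^ 2 := sum_nonneg fun p _ => by positivity
    linarith
  have b3 : ∑ p ∈ F, (2 / (p : ℝ)) * (1 / p) ≤ 2 := by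
    have : ∑ p ∈ F, (2 / (p : ℝ)) * (1 / p) = 2 * ∑ p ∈ F, 1 / (p : ℝ) ^ 2 := by
      rw [mul_sum]
      exact sum_congr rfl fun p _ => by rw [div_mul_div_comm, mul_one, ← sq, mul_one_div]
    rw [this]; linarith
  have l5 := (l1.add l2).add l3
  have hlt : √(1 * ∑ p ∈ F, (1 / (p : ℝ) - 1 / (p : ℝ) ^ 2)) + ∑ p ∈ F, (0 : ℝ) +
      ∑ p ∈ F, (2 / (p : ℝ)) * (1 / p) < √lam + 3 := by
    rw [sum_const_zero]
    linarith
  have hc' : ∀ᶠ N in atTop, ∀ p ∈ F, ∀ q ∈ F, p ≠ q →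
      ‖LA (fun n => a (p * n) * conj (a (q * n))) N‖ ≤ δ := by
    rw [eventually_all_finset]
    intro p hp
    rw [eventually_all_finset]
    intro q hq
    by_cases hpq : p = q
    · exact Eventually.of_forall fun N h => absurd hpq h
    · exact (hc p hp q hq hpq).mono fun N hN _ => hN
  filter_upwards [l5.eventually_lt_const hlt, LR_one.eventually_lt_const (show (1 : ℝ) < 2 by norm_num),
    hc'] with N h1 h2 h3
  have hLR0 : 0 ≤ LR (fun _ => 1) N := LR_nonneg (fun _ => zero_le_one) N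
  have h4 : ∑ p ∈ F, ∑ q ∈ F, K p q N ≤ 2 + δ * lam ^ 2 := by
    have h5 : ∀ p ∈ F, ∀ q ∈ F, K p q N ≤
        (if p = q then 2 * (1 / (p : ℝ) ^ 2) else 0) + δ * ((1 / (p : ℝ)) * (1 / (q : ℝ))) := by
      intro p hp q hq
      rw [hK]
      by_cases hpq : p = q
      · subst hpq
        simp only [if_true]
        have e : (1 / (p : ℝ)) * (1 / (p : ℝ)) = 1 / (p : ℝ) ^ 2 := by
          rw [div_mul_div_comm, mul_one, ← sq]
        rw [e]
        have h6 : (0 : ℝ) ≤ 1 / (p : ℝ) ^ 2 := by positivity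
        have h7 := mul_le_mul_of_nonneg_left h2.le h6
        have h8 : 0 ≤ δ * (1 / (p : ℝ) ^ 2) := mul_nonneg hδ h6
        linarith
      · simp only [if_neg hpq]
        have h6 : (0 : ℝ) ≤ (1 / (p : ℝ)) * (1 / (q : ℝ)) := by positivity
        have h7 := mul_le_mul_of_nonneg_left (h3 p hp q hq hpq) h6
        linarith
    refine (sum_le_sum fun p hp => sum_le_sum fun q hq => h5 p hp q hq).trans ?_
    have e1 : ∑ p ∈ F, ∑ q ∈ F, ((if p = q then 2 * (1 / (p : ℝ) ^ 2) else 0) +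
        δ * ((1 / (p : ℝ)) * (1 / (q : ℝ)))) = 2 * ∑ p ∈ F, 1 / (p : ℝ) ^ 2 + δ * lam ^ 2 := by
      rw [hlam, sq, sum_mul_sum, mul_sum, mul_sum, ← sum_add_distrib]
      refine sum_congr rfl fun p hp => ?_
      rw [sum_add_distrib, sum_ite_eq, if_pos hp, ← mul_sum]
    rw [e1]
    linarith
  have h5 : √(LR (fun _ => 1) N * ∑ p ∈ F, ∑ q ∈ F, K p q N) ≤ 2 + √(2 * δ) * lam := by
    rw [Real.sqrt_le_iff]
    have h6 : 0 ≤ √(2 * δ) * lam := mul_nonneg (Real.sqrt_nonneg _) hlam0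
    refine ⟨by linarith, ?_⟩
    have h7 : √(2 * δ) ^ 2 = 2 * δ := Real.sq_sqrt (by linarith)
    have h8 : LR (fun _ => 1) N * ∑ p ∈ F, ∑ q ∈ F, K p q N ≤ 2 * (2 + δ * lam ^ 2) :=
      (mul_le_mul_of_nonneg_left h4 hLR0).trans
        (mul_le_mul_of_nonneg_right h2.le (by positivity))
    calc LR (fun _ => 1) N * ∑ p ∈ F, ∑ q ∈ F, K p q N ≤ 2 * (2 + δ * lam ^ 2) := h8
      _ = 4 + (√(2 * δ) * lam) ^ 2 := by rw [mul_pow, h7]; ring
      _ ≤ (2 + √(2 * δ) * lam) ^ 2 := by nlinarith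
  have h6 := e7 N
  linarith

/-- Kátai's criterion, if the correlations are small for many primes. -/
theorem katai' {u a : ℕ → ℂ} (hu1 : ∀ n, ‖u n‖ ≤ 1)
    (hu : ∀ m n : ℕ, 0 < m → 0 < n → Nat.Coprime m n → u (m * n) = u m * u n)
    (ha : ∀ n, ‖a n‖ ≤ 1)
    (hc : ∀ δ : ℝ, 0 < δ → ∃ P : Set ℕ, (∀ p ∈ P, p.Prime) ∧
      ¬ Summable (P.indicator fun n : ℕ => 1 / (n : ℝ)) ∧ ∀ p ∈ P, ∀ q ∈ P, p ≠ q →
        ∀ᶠ N in atTop, ‖LA (fun n => a (p * n) * conj (a (q * n))) N‖ ≤ δ) :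
    Tendsto (LA fun n => u n * a n) atTop (𝓝 0) := by
  classical
  rw [Metric.tendsto_atTop']
  intro ε hε
  obtain ⟨P, hP, hdiv, hcP⟩ := hc (ε ^ 2 / 8) (by positivity)
  have h1 := (not_summable_iff_tendsto_nat_atTop_of_nonneg (f := P.indicator fun n : ℕ => 1 / (n : ℝ))
    (fun n => Set.indicator_nonneg (fun _ _ => by positivity) _)).1 hdiv
  obtain ⟨M, hM⟩ := (h1.eventually_ge_atTop (max 1 ((14 / ε) ^ 2))).exists
  set F : Finset ℕ := (range M).filter (fun p => p ∈ P) with hF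
  have h2 : ∑ i ∈ range M, P.indicator (fun n : ℕ => 1 / (n : ℝ)) i = ∑ p ∈ F, 1 / (p : ℝ) := by
    rw [hF, sum_filter]
    exact sum_congr rfl fun i _ => by rw [Set.indicator_apply]
  rw [h2] at hM
  set lam := ∑ p ∈ F, 1 / (p : ℝ) with hlam
  have hl1 : 1 ≤ lam := (le_max_left _ _).trans hM
  have hl2 : (14 / ε) ^ 2 ≤ lam := (le_max_right _ _).trans hM
  have h3 := katai_step' hu1 hu ha F (fun p hp => hP p (mem_filter.1 hp).2)
    (δ := ε ^ 2 / 8) (by positivity)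
    (fun p hp q hq hpq => hcP p (mem_filter.1 hp).2 q (mem_filter.1 hq).2 hpq)
  rw [← hlam] at h3
  have e0 : √(2 * (ε ^ 2 / 8)) = ε / 2 := by
    rw [show 2 * (ε ^ 2 / 8) = (ε / 2) ^ 2 by ring]
    exact Real.sqrt_sq (by positivity)
  rw [e0] at h3
  obtain ⟨N₀, hN₀⟩ := eventually_atTop.1 h3
  refine ⟨N₀, fun N hN => ?_⟩
  rw [dist_zero_right]
  have h4 := hN₀ N hN.le
  have hs1 : 1 ≤ √lam := Real.one_le_sqrt.2 hl1
  have hs2 : 14 / ε ≤ √lam := Real.le_sqrt_of_sq_le hl2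
  have hs3 : √lam * √lam = lam := Real.mul_self_sqrt (by linarith)
  have hs4 : 14 ≤ √lam * ε := by rwa [div_le_iff₀ hε] at hs2
  -- `lam * x ≤ 6 √lam + (ε / 2) lam`
  by_contra hcon
  push Not at hcon
  have h5 : lam * ε ≤ √lam + 5 + ε / 2 * lam :=
    (mul_le_mul_of_nonneg_left hcon (by linarith)).trans h4
  have h6 : lam * (ε / 2) ≤ 6 * √lam := by linarith
  have h7 : √lam * (√lam * (ε / 2)) ≤ √lam * 6 := by
    rw [← mul_assoc, hs3]; linarith
  have h8 : √lam * (ε / 2) ≤ 6 := le_of_mul_le_mul_left h7 (by linarith)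
  linarith

section

variable {Y : Type} [MetricSpace Y] [CompactSpace Y] [MeasurableSpace Y] [BorelSpace Y]

open scoped BoundedContinuousFunction

/-- limits of logarithmic averages are integrals -/
theorem corr_lim {S : Y → Y} (hS : Continuous S) (y : Y) {φ : Y → ℂ} (hφ : Continuous φ)
    (𝒰 : Ultrafilter ℕ) (h𝒰 : (𝒰 : Filter ℕ) ≤ atTop) :
    ∃ ν : Measure Y, IsProbabilityMeasure ν ∧ MeasurePreserving S ν ν ∧
      Tendsto (LA fun n => φ (S^[n] y)) 𝒰 (𝓝 (∫ x, φ x ∂ν)) := by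
  have hmax : ∀ N : ℕ, 1 ≤ max N 1 := fun N => le_max_right _ _
  set m : ℕ → ProbabilityMeasure Y := fun N => ⟨emp S y (max N 1), emp_prob S y (hmax N)⟩ with hm
  obtain ⟨ν, -, hν⟩ := isCompact_univ.ultrafilter_le_nhds (𝒰.map m) (by simp)
  have hν' : Tendsto m 𝒰 (𝓝 ν) := hν
  -- integrals against the empirical measures
  have hR : ∀ (ψ : Y → ℝ), Continuous ψ → ∀ᶠ N : ℕ in (𝒰 : Filter ℕ),
      ∫ x, ψ x ∂(m N : Measure Y) = LR (fun n => ψ (S^[n] y)) N / LR (fun _ => 1) N := by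
    intro ψ hψ
    refine h𝒰 ?_
    filter_upwards [eventually_ge_atTop 2] with N hN
    have h1 : max N 1 = N := by omega
    rw [hm]
    simp only [ProbabilityMeasure.coe_mk, h1]
    rw [emp_int S y (by omega) hψ]
    have hl : Real.log (N : ℝ) ≠ 0 := (Real.log_pos (by exact_mod_cast hN)).ne'
    have hH := HN_pos (N := N) (by omega)
    have e2 : LR (fun _ => 1) N = (1 / Real.log (N : ℝ)) * HN N := by
      unfold LR HN
      simp only [mul_one]
    rw [e2]
    unfold LR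
    rw [mul_div_mul_left _ _ (by positivity), sum_div]
    exact sum_congr rfl fun n _ => by rw [smul_eq_mul]; ring
  have hR1 : Tendsto (LR fun _ => 1) 𝒰 (𝓝 1) := LR_one.mono_left h𝒰
  have hinv : MeasurePreserving S (ν : Measure Y) (ν : Measure Y) := by
    refine ⟨hS.measurable, ?_⟩
    haveI : IsProbabilityMeasure ((ν : Measure Y).map S) :=
      Measure.isProbabilityMeasure_map hS.measurable.aemeasurable
    apply ext_of_forall_integral_eq_of_IsFiniteMeasure
    intro f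
    rw [integral_map hS.measurable.aemeasurable f.continuous.aestronglyMeasurable]
    have h1 := (ProbabilityMeasure.tendsto_iff_forall_integral_tendsto.1 hν') f
    have h2 := (ProbabilityMeasure.tendsto_iff_forall_integral_tendsto.1 hν')
      (f.compContinuous ⟨S, hS⟩)
    have h3 := h2.sub h1
    have h4 : Tendsto (fun N => (LR (fun n => f (S^[n + 1] y)) N - LR (fun n => f (S^[n] y)) N) /
        LR (fun _ => 1) N) 𝒰 (𝓝 (0 / 1)) := by
      refine Tendsto.div ?_ hR1 one_ne_zero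
      exact (LR_shift (b := fun n => f (S^[n] y)) (C := ‖f‖) fun n => f.norm_coe_le_norm _).mono_left h𝒰
    rw [zero_div] at h4
    have h5 := tendsto_nhds_unique (h3.congr' ?_) h4
    · have h6 : ∫ x, f (S x) ∂(ν : Measure Y) - ∫ x, f x ∂(ν : Measure Y) = 0 := h5
      linarith
    · filter_upwards [hR f f.continuous, hR (fun x => f (S x)) (f.continuous.comp hS)] with N h7 h8
      rw [h7]
      have h9 : ∫ x, (f.compContinuous ⟨S, hS⟩) x ∂(m N : Measure Y) =
          ∫ x, f (S x) ∂(m N : Measure Y) := rfl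
      rw [h9, h8, ← sub_div]
      congr 2
      congr 1
      funext n
      rw [Function.iterate_succ_apply']
  refine ⟨(ν : Measure Y), inferInstance, hinv, ?_⟩
  set z : ℂ := ∫ x, φ x ∂(ν : Measure Y) with hz
  -- complex version
  let φb : Y →ᵇ ℂ := BoundedContinuousFunction.mkOfCompact ⟨φ, hφ⟩
  have h1 := (ProbabilityMeasure.tendsto_iff_forall_integral_rclike_tendsto ℂ).1 hν' φb
  have h2 : Tendsto (fun N => ∫ x, φ x ∂(m N : Measure Y)) 𝒰 (𝓝 z) := by
    exact h1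
  have h3 : Tendsto (fun N => (∫ x, φ x ∂(m N : Measure Y)) * ((LR (fun _ => 1) N : ℝ) : ℂ)) 𝒰
      (𝓝 (z * ((1 : ℝ) : ℂ))) :=
    h2.mul ((Complex.continuous_ofReal.tendsto 1).comp hR1)
  rw [Complex.ofReal_one, mul_one] at h3
  refine h3.congr' ?_
  refine h𝒰 ?_
  filter_upwards [eventually_ge_atTop 2] with N hN
  have h1 : max N 1 = N := by omega
  rw [hm]
  simp only [ProbabilityMeasure.coe_mk, h1]
  rw [emp_int S y (by omega) hφ]
  have hl : Real.log (N : ℝ) ≠ 0 := (Real.log_pos (by exact_mod_cast hN)).ne'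
  have hH := HN_pos (N := N) (by omega)
  have e2 : LR (fun _ => 1) N = (1 / Real.log (N : ℝ)) * HN N := by
    unfold LR HN
    simp only [mul_one]
  rw [e2]
  unfold LA
  rw [sum_mul, mul_sum]
  refine sum_congr rfl fun n _ => ?_
  rw [Complex.real_smul]
  have hlc : ((Real.log (N : ℝ) : ℝ) : ℂ) ≠ 0 := by exact_mod_cast hl
  have hHc : ((HN N : ℝ) : ℂ) ≠ 0 := by exact_mod_cast hH.ne'
  push_cast
  field_simp

/-- small integrals give small averages -/
theorem corr_small {S : Y → Y} (hS : Continuous S) (y : Y) {φ : Y → ℂ} (hφ : Continuous φ) {δ δ' : ℝ}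
    (hδ : δ < δ')
    (h : ∀ ν : Measure Y, IsProbabilityMeasure ν → MeasurePreserving S ν ν → ‖∫ x, φ x ∂ν‖ ≤ δ) :
    ∀ᶠ N in atTop, ‖LA (fun n => φ (S^[n] y)) N‖ ≤ δ' := by
  by_contra hcon
  rw [not_eventually] at hcon
  have h1 := frequently_iff_neBot.1 hcon
  set 𝒰 : Ultrafilter ℕ := @Ultrafilter.of _ _ h1 with h𝒰
  have h2 : (𝒰 : Filter ℕ) ≤ atTop ⊓ 𝓟 {N | ¬ ‖LA (fun n => φ (S^[n] y)) N‖ ≤ δ'} :=
    @Ultrafilter.of_le _ _ h1
  obtain ⟨ν, hν1, hν2, hν3⟩ := corr_lim hS y hφ 𝒰 (h2.trans inf_le_left)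
  have h3 : ∀ᶠ N in (𝒰 : Filter ℕ), ¬ ‖LA (fun n => φ (S^[n] y)) N‖ ≤ δ' :=
    (h2.trans inf_le_right) (mem_principal_self _)
  have h4 := hν3.norm.eventually_lt_const ((h ν hν1 hν2).trans_lt hδ)
  obtain ⟨N, h5, h6⟩ := (h3.and h4).exists
  exact h5 h6.le

end

end Pool.Agent.Y868.ZE
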