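import Pool.Agent.Y868.ZE.K11

/-! Project ZE (helper868): joinings of the powers of a system with discrete spectrum. -/

set_option autoImplicit false

namespace Pool.Agent.Y868.ZE

open Finset Filter Topology MeasureTheory
open scoped ComplexConjugate

section

variable {X : Type} [MetricSpace X] [CompactSpace X] [MeasurableSpace X] [BorelSpace X]

/-- bounded eigenfunctions -/
structure Eig (T : X → X) (μ : Measure X) (φ : X → ℂ) (z : ℂ) : Prop where
  meas : Measurable φ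
  bdd : ∃ C : ℝ, ∀ x, ‖φ x‖ ≤ C
  norm : ‖z‖ = 1
  eig : ∀ᵐ x ∂μ, φ (T x) = z * φ x

theorem Eig.iter {T : X → X} {μ : Measure X} {φ : X → ℂ} {z : ℂ} (hT : MeasurePreserving T μ μ)
    (h : Eig T μ φ z) (n : ℕ) : ∀ᵐ x ∂μ, φ (T^[n] x) = z ^ n * φ x := by
  induction n with
  | zero => exact Eventually.of_forall fun x => by simp
  | succ n ih =>
    have h1 := hT.quasiMeasurePreserving.ae ih
    filter_upwards [h1, h.eig] with x h2 h3
    rw [Function.iterate_succ_apply, h2, h3, pow_succ]; ring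

theorem join_zero {T : X → X} {μ : Measure X} (hT : MeasurePreserving T μ μ)
    {φ ψ : X → ℂ} {z w : ℂ} (h1 : Eig T μ φ z) (h2 : Eig T μ ψ w) {p q : ℕ}
    {ν : Measure (X × X)} [IsProbabilityMeasure ν]
    (hν : MeasurePreserving (Prod.map (T^[p]) (T^[q])) ν ν)
    (m1 : ν.map Prod.fst = μ) (m2 : ν.map Prod.snd = μ) (hne : z ^ p * conj (w ^ q) ≠ 1) :
    ∫ y, φ y.1 * conj (ψ y.2) ∂ν = 0 := by
  have f1 : MeasurePreserving (Prod.fst : X × X → X) ν μ := ⟨measurable_fst, m1⟩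
  have f2 : MeasurePreserving (Prod.snd : X × X → X) ν μ := ⟨measurable_snd, m2⟩
  have hG : Measurable (fun y : X × X => φ y.1 * conj (ψ y.2)) :=
    (h1.meas.comp measurable_fst).mul
      (Complex.continuous_conj.measurable.comp (h2.meas.comp measurable_snd))
  have e1 : ∫ y, φ y.1 * conj (ψ y.2) ∂ν =
      ∫ y, φ (T^[p] y.1) * conj (ψ (T^[q] y.2)) ∂ν := by
    conv_lhs => rw [← hν.map_eq]
    rw [integral_map hν.measurable.aemeasurable hG.aestronglyMeasurable]
    rfl
  have e2 : ∫ y, φ (T^[p] y.1) * conj (ψ (T^[q] y.2)) ∂ν =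
      ∫ y, (z ^ p * conj (w ^ q)) * (φ y.1 * conj (ψ y.2)) ∂ν := by
    refine integral_congr_ae ?_
    filter_upwards [f1.quasiMeasurePreserving.ae (h1.iter hT p),
      f2.quasiMeasurePreserving.ae (h2.iter hT q)] with y h3 h4
    rw [h3, h4, map_mul]; ring
  rw [integral_const_mul] at e2
  have e3 := e1.trans e2
  have e4 : (1 - z ^ p * conj (w ^ q)) * ∫ y, φ y.1 * conj (ψ y.2) ∂ν = 0 := by
    rw [sub_mul, one_mul, ← e3, sub_self]
  rcases mul_eq_zero.1 e4 with h | h
  · exact absurd (sub_eq_zero.1 h).symm hne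
  · exact h

theorem bad_pairs {z w : ℂ} (hz : ‖z‖ = 1) (hw : ‖w‖ = 1) (hz' : ∀ k : ℕ, 1 ≤ k → z ^ k ≠ 1) :
    ∃ M : ℕ, ∀ p q : ℕ, p.Prime → q.Prime → p ≠ q → M < p → z ^ p * conj (w ^ q) ≠ 1 := by
  have hz0 : z ≠ 0 := fun h => by rw [h] at hz; simp at hz
  have key : ∀ p q : ℕ, z ^ p * conj (w ^ q) = 1 → z ^ p = w ^ q := by
    intro p q h
    have h1 : conj (w ^ q) * w ^ q = 1 := by
      rw [Complex.conj_mul', norm_pow, hw]; simp
    calc z ^ p = z ^ p * (conj (w ^ q) * w ^ q) := by rw [h1, mul_one]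
      _ = w ^ q := by rw [← mul_assoc, h, one_mul]
  by_cases hex : ∃ p q : ℕ, p.Prime ∧ q.Prime ∧ p ≠ q ∧ z ^ p * conj (w ^ q) = 1
  · obtain ⟨p₀, q₀, hp₀, hq₀, hne₀, h0⟩ := hex
    refine ⟨p₀, fun p q hp hq hne hM h => ?_⟩
    have h1 := key _ _ h0
    have h2 := key _ _ h
    have h3 : z ^ (p * q₀) = z ^ (p₀ * q) := by
      rw [pow_mul, h2, ← pow_mul, mul_comm q q₀, pow_mul, ← h1, ← pow_mul]
    have h4 : p * q₀ ≠ p₀ * q := by
      intro h5
      have h6 : p ∣ p₀ * q := ⟨q₀, h5.symm⟩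
      rcases (Nat.Prime.dvd_mul hp).1 h6 with h7 | h7
      · exact absurd ((Nat.prime_dvd_prime_iff_eq hp hp₀).1 h7) (by omega)
      · exact hne ((Nat.prime_dvd_prime_iff_eq hp hq).1 h7)
    have h5 : ∀ a b : ℕ, a < b → z ^ a = z ^ b → False := by
      intro a b hab h6
      apply hz' (b - a) (by omega)
      have h7 : z ^ a * z ^ (b - a) = z ^ a * 1 := by
        rw [← pow_add, mul_one, show a + (b - a) = b by omega, h6]
      exact mul_left_cancel₀ (pow_ne_zero _ hz0) h7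
    rcases lt_or_gt_of_ne h4 with h6 | h6
    · exact h5 _ _ h6 h3
    · exact h5 _ _ h6 h3.symm
  · refine ⟨0, fun p q hp hq hne _ h => hex ⟨p, q, hp, hq, hne, h⟩⟩

theorem join_small {T : X → X} {μ : Measure X} [IsProbabilityMeasure μ]
    (hT : MeasurePreserving T μ μ) {F : X → ℂ} (hFm : Measurable F) {B : ℝ} (hF : ∀ x, ‖F x‖ ≤ B)
    {m : ℕ} {φ : Fin m → X → ℂ} {z : Fin m → ℂ} (hφ : ∀ i, Eig T μ (φ i) (z i)) {t : ℝ} (ht : 0 < t)
    (ht2 : ∫ x, ‖F x - ∑ i, φ i x‖ ^ 2 ∂μ ≤ t ^ 2) {p q : ℕ}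
    (hne : ∀ i j, z i ^ p * conj (z j ^ q) ≠ 1)
    {ν : Measure (X × X)} [IsProbabilityMeasure ν]
    (hν : MeasurePreserving (Prod.map (T^[p]) (T^[q])) ν ν)
    (m1 : ν.map Prod.fst = μ) (m2 : ν.map Prod.snd = μ) :
    ‖∫ y, F y.1 * conj (F y.2) ∂ν‖ ≤ 2 * B * t + t ^ 2 := by
  have f1 : MeasurePreserving (Prod.fst : X × X → X) ν μ := ⟨measurable_fst, m1⟩
  have f2 : MeasurePreserving (Prod.snd : X × X → X) ν μ := ⟨measurable_snd, m2⟩
  set r : X → ℂ := fun x => F x - ∑ i, φ i x with hr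
  have hrm : Measurable r := hFm.sub (Finset.measurable_sum _ fun i _ => (hφ i).meas)
  choose Cφ hCφ using fun i => (hφ i).bdd
  have hrb : ∀ x, ‖r x‖ ≤ B + ∑ i, Cφ i := by
    intro x
    refine (norm_sub_le _ _).trans (add_le_add (hF x) ?_)
    exact (norm_sum_le _ _).trans (sum_le_sum fun i _ => hCφ i x)
  set R : ℝ := B + ∑ i, Cφ i with hR
  obtain ⟨x₀⟩ : Nonempty X := by
    by_contra hcon
    rw [not_nonempty_iff] at hcon
    have : μ Set.univ = 1 := measure_univ
    rw [Set.eq_empty_of_isEmpty Set.univ, measure_empty] at this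
    exact zero_ne_one this
  have hB : 0 ≤ B := (norm_nonneg _).trans (hF x₀)
  have hR0 : 0 ≤ R := (norm_nonneg _).trans (hrb x₀)
  have hconj : Measurable (fun c : ℂ => conj c) := Complex.continuous_conj.measurable
  -- integrability
  have ib : ∀ {G : X × X → ℂ} {C : ℝ}, Measurable G → (∀ y, ‖G y‖ ≤ C) → Integrable G ν :=
    fun hG hC => Integrable.of_bound hG.aestronglyMeasurable _ (Eventually.of_forall hC)
  have i1 : Integrable (fun x => ‖r x‖) μ :=
    (Integrable.of_bound hrm.aestronglyMeasurable R (Eventually.of_forall hrb)).norm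
  have i2 : Integrable (fun x => ‖r x‖ ^ 2) μ := by
    refine Integrable.of_bound (hrm.norm.pow_const 2).aestronglyMeasurable (R ^ 2)
      (Eventually.of_forall fun x => ?_)
    rw [Real.norm_of_nonneg (by positivity)]
    exact pow_le_pow_left₀ (norm_nonneg _) (hrb x) 2
  have hL1 : ∫ x, ‖r x‖ ∂μ ≤ t := by
    have h1 : ∫ x, ‖r x‖ ∂μ ≤ ∫ x, (‖r x‖ ^ 2 / (2 * t) + t / 2) ∂μ := by
      refine integral_mono i1 ((i2.div_const _).add (integrable_const _)) fun x => ?_
      have h2 : 0 ≤ (‖r x‖ - t) ^ 2 := sq_nonneg _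
      have h3 : ‖r x‖ ^ 2 / (2 * t) + t / 2 - ‖r x‖ = (‖r x‖ - t) ^ 2 / (2 * t) := by
        field_simp; ring
      have h4 : 0 ≤ (‖r x‖ - t) ^ 2 / (2 * t) := by positivity
      show ‖r x‖ ≤ ‖r x‖ ^ 2 / (2 * t) + t / 2
      linarith
    rw [integral_add (i2.div_const _) (integrable_const _), integral_div, integral_const] at h1
    have h5 : (∫ x, ‖r x‖ ^ 2 ∂μ) / (2 * t) ≤ t / 2 := by
      rw [div_le_iff₀ (by positivity)]
      calc ∫ x, ‖r x‖ ^ 2 ∂μ ≤ t ^ 2 := ht2
        _ = t / 2 * (2 * t) := by ring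
    simp at h1
    linarith
  -- the main term
  have hH : ∫ y : X × X, (∑ i, φ i y.1) * conj (∑ j, φ j y.2) ∂ν = 0 := by
    have e : (fun y : X × X => (∑ i, φ i y.1) * conj (∑ j, φ j y.2)) = fun y =>
        ∑ i, ∑ j, φ i y.1 * conj (φ j y.2) := by
      funext y
      rw [map_sum, sum_mul_sum]
    rw [e, integral_finsetSum]
    · refine sum_eq_zero fun i _ => ?_
      rw [integral_finsetSum]
      · exact sum_eq_zero fun j _ => join_zero hT (hφ i) (hφ j) hν m1 m2 (hne i j)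
      · intro j _
        refine ib (C := Cφ i * Cφ j) (((hφ i).meas.comp measurable_fst).mul
          (hconj.comp ((hφ j).meas.comp measurable_snd))) fun y => ?_
        rw [norm_mul, Complex.norm_conj]
        exact mul_le_mul (hCφ i _) (hCφ j _) (norm_nonneg _) ((norm_nonneg _).trans (hCφ i y.1))
    · intro i _
      refine integrable_finsetSum _ fun j _ => ?_
      refine ib (C := Cφ i * Cφ j) (((hφ i).meas.comp measurable_fst).mul
        (hconj.comp ((hφ j).meas.comp measurable_snd))) fun y => ?_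
      rw [norm_mul, Complex.norm_conj]
      exact mul_le_mul (hCφ i _) (hCφ j _) (norm_nonneg _) ((norm_nonneg _).trans (hCφ i y.1))
  have hFF : ∀ y : X × X, F y.1 * conj (F y.2) = (∑ i, φ i y.1) * conj (∑ j, φ j y.2) +
      (F y.1 * conj (r y.2) + r y.1 * conj (F y.2) - r y.1 * conj (r y.2)) := by
    intro y
    have h1 : ∀ x, ∑ i, φ i x = F x - r x := fun x => by rw [hr]; simp
    rw [h1, h1, map_sub]; ring
  have m3 : Measurable (fun y : X × X => F y.1 * conj (r y.2)) :=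
    (hFm.comp measurable_fst).mul (hconj.comp (hrm.comp measurable_snd))
  have m4 : Measurable (fun y : X × X => r y.1 * conj (F y.2)) :=
    (hrm.comp measurable_fst).mul (hconj.comp (hFm.comp measurable_snd))
  have m5 : Measurable (fun y : X × X => r y.1 * conj (r y.2)) :=
    (hrm.comp measurable_fst).mul (hconj.comp (hrm.comp measurable_snd))
  have j3 : Integrable (fun y : X × X => F y.1 * conj (r y.2)) ν := ib (C := B * R) m3 fun y => by
    rw [norm_mul, Complex.norm_conj]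
    exact mul_le_mul (hF _) (hrb _) (norm_nonneg _) hB
  have j4 : Integrable (fun y : X × X => r y.1 * conj (F y.2)) ν := ib (C := R * B) m4 fun y => by
    rw [norm_mul, Complex.norm_conj]
    exact mul_le_mul (hrb _) (hF _) (norm_nonneg _) hR0
  have j5 : Integrable (fun y : X × X => r y.1 * conj (r y.2)) ν := ib (C := R * R) m5 fun y => by
    rw [norm_mul, Complex.norm_conj]
    exact mul_le_mul (hrb _) (hrb _) (norm_nonneg _) hR0
  have j6 : Integrable (fun y : X × X => (∑ i, φ i y.1) * conj (∑ j, φ j y.2)) ν := by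
    have h1 : ∀ x, ∑ i, φ i x = F x - r x := fun x => by rw [hr]; simp
    have hsm : Measurable (fun x => ∑ i, φ i x) := Finset.measurable_sum _ fun i _ => (hφ i).meas
    refine ib (C := (∑ i, Cφ i) * (∑ i, Cφ i)) ((hsm.comp measurable_fst).mul
      (hconj.comp (hsm.comp measurable_snd))) fun y => ?_
    rw [norm_mul, Complex.norm_conj]
    have h2 : ∀ x, ‖∑ i, φ i x‖ ≤ ∑ i, Cφ i := fun x =>
      (norm_sum_le _ _).trans (sum_le_sum fun i _ => hCφ i x)
    exact mul_le_mul (h2 _) (h2 _) (norm_nonneg _) ((norm_nonneg _).trans (h2 x₀))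
  have t3 : ‖∫ y : X × X, F y.1 * conj (r y.2) ∂ν‖ ≤ B * t := by
    refine (norm_integral_le_integral_norm _).trans ?_
    have h1 : ∫ y : X × X, ‖F y.1 * conj (r y.2)‖ ∂ν ≤ ∫ y : X × X, B * ‖r y.2‖ ∂ν := by
      refine integral_mono j3.norm ((f2.integrable_comp_of_integrable i1).const_mul B) fun y => ?_
      show ‖F y.1 * conj (r y.2)‖ ≤ B * ‖r y.2‖
      rw [norm_mul, Complex.norm_conj]
      exact mul_le_mul_of_nonneg_right (hF _) (norm_nonneg _)
    refine h1.trans ?_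
    rw [integral_const_mul]
    have h2 : ∫ y : X × X, ‖r y.2‖ ∂ν = ∫ x, ‖r x‖ ∂μ := by
      rw [← m2, integral_map measurable_snd.aemeasurable hrm.norm.aestronglyMeasurable]
    rw [h2]
    exact mul_le_mul_of_nonneg_left hL1 hB
  have t4 : ‖∫ y : X × X, r y.1 * conj (F y.2) ∂ν‖ ≤ B * t := by
    refine (norm_integral_le_integral_norm _).trans ?_
    have h1 : ∫ y : X × X, ‖r y.1 * conj (F y.2)‖ ∂ν ≤ ∫ y : X × X, B * ‖r y.1‖ ∂ν := by
      refine integral_mono j4.norm ((f1.integrable_comp_of_integrable i1).const_mul B) fun y => ?_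
      show ‖r y.1 * conj (F y.2)‖ ≤ B * ‖r y.1‖
      rw [norm_mul, Complex.norm_conj, mul_comm]
      exact mul_le_mul_of_nonneg_right (hF _) (norm_nonneg _)
    refine h1.trans ?_
    rw [integral_const_mul]
    have h2 : ∫ y : X × X, ‖r y.1‖ ∂ν = ∫ x, ‖r x‖ ∂μ := by
      rw [← m1, integral_map measurable_fst.aemeasurable hrm.norm.aestronglyMeasurable]
    rw [h2]
    exact mul_le_mul_of_nonneg_left hL1 hB
  have t5 : ‖∫ y : X × X, r y.1 * conj (r y.2) ∂ν‖ ≤ t ^ 2 := by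
    refine (norm_integral_le_integral_norm _).trans ?_
    have h1 : ∫ y : X × X, ‖r y.1 * conj (r y.2)‖ ∂ν ≤
        ∫ y : X × X, (‖r y.1‖ ^ 2 / 2 + ‖r y.2‖ ^ 2 / 2) ∂ν := by
      refine integral_mono j5.norm (((f1.integrable_comp_of_integrable i2).div_const 2).add
        ((f2.integrable_comp_of_integrable i2).div_const 2)) fun y => ?_
      show ‖r y.1 * conj (r y.2)‖ ≤ ‖r y.1‖ ^ 2 / 2 + ‖r y.2‖ ^ 2 / 2
      rw [norm_mul, Complex.norm_conj]
      nlinarith [sq_nonneg (‖r y.1‖ - ‖r y.2‖)]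
    refine h1.trans ?_
    have k1 : Integrable (fun y : X × X => ‖r y.1‖ ^ 2 / 2) ν :=
      (f1.integrable_comp_of_integrable i2).div_const 2
    have k2 : Integrable (fun y : X × X => ‖r y.2‖ ^ 2 / 2) ν :=
      (f2.integrable_comp_of_integrable i2).div_const 2
    rw [integral_add k1 k2, integral_div, integral_div]
    have h2 : ∫ y : X × X, ‖r y.1‖ ^ 2 ∂ν = ∫ x, ‖r x‖ ^ 2 ∂μ := by
      rw [← m1, integral_map measurable_fst.aemeasurable
        (hrm.norm.pow_const 2).aestronglyMeasurable]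
    have h3 : ∫ y : X × X, ‖r y.2‖ ^ 2 ∂ν = ∫ x, ‖r x‖ ^ 2 ∂μ := by
      rw [← m2, integral_map measurable_snd.aemeasurable
        (hrm.norm.pow_const 2).aestronglyMeasurable]
    rw [h2, h3]
    linarith
  have j8 : Integrable (fun y : X × X => F y.1 * conj (r y.2) + r y.1 * conj (F y.2)) ν := j3.add j4
  have j7 : Integrable (fun y : X × X => F y.1 * conj (r y.2) + r y.1 * conj (F y.2) -
      r y.1 * conj (r y.2)) ν := j8.sub j5
  simp only [hFF]
  rw [integral_add j6 j7, hH, zero_add, integral_sub j8 j5, integral_add j3 j4]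
  refine (norm_sub_le _ _).trans ?_
  have := norm_add_le (∫ y : X × X, F y.1 * conj (r y.2) ∂ν) (∫ y : X × X, r y.1 * conj (F y.2) ∂ν)
  linarith

end

end Pool.Agent.Y868.ZE
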