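import Pool.Agent.Y868.ZE.K12

/-! Project ZE (helper868): level sets along the orbits of systems with discrete spectrum. -/

set_option autoImplicit false

namespace Pool.Agent.Y868.ZE

open Finset Filter Topology MeasureTheory
open scoped ComplexConjugate

theorem large_primes (M : ℕ) :
    ¬ Summable ({p : ℕ | p.Prime ∧ M < p}.indicator fun n : ℕ => 1 / (n : ℝ)) := by
  intro h
  apply not_summable_one_div_on_primes
  have h1 : Summable ((Set.Iic M ∩ {p : ℕ | p.Prime}).indicator fun n : ℕ => 1 / (n : ℝ)) := by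
    refine summable_of_ne_finset_zero (s := Finset.Iic M) fun p hp => ?_
    rw [Set.indicator_of_notMem]
    rintro ⟨h2, _⟩
    exact hp (Finset.mem_Iic.2 h2)
  refine (h.add h1).congr fun n => ?_
  by_cases hn : n.Prime
  · by_cases hM : M < n
    · rw [Set.indicator_of_mem (show n ∈ {p : ℕ | p.Prime ∧ M < p} from ⟨hn, hM⟩),
        Set.indicator_of_notMem (fun h2 => absurd (Set.mem_Iic.1 h2.1) (not_le.2 hM)),
        Set.indicator_of_mem (show n ∈ {p : ℕ | p.Prime} from hn), add_zero]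
    · rw [Set.indicator_of_notMem (fun h2 : n ∈ {p : ℕ | p.Prime ∧ M < p} => hM h2.2),
        Set.indicator_of_mem (show n ∈ Set.Iic M ∩ {p : ℕ | p.Prime} from
          ⟨Set.mem_Iic.2 (not_lt.1 hM), hn⟩),
        Set.indicator_of_mem (show n ∈ {p : ℕ | p.Prime} from hn), zero_add]
  · rw [Set.indicator_of_notMem (fun h2 : n ∈ {p : ℕ | p.Prime ∧ M < p} => hn h2.1),
      Set.indicator_of_notMem (fun h2 : n ∈ Set.Iic M ∩ {p : ℕ | p.Prime} => hn h2.2),
      Set.indicator_of_notMem (fun h2 : n ∈ {p : ℕ | p.Prime} => hn h2), add_zero]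

section

variable {X : Type} [MetricSpace X] [CompactSpace X] [MeasurableSpace X] [BorelSpace X]

open scoped Classical in
/-- level sets along the orbits of totally uniquely ergodic systems with discrete spectrum -/
theorem dyn_ds {T : X → X} (hT : Continuous T) {μ : Measure X} [IsProbabilityMeasure μ]
    (hTm : MeasurePreserving T μ μ)
    (huniq : ∀ k : ℕ, 1 ≤ k → ∀ ν : Measure X, IsProbabilityMeasure ν →
      MeasurePreserving (T^[k]) ν ν → ν = μ)
    (f : C(X, ℂ))
    (hds : ∀ ε : ℝ, 0 < ε → ∃ (m : ℕ) (φ : Fin m → X → ℂ) (z : Fin m → ℂ),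
      (∀ i, Eig T μ (φ i) (z i) ∧ ∀ k : ℕ, 1 ≤ k → z i ^ k ≠ 1) ∧
        ∫ x, ‖(f x - ∫ y, f y ∂μ) - ∑ i, φ i x‖ ^ 2 ∂μ ≤ ε)
    {G₀ : Type} [CommGroupWithZero G₀] {g : ℕ → G₀} (hg : Mul1 g) (c : G₀) (x : X) :
    Tendsto (LA fun n => (if g n = c then (1 : ℂ) else 0) * (f (T^[n] x) - ∫ y, f y ∂μ))
      atTop (𝓝 0) := by
  set I : ℂ := ∫ y, f y ∂μ with hI
  set B : ℝ := max (‖f‖ + ‖I‖) 1 with hB
  have hB1 : 1 ≤ B := le_max_right _ _
  have hB0 : (0 : ℝ) < B := by linarith
  have hBc : (B : ℂ) ≠ 0 := by exact_mod_cast hB0.ne'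
  have hFb : ∀ y, ‖f y - I‖ ≤ B := fun y =>
    ((norm_sub_le _ _).trans (add_le_add (f.norm_coe_le_norm _) le_rfl)).trans (le_max_left _ _)
  refine level_bdd hg (C := B) (fun n => hFb _) (fun u hu1 hu2 => ?_) c
  have h1 : ∀ n, ‖(B : ℂ)⁻¹ * (f (T^[n] x) - I)‖ ≤ 1 := by
    intro n
    rw [norm_mul, norm_inv, Complex.norm_real, Real.norm_of_nonneg hB0.le, inv_mul_le_iff₀ hB0, mul_one]
    exact hFb _
  have h2 := katai' (a := fun n => (B : ℂ)⁻¹ * (f (T^[n] x) - I)) hu1 hu2.2 h1 (fun δ hδ => by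
    -- the approximation
    set t : ℝ := min 1 (δ / (4 * B + 4)) with ht
    have ht0 : 0 < t := lt_min one_pos (by positivity)
    obtain ⟨m, φ, z, hφ, hap⟩ := hds (t ^ 2) (by positivity)
    choose Mf hMf using fun i j => bad_pairs (hφ i).1.norm (hφ j).1.norm (hφ i).2
    set M : ℕ := ∑ i, ∑ j, Mf i j with hM
    have hMle : ∀ i j, Mf i j ≤ M := fun i j =>
      (Finset.single_le_sum (f := fun j => Mf i j) (fun _ _ => Nat.zero_le _) (mem_univ j)).trans
        (Finset.single_le_sum (f := fun i => ∑ j, Mf i j) (fun _ _ => Nat.zero_le _) (mem_univ i))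
    refine ⟨{p : ℕ | p.Prime ∧ M < p}, fun p hp => hp.1, large_primes M, ?_⟩
    rintro p ⟨hp, hpM⟩ q ⟨hq, hqM⟩ hpq
    have hSc : Continuous (Prod.map (T^[p]) (T^[q])) := (hT.iterate p).prodMap (hT.iterate q)
    have hφc : Continuous (fun y : X × X => (f y.1 - I) * conj (f y.2 - I)) := by fun_prop
    have h3 := corr_small (δ := 2 * B * t + t ^ 2) (δ' := δ) hSc (x, x) hφc ?_ (fun ν hν hinv => by
      have hA : Measurable (T^[p]) := (hT.iterate p).measurable
      have hB' : Measurable (T^[q]) := (hT.iterate q).measurable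
      have m1 : ν.map Prod.fst = μ := by
        haveI : IsProbabilityMeasure (ν.map Prod.fst) :=
          Measure.isProbabilityMeasure_map measurable_fst.aemeasurable
        refine huniq p hp.one_lt.le _ inferInstance ⟨hA, ?_⟩
        rw [Measure.map_map hA measurable_fst]
        have e : (T^[p]) ∘ (Prod.fst : X × X → X) = Prod.fst ∘ Prod.map (T^[p]) (T^[q]) := rfl
        rw [e, ← Measure.map_map measurable_fst hinv.measurable, hinv.map_eq]
      have m2 : ν.map Prod.snd = μ := by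
        haveI : IsProbabilityMeasure (ν.map Prod.snd) :=
          Measure.isProbabilityMeasure_map measurable_snd.aemeasurable
        refine huniq q hq.one_lt.le _ inferInstance ⟨hB', ?_⟩
        rw [Measure.map_map hB' measurable_snd]
        have e : (T^[q]) ∘ (Prod.snd : X × X → X) = Prod.snd ∘ Prod.map (T^[p]) (T^[q]) := rfl
        rw [e, ← Measure.map_map measurable_snd hinv.measurable, hinv.map_eq]
      exact join_small (F := fun y => f y - I) hTm (by fun_prop) hFb (fun i => (hφ i).1) ht0 hap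
        (fun i j => hMf i j p q hp hq hpq ((hMle i j).trans_lt hpM)) hinv m1 m2)
    · refine h3.mono fun N hN => ?_
      have e : (fun n => (B : ℂ)⁻¹ * (f (T^[p * n] x) - I) * conj ((B : ℂ)⁻¹ * (f (T^[q * n] x) - I))) =
          fun n => ((B : ℂ)⁻¹ * (B : ℂ)⁻¹) * ((f ((Prod.map (T^[p]) (T^[q]))^[n] (x, x)).1 - I) *
            conj (f ((Prod.map (T^[p]) (T^[q]))^[n] (x, x)).2 - I)) := by
        funext n
        rw [Prod.map_iterate, Prod.map_apply, ← Function.iterate_mul, ← Function.iterate_mul,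
          map_mul, map_inv₀, Complex.conj_ofReal]
        ring
      rw [e, LA_smul, norm_mul]
      have h4 : ‖(B : ℂ)⁻¹ * (B : ℂ)⁻¹‖ ≤ 1 := by
        rw [norm_mul, norm_inv, Complex.norm_real, Real.norm_of_nonneg hB0.le]
        have : B⁻¹ ≤ 1 := inv_le_one_of_one_le₀ hB1
        exact mul_le_one₀ this (by positivity) this
      calc _ ≤ 1 * δ := mul_le_mul h4 hN (norm_nonneg _) zero_le_one
        _ = δ := one_mul _
    · have h5 : t ≤ 1 := min_le_left _ _
      have h6 : t ≤ δ / (4 * B + 4) := min_le_right _ _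
      rw [le_div_iff₀ (by positivity)] at h6
      nlinarith)
  have h3 := h2.const_mul (B : ℂ)
  rw [mul_zero] at h3
  refine h3.congr fun N => ?_
  rw [← LA_smul]
  congr 1
  funext n
  field_simp

end

end Pool.Agent.Y868.ZE
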