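import Pool.Agent.Y868.ZE.K1

/-! Project ZE (helper868): Kátai's orthogonality criterion for logarithmic averages. -/

set_option autoImplicit false

namespace Pool.Agent.Y868.ZE

open Finset Filter Topology
open scoped ComplexConjugate

/-- indicator of divisibility minus the density -/
noncomputable def dv (p n : ℕ) : ℝ := (if p ∣ n then 1 else 0) - 1 / p

theorem LR_lin (A B C : ℕ → ℝ) (a b c : ℝ) (N : ℕ) :
    LR (fun n => A n - a * B n - b * C n + c * 1) N =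
      LR A N - a * LR B N - b * LR C N + c * LR (fun _ => 1) N := by
  unfold LR
  have : ∑ n ∈ Icc 1 N, (1 / (n : ℝ)) * (A n - a * B n - b * C n + c * 1) =
      ∑ n ∈ Icc 1 N, (1 / (n : ℝ)) * A n - a * ∑ n ∈ Icc 1 N, (1 / (n : ℝ)) * B n -
        b * ∑ n ∈ Icc 1 N, (1 / (n : ℝ)) * C n + c * ∑ n ∈ Icc 1 N, (1 / (n : ℝ)) * 1 := by
    simp only [mul_sum, ← sum_sub_distrib, ← sum_add_distrib]
    exact sum_congr rfl fun n _ => by ring
  rw [this]; ring

theorem LR_dv {p q : ℕ} (hp : p.Prime) (hq : q.Prime) :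
    Tendsto (LR fun n => dv p n * dv q n) atTop
      (𝓝 (if p = q then 1 / (p : ℝ) - 1 / (p : ℝ) ^ 2 else 0)) := by
  have hpr : (p : ℝ) ≠ 0 := by exact_mod_cast hp.ne_zero
  have hqr : (q : ℝ) ≠ 0 := by exact_mod_cast hq.ne_zero
  have e : (fun n => dv p n * dv q n) = fun n => (if Nat.lcm p q ∣ n then (1 : ℝ) else 0) -
      (1 / (p : ℝ)) * (if q ∣ n then (1 : ℝ) else 0) - (1 / (q : ℝ)) * (if p ∣ n then (1 : ℝ) else 0) +
        (1 / (p : ℝ) * (1 / q)) * 1 := by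
    funext n
    unfold dv
    by_cases h1 : p ∣ n
    · by_cases h2 : q ∣ n
      · rw [if_pos h1, if_pos h2, if_pos (Nat.lcm_dvd h1 h2)]; ring
      · rw [if_pos h1, if_neg h2, if_neg (fun h => h2 ((Nat.dvd_lcm_right p q).trans h))]; ring
    · by_cases h2 : q ∣ n
      · rw [if_neg h1, if_pos h2, if_neg (fun h => h1 ((Nat.dvd_lcm_left p q).trans h))]; ring
      · rw [if_neg h1, if_neg h2, if_neg (fun h => h1 ((Nat.dvd_lcm_left p q).trans h))]; ring
  rw [e]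
  have h0 : 0 < Nat.lcm p q := Nat.lcm_pos hp.pos hq.pos
  have h1 := (((LR_dvd h0).sub ((LR_dvd hq.pos).const_mul (1 / (p : ℝ)))).sub
    ((LR_dvd hp.pos).const_mul (1 / (q : ℝ)))).add (LR_one.const_mul (1 / (p : ℝ) * (1 / q)))
  have h2 : 1 / ((Nat.lcm p q : ℕ) : ℝ) - 1 / (p : ℝ) * (1 / q) - 1 / (q : ℝ) * (1 / p) +
      1 / (p : ℝ) * (1 / q) * 1 = if p = q then 1 / (p : ℝ) - 1 / (p : ℝ) ^ 2 else 0 := by
    split_ifs with h
    · subst h
      rw [Nat.lcm_self]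
      field_simp
      ring
    · have hc : Nat.Coprime p q := (Nat.coprime_primes hp hq).2 h
      rw [hc.lcm_eq_mul]
      push_cast
      field_simp
      ring
  rw [h2] at h1
  refine h1.congr fun N => ?_
  exact (LR_lin _ _ _ _ _ _ N).symm

theorem sq_sum_le (F : Finset ℕ) (hF : ∀ p ∈ F, p.Prime) : ∑ p ∈ F, 1 / (p : ℝ) ^ 2 ≤ 1 := by
  have h1 : F ⊆ Ioc 1 (F.sup id + 1) := by
    intro p hp
    rw [mem_Ioc]
    have := (hF p hp).one_lt
    have h2 : p ≤ F.sup id := Finset.le_sup (f := id) hp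
    exact ⟨this, by omega⟩
  have h2 := sum_Ioc_inv_sq_le_sub (α := ℝ) (k := 1) (n := F.sup id + 1) one_ne_zero (by omega)
  have h3 : ∑ p ∈ F, 1 / (p : ℝ) ^ 2 ≤ ∑ p ∈ Ioc 1 (F.sup id + 1), ((p : ℝ) ^ 2)⁻¹ := by
    simp only [one_div]
    exact sum_le_sum_of_subset_of_nonneg h1 fun i _ _ => by positivity
  have h4 : (0 : ℝ) ≤ (((F.sup id + 1 : ℕ) : ℝ))⁻¹ := by positivity
  simp only [Nat.cast_one, inv_one] at h2
  linarith

theorem LR_om (F : Finset ℕ) (hF : ∀ p ∈ F, p.Prime) :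
    Tendsto (LR fun n => (∑ p ∈ F, dv p n) ^ 2) atTop
      (𝓝 (∑ p ∈ F, (1 / (p : ℝ) - 1 / (p : ℝ) ^ 2))) := by
  have e : (fun n => (∑ p ∈ F, dv p n) ^ 2) = fun n => ∑ p ∈ F, ∑ q ∈ F, dv p n * dv q n := by
    funext n
    rw [sq, sum_mul_sum]
  rw [e]
  have h1 : Tendsto (fun N => ∑ p ∈ F, ∑ q ∈ F, LR (fun n => dv p n * dv q n) N) atTop
      (𝓝 (∑ p ∈ F, ∑ q ∈ F, if p = q then 1 / (p : ℝ) - 1 / (p : ℝ) ^ 2 else 0)) :=
    tendsto_finsetSum _ fun p hp => tendsto_finsetSum _ fun q hq => LR_dv (hF p hp) (hF q hq)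
  have h2 : ∑ p ∈ F, ∑ q ∈ F, (if p = q then 1 / (p : ℝ) - 1 / (p : ℝ) ^ 2 else 0) =
      ∑ p ∈ F, (1 / (p : ℝ) - 1 / (p : ℝ) ^ 2) := by
    refine sum_congr rfl fun p hp => ?_
    rw [sum_ite_eq, if_pos hp]
  rw [h2] at h1
  refine h1.congr fun N => ?_
  rw [LR_sum]
  refine sum_congr rfl fun p _ => ?_
  rw [LR_sum]

/-- the finite form of Kátai's inequality -/
theorem katai_step {u a : ℕ → ℂ} (hu1 : ∀ n, ‖u n‖ ≤ 1)
    (hu : ∀ m n : ℕ, 0 < m → 0 < n → Nat.Coprime m n → u (m * n) = u m * u n)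
    (ha : ∀ n, ‖a n‖ ≤ 1) (F : Finset ℕ) (hF : ∀ p ∈ F, p.Prime)
    (hc : ∀ p ∈ F, ∀ q ∈ F, p ≠ q →
      Tendsto (LA fun n => a (p * n) * conj (a (q * n))) atTop (𝓝 0)) :
    ∀ᶠ N in atTop, (∑ p ∈ F, 1 / (p : ℝ)) * ‖LA (fun n => u n * a n) N‖ ≤
      √(∑ p ∈ F, 1 / (p : ℝ)) + 4 := by
  set lam : ℝ := ∑ p ∈ F, 1 / (p : ℝ) with hlam
  have hlam0 : 0 ≤ lam := sum_nonneg fun p _ => by positivity
  have hua : ∀ n, ‖u n * a n‖ ≤ 1 := fun n => by
    rw [norm_mul]
    exact mul_le_one₀ (hu1 n) (norm_nonneg _) (ha n)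
  set S : ℕ → ℂ := LA (fun n => u n * a n) with hS
  set E : ℕ → ℕ → ℝ := fun p N => ‖LA (fun n => if p ∣ n then u n * a n else 0) N -
    (1 / (p : ℂ)) * LA (fun n => u (p * n) * a (p * n)) N‖ with hE
  set D : ℕ → ℕ → ℝ := fun p N => (2 / (p : ℝ)) * LR (fun n => if p ∣ n then 1 else 0) N with hD
  set K : ℕ → ℕ → ℕ → ℝ := fun p q N => (1 / (p : ℝ)) * (1 / (q : ℝ)) *
    (if p = q then LR (fun _ => 1) N else ‖LA (fun n => a (p * n) * conj (a (q * n))) N‖) with hK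
  set G : ℕ → ℂ := fun n => ∑ p ∈ F, (u p / p) * a (p * n) with hG
  -- the first identity
  have e1 : ∀ N, (lam : ℂ) * S N = ∑ p ∈ F, LA (fun n => if p ∣ n then u n * a n else 0) N -
      LA (fun n => u n * a n * ((∑ p ∈ F, dv p n : ℝ) : ℂ)) N := by
    intro N
    rw [← LA_sum, ← LA_sub, hS, ← LA_smul]
    congr 1
    funext n
    have : ((∑ p ∈ F, dv p n : ℝ) : ℂ) = ∑ p ∈ F, (if p ∣ n then (1 : ℂ) else 0) - (lam : ℂ) := by
      rw [hlam]
      unfold dv
      rw [sum_sub_distrib]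
      push_cast
      congr 1
      exact sum_congr rfl fun p _ => by split_ifs <;> simp
    rw [this, mul_sub, mul_sum]
    have h2 : ∀ p ∈ F, (u n * a n * if p ∣ n then (1 : ℂ) else 0) =
        if p ∣ n then u n * a n else 0 := fun p _ => by split_ifs <;> simp
    rw [sum_congr rfl h2]
    ring
  -- second
  have e2 : ∀ N, ‖LA (fun n => u n * a n * ((∑ p ∈ F, dv p n : ℝ) : ℂ)) N‖ ≤
      √(LR (fun _ => 1) N * LR (fun n => (∑ p ∈ F, dv p n) ^ 2) N) := by
    intro N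
    refine (norm_LA_le _ _).trans ?_
    have h1 : LR (fun n => ‖u n * a n * ((∑ p ∈ F, dv p n : ℝ) : ℂ)‖) N ≤
        LR (fun n => |∑ p ∈ F, dv p n|) N := by
      refine LR_mono (fun n => ?_) N
      rw [norm_mul, Complex.norm_real, Real.norm_eq_abs]
      exact mul_le_of_le_one_left (abs_nonneg _) (hua n)
    refine h1.trans (Real.le_sqrt_of_sq_le ?_)
    have h2 := LR_sq (b := fun n => |∑ p ∈ F, dv p n|) N
    simpa only [sq_abs] using h2
  -- third
  have e3 : ∀ N, ∀ p ∈ F, ‖(1 / (p : ℂ)) * LA (fun n => u (p * n) * a (p * n)) N -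
      (1 / (p : ℂ)) * LA (fun n => u p * u n * a (p * n)) N‖ ≤ D p N := by
    intro N p hp
    have hpp := hF p hp
    have hpr : (0 : ℝ) < p := by exact_mod_cast hpp.pos
    rw [← mul_sub, ← LA_sub, norm_mul]
    have h6 : ‖(1 : ℂ) / (p : ℂ)‖ = 1 / p := by
      rw [norm_div, norm_one, Complex.norm_natCast]
    rw [h6, hD]
    have h7 : ‖LA (fun n => u (p * n) * a (p * n) - u p * u n * a (p * n)) N‖ ≤
        2 * LR (fun n => if p ∣ n then 1 else 0) N := by
      refine (norm_LA_le _ _).trans ?_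
      rw [← LR_smul]
      refine LR_mono (fun n => ?_) N
      rw [← sub_mul, norm_mul]
      by_cases hpn : p ∣ n
      · rw [if_pos hpn, mul_one]
        have h8 : ‖u (p * n) - u p * u n‖ ≤ 2 := by
          refine (norm_sub_le _ _).trans ?_
          have h9 := hu1 (p * n)
          have h10 : ‖u p * u n‖ ≤ 1 := by
            rw [norm_mul]
            exact mul_le_one₀ (hu1 p) (norm_nonneg _) (hu1 n)
          linarith
        calc ‖u (p * n) - u p * u n‖ * ‖a (p * n)‖ ≤ 2 * 1 :=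
              mul_le_mul h8 (ha _) (norm_nonneg _) (by norm_num)
          _ = 2 := by norm_num
      · have hn0 : 0 < n := by
          rcases Nat.eq_zero_or_pos n with h | h
          · subst h; exact absurd (dvd_zero p) hpn
          · exact h
        have hcop : Nat.Coprime p n := (Nat.Prime.coprime_iff_not_dvd hpp).2 hpn
        rw [hu p n hpp.pos hn0 hcop, sub_self, norm_zero, zero_mul, if_neg hpn, mul_zero]
    calc 1 / (p : ℝ) * ‖LA (fun n => u (p * n) * a (p * n) - u p * u n * a (p * n)) N‖ ≤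
          1 / p * (2 * LR (fun n => if p ∣ n then 1 else 0) N) :=
        mul_le_mul_of_nonneg_left h7 (by positivity)
      _ = _ := by ring
  -- fourth
  have e4 : ∀ N, ∑ p ∈ F, (1 / (p : ℂ)) * LA (fun n => u p * u n * a (p * n)) N =
      LA (fun n => u n * G n) N := by
    intro N
    have h1 : (fun n => u n * G n) = fun n => ∑ p ∈ F, (1 / (p : ℂ)) * (u p * u n * a (p * n)) := by
      funext n
      rw [hG]
      simp only
      rw [mul_sum]
      exact sum_congr rfl fun p _ => by ring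
    rw [h1, LA_sum]
    exact sum_congr rfl fun p _ => (LA_smul _ _ _).symm
  -- fifth
  have e5 : ∀ N, LR (fun n => ‖G n‖ ^ 2) N ≤ ∑ p ∈ F, ∑ q ∈ F, K p q N := by
    intro N
    have h1 : LA (fun n => (((‖G n‖ ^ 2 : ℝ)) : ℂ)) N = ∑ p ∈ F, ∑ q ∈ F,
        ((u p / p) * conj (u q / q)) * LA (fun n => a (p * n) * conj (a (q * n))) N := by
      have h2 : (fun n => (((‖G n‖ ^ 2 : ℝ)) : ℂ)) = fun n => ∑ p ∈ F, ∑ q ∈ F,
          ((u p / p) * conj (u q / q)) * (a (p * n) * conj (a (q * n))) := by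
        funext n
        push_cast
        rw [← Complex.mul_conj', hG]
        simp only [map_sum, map_mul]
        rw [sum_mul_sum]
        exact sum_congr rfl fun p _ => sum_congr rfl fun q _ => by ring
      rw [h2, LA_sum]
      refine sum_congr rfl fun p _ => ?_
      rw [LA_sum]
      exact sum_congr rfl fun q _ => LA_smul _ _ _
    rw [LA_ofReal] at h1
    have h3 : 0 ≤ LR (fun n => ‖G n‖ ^ 2) N := LR_nonneg (fun n => by positivity) N
    have h4 : LR (fun n => ‖G n‖ ^ 2) N = ‖((LR (fun n => ‖G n‖ ^ 2) N : ℝ) : ℂ)‖ := by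
      rw [Complex.norm_real, Real.norm_of_nonneg h3]
    rw [h4, h1]
    refine (norm_sum_le _ _).trans (sum_le_sum fun p hp => ?_)
    refine (norm_sum_le _ _).trans (sum_le_sum fun q hq => ?_)
    have h5 : ∀ r ∈ F, ‖u r / r‖ ≤ 1 / r := by
      intro r _
      rw [norm_div, Complex.norm_natCast]
      exact div_le_div_of_nonneg_right (hu1 r) (Nat.cast_nonneg _)
    rw [norm_mul, norm_mul, Complex.norm_conj, hK]
    refine mul_le_mul (mul_le_mul (h5 p hp) (h5 q hq) (norm_nonneg _) (by positivity)) ?_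
      (norm_nonneg _) (by positivity)
    split_ifs with hpq
    · subst hpq
      have := norm_LA_le' (b := fun n => a (p * n) * conj (a (p * n))) (C := 1) (fun n => by
        rw [norm_mul, Complex.norm_conj]
        exact mul_le_one₀ (ha _) (norm_nonneg _) (ha _)) N
      rwa [one_mul] at this
    · exact le_rfl
  have e6 : ∀ N, ‖LA (fun n => u n * G n) N‖ ≤
      √(LR (fun _ => 1) N * ∑ p ∈ F, ∑ q ∈ F, K p q N) := by
    intro N
    refine (norm_LA_le _ _).trans ?_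
    have h1 : LR (fun n => ‖u n * G n‖) N ≤ LR (fun n => ‖G n‖) N := by
      refine LR_mono (fun n => ?_) N
      rw [norm_mul]
      exact mul_le_of_le_one_left (norm_nonneg _) (hu1 n)
    refine h1.trans (Real.le_sqrt_of_sq_le ?_)
    refine (LR_sq (b := fun n => ‖G n‖) N).trans ?_
    exact mul_le_mul_of_nonneg_left (e5 N) (LR_nonneg (fun _ => zero_le_one) N)
  -- assembling
  have e7 : ∀ N, lam * ‖S N‖ ≤ √(LR (fun _ => 1) N * LR (fun n => (∑ p ∈ F, dv p n) ^ 2) N) +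
      ∑ p ∈ F, E p N + ∑ p ∈ F, D p N + √(LR (fun _ => 1) N * ∑ p ∈ F, ∑ q ∈ F, K p q N) := by
    intro N
    have h1 : lam * ‖S N‖ = ‖(lam : ℂ) * S N‖ := by
      rw [norm_mul, Complex.norm_real, Real.norm_of_nonneg hlam0]
    rw [h1]
    have h2 : (lam : ℂ) * S N =
        -LA (fun n => u n * a n * ((∑ p ∈ F, dv p n : ℝ) : ℂ)) N +
        ∑ p ∈ F, (LA (fun n => if p ∣ n then u n * a n else 0) N -
          (1 / (p : ℂ)) * LA (fun n => u (p * n) * a (p * n)) N) +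
        ∑ p ∈ F, ((1 / (p : ℂ)) * LA (fun n => u (p * n) * a (p * n)) N -
          (1 / (p : ℂ)) * LA (fun n => u p * u n * a (p * n)) N) +
        LA (fun n => u n * G n) N := by
      rw [e1 N, ← e4 N, sum_sub_distrib, sum_sub_distrib]
      ring
    rw [h2]
    refine (norm_add_le _ _).trans (add_le_add ?_ (e6 N))
    refine (norm_add_le _ _).trans (add_le_add ?_ ?_)
    · refine (norm_add_le _ _).trans (add_le_add ?_ ?_)
      · rw [norm_neg]; exact e2 N
      · exact norm_sum_le _ _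
    · exact (norm_sum_le _ _).trans (sum_le_sum fun p hp => e3 N p hp)
  -- limits
  have l1 : Tendsto (fun N => √(LR (fun _ => 1) N * LR (fun n => (∑ p ∈ F, dv p n) ^ 2) N)) atTop
      (𝓝 √(1 * ∑ p ∈ F, (1 / (p : ℝ) - 1 / (p : ℝ) ^ 2))) :=
    (Real.continuous_sqrt.tendsto _).comp (LR_one.mul (LR_om F hF))
  have l2 : Tendsto (fun N => ∑ p ∈ F, E p N) atTop (𝓝 (∑ p ∈ F, (0 : ℝ))) :=
    tendsto_finsetSum _ fun p hp => by
      have := (LA_dil (b := fun n => u n * a n) hua (hF p hp).pos).norm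
      rwa [norm_zero] at this
  have l3 : Tendsto (fun N => ∑ p ∈ F, D p N) atTop (𝓝 (∑ p ∈ F, (2 / (p : ℝ)) * (1 / p))) :=
    tendsto_finsetSum _ fun p hp => (LR_dvd (hF p hp).pos).const_mul _
  have l4 : Tendsto (fun N => √(LR (fun _ => 1) N * ∑ p ∈ F, ∑ q ∈ F, K p q N)) atTop
      (𝓝 √(1 * ∑ p ∈ F, ∑ q ∈ F, (1 / (p : ℝ)) * (1 / (q : ℝ)) * (if p = q then 1 else 0))) := by
    refine (Real.continuous_sqrt.tendsto _).comp (LR_one.mul ?_)
    refine tendsto_finsetSum _ fun p hp => tendsto_finsetSum _ fun q hq => ?_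
    rw [hK]
    by_cases hpq : p = q
    · simp only [if_pos hpq]
      exact LR_one.const_mul _
    · simp only [if_neg hpq]
      have := (hc p hp q hq hpq).norm
      rw [norm_zero] at this
      exact this.const_mul _
  have l5 := ((l1.add l2).add l3).add l4
  have hsq := sq_sum_le F hF
  have b1 : √(1 * ∑ p ∈ F, (1 / (p : ℝ) - 1 / (p : ℝ) ^ 2)) ≤ √lam := by
    apply Real.sqrt_le_sqrt
    rw [one_mul, sum_sub_distrib]
    have : 0 ≤ ∑ p ∈ F, 1 / (p : ℝ) ^ 2 := sum_nonneg fun p _ => by positivity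
    linarith
  have b3 : ∑ p ∈ F, (2 / (p : ℝ)) * (1 / p) ≤ 2 := by
    have : ∑ p ∈ F, (2 / (p : ℝ)) * (1 / p) = 2 * ∑ p ∈ F, 1 / (p : ℝ) ^ 2 := by
      rw [mul_sum]
      exact sum_congr rfl fun p _ => by rw [div_mul_div_comm, mul_one, ← sq, mul_one_div]
    rw [this]; linarith
  have b4 : √(1 * ∑ p ∈ F, ∑ q ∈ F, (1 / (p : ℝ)) * (1 / (q : ℝ)) * (if p = q then 1 else 0)) ≤ 1 := by
    rw [Real.sqrt_le_iff]
    refine ⟨zero_le_one, ?_⟩
    rw [one_mul, one_pow]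
    refine le_trans (le_of_eq ?_) hsq
    refine sum_congr rfl fun p hp => ?_
    simp only [mul_ite, mul_one, mul_zero]
    rw [sum_ite_eq, if_pos hp, div_mul_div_comm, mul_one, ← sq]
  have hlt : √(1 * ∑ p ∈ F, (1 / (p : ℝ) - 1 / (p : ℝ) ^ 2)) + ∑ p ∈ F, (0 : ℝ) +
      ∑ p ∈ F, (2 / (p : ℝ)) * (1 / p) +
      √(1 * ∑ p ∈ F, ∑ q ∈ F, (1 / (p : ℝ)) * (1 / (q : ℝ)) * (if p = q then 1 else 0)) <
      √lam + 4 := by
    rw [sum_const_zero]
    linarith
  filter_upwards [l5.eventually_lt_const hlt] with N hN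
  exact (e7 N).trans hN.le

/-- **Kátai's criterion** for logarithmic averages. -/
theorem katai {u a : ℕ → ℂ} (hu1 : ∀ n, ‖u n‖ ≤ 1)
    (hu : ∀ m n : ℕ, 0 < m → 0 < n → Nat.Coprime m n → u (m * n) = u m * u n)
    (ha : ∀ n, ‖a n‖ ≤ 1) {P : Set ℕ} (hP : ∀ p ∈ P, p.Prime)
    (hdiv : ¬ Summable (P.indicator fun n : ℕ => 1 / (n : ℝ)))
    (hc : ∀ p ∈ P, ∀ q ∈ P, p ≠ q →
      Tendsto (LA fun n => a (p * n) * conj (a (q * n))) atTop (𝓝 0)) :
    Tendsto (LA fun n => u n * a n) atTop (𝓝 0) := by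
  classical
  rw [Metric.tendsto_atTop']
  intro ε hε
  have h1 := (not_summable_iff_tendsto_nat_atTop_of_nonneg (f := P.indicator fun n : ℕ => 1 / (n : ℝ))
    (fun n => Set.indicator_nonneg (fun _ _ => by positivity) _)).1 hdiv
  obtain ⟨M, hM⟩ := (h1.eventually_ge_atTop (max 1 ((6 / ε) ^ 2))).exists
  set F : Finset ℕ := (range M).filter (fun p => p ∈ P) with hF
  have h2 : ∑ i ∈ range M, P.indicator (fun n : ℕ => 1 / (n : ℝ)) i = ∑ p ∈ F, 1 / (p : ℝ) := by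
    rw [hF, sum_filter]
    exact sum_congr rfl fun i _ => by rw [Set.indicator_apply]
  rw [h2] at hM
  set lam := ∑ p ∈ F, 1 / (p : ℝ) with hlam
  have hl1 : 1 ≤ lam := (le_max_left _ _).trans hM
  have hl2 : (6 / ε) ^ 2 ≤ lam := (le_max_right _ _).trans hM
  have h3 := katai_step hu1 hu ha F (fun p hp => hP p (mem_filter.1 hp).2)
    (fun p hp q hq hpq => hc p (mem_filter.1 hp).2 q (mem_filter.1 hq).2 hpq)
  rw [← hlam] at h3
  obtain ⟨N₀, hN₀⟩ := eventually_atTop.1 h3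
  refine ⟨N₀, fun N hN => ?_⟩
  rw [dist_zero_right]
  have h4 := hN₀ N hN.le
  have hs1 : 1 ≤ √lam := Real.one_le_sqrt.2 hl1
  have hs2 : 6 / ε ≤ √lam := Real.le_sqrt_of_sq_le hl2
  have hs3 : √lam * √lam = lam := Real.mul_self_sqrt (by linarith)
  have h5 : √lam * (√lam * ‖LA (fun n => u n * a n) N‖) ≤ √lam * 5 := by
    rw [← mul_assoc, hs3]
    linarith
  have h6 : √lam * ‖LA (fun n => u n * a n) N‖ ≤ 5 := le_of_mul_le_mul_left h5 (by linarith)
  have h7 : 6 / ε * ‖LA (fun n => u n * a n) N‖ ≤ 5 :=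
    (mul_le_mul_of_nonneg_right hs2 (norm_nonneg _)).trans h6
  rw [div_mul_eq_mul_div, div_le_iff₀ hε] at h7
  linarith

end Pool.Agent.Y868.ZE
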