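import Pool.Agent.Y868.ZE.K2
import Pool.Agent.Y868.VR.A2

/-! Project ZE (helper868): from bounded multiplicative functions to level sets. -/

set_option autoImplicit false

namespace Pool.Agent.Y868.ZE

open Finset Filter Topology MeasureTheory
open Pool.Agent.Y868.VR

/-- multiplicativity on the positive integers -/
def Mul1 {M : Type} [MulOneClass M] (g : ℕ → M) : Prop :=
  g 1 = 1 ∧ ∀ m n : ℕ, 0 < m → 0 < n → Nat.Coprime m n → g (m * n) = g m * g n

open scoped Classical in
theorem level {G₀ : Type} [CommGroupWithZero G₀] {g : ℕ → G₀} (hg : Mul1 g)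
    {a : ℕ → ℂ} (ha : ∀ n, ‖a n‖ ≤ 1)
    (h : ∀ u : ℕ → ℂ, (∀ n, ‖u n‖ ≤ 1) → Mul1 u → Tendsto (LA fun n => u n * a n) atTop (𝓝 0))
    (c : G₀) : Tendsto (LA fun n => (if g n = c then (1 : ℂ) else 0) * a n) atTop (𝓝 0) := by
  obtain ⟨hg1, hgm⟩ := hg
  by_cases hc : c = 0
  · subst hc
    have h1 := h (fun _ => 1) (by simp) ⟨rfl, fun _ _ _ _ _ => by simp⟩
    have h2 := h (fun n => if g n = 0 then 0 else 1) (fun n => by split_ifs <;> simp)
      ⟨by simp [hg1], fun m n hm hn hmn => by
        beta_reduce
        rw [hgm m n hm hn hmn]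
        by_cases h3 : g m = 0
        · simp [h3]
        · by_cases h4 : g n = 0
          · simp [h4]
          · simp [h3, h4]⟩
    have h3 := h1.sub h2
    rw [sub_zero] at h3
    refine h3.congr fun N => ?_
    rw [← LA_sub]
    congr 1
    funext n
    split_ifs <;> simp
  letI : TopologicalSpace G₀ˣ := ⊥
  haveI : DiscreteTopology G₀ˣ := ⟨rfl⟩
  letI : MeasurableSpace (PontryaginDual G₀ˣ) := borel _
  haveI : BorelSpace (PontryaginDual G₀ˣ) := ⟨rfl⟩
  let K₀ : TopologicalSpace.PositiveCompacts (PontryaginDual G₀ˣ) := ⊤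
  set μ := Measure.haarMeasure K₀ with hμ
  haveI : IsProbabilityMeasure μ := by
    constructor
    have := Measure.haarMeasure_self (K₀ := K₀)
    exact this
  set F : ℕ → G₀ˣ := fun n => if h : g n = 0 then 1 else Units.mk0 (g n) h with hF
  set U : PontryaginDual G₀ˣ → ℕ → ℂ := fun χ n => if g n = 0 then 0 else ev (F n) χ with hU
  have hU1 : ∀ χ n, ‖U χ n‖ ≤ 1 := by
    intro χ n
    rw [hU]
    simp only
    split_ifs
    · simp
    · exact (ev_norm _ _).le
  have hU2 : ∀ χ, Mul1 (U χ) := by
    intro χ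
    refine ⟨?_, ?_⟩
    · rw [hU]
      simp only
      have h1 : g 1 ≠ 0 := by rw [hg1]; exact one_ne_zero
      have h2 : F 1 = 1 := by
        rw [hF]
        simp only
        rw [dif_neg h1]
        ext
        simp [hg1]
      rw [if_neg h1, h2, ev_one]
    · intro m n hm hn hmn
      rw [hU]
      simp only
      by_cases h3 : g m = 0
      · rw [if_pos h3, if_pos (by rw [hgm m n hm hn hmn, h3, zero_mul]), zero_mul]
      · by_cases h4 : g n = 0
        · rw [if_pos h4, if_pos (by rw [hgm m n hm hn hmn, h4, mul_zero]), mul_zero]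
        · have h5 : g (m * n) ≠ 0 := by
            rw [hgm m n hm hn hmn]; exact mul_ne_zero h3 h4
          rw [if_neg h3, if_neg h4, if_neg h5]
          have h6 : F (m * n) = F m * F n := by
            rw [hF]
            simp only
            rw [dif_neg h3, dif_neg h4, dif_neg h5]
            ext
            simp [hgm m n hm hn hmn]
          rw [h6, ev_mul]
  set C : G₀ˣ := Units.mk0 c hc with hC
  have hUc : ∀ n, Continuous fun χ => U χ n := by
    intro n
    rw [hU]
    simp only
    by_cases h3 : g n = 0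
    · simp only [if_pos h3]; exact continuous_const
    · simp only [if_neg h3]; exact ev_cont _
  have hint : ∀ n, ∫ χ, ev C⁻¹ χ * U χ n ∂μ = if g n = c then 1 else 0 := by
    intro n
    by_cases h3 : g n = 0
    · have h4 : g n ≠ c := fun h => hc (h ▸ h3)
      rw [if_neg h4]
      simp only [hU, if_pos h3, mul_zero, integral_zero]
    · have h4 : ∀ χ, ev C⁻¹ χ * U χ n = ev (C⁻¹ * F n) χ := by
        intro χ
        rw [hU]
        simp only
        rw [if_neg h3, ev_mul]
      simp only [h4]
      rw [int_ev]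
      have h5 : C⁻¹ * F n = 1 ↔ g n = c := by
        rw [inv_mul_eq_one, eq_comm, hF, hC]
        simp only
        rw [dif_neg h3, Units.ext_iff]
        rfl
      simp only [h5]
  obtain ⟨B, hB⟩ := LR_one.bddAbove_range
  have hB' : ∀ N, LR (fun _ => 1) N ≤ B := fun N => hB ⟨N, rfl⟩
  have h1 : Tendsto (fun N : ℕ => ∫ χ, ev C⁻¹ χ * LA (fun n => U χ n * a n) N ∂μ) atTop
      (𝓝 (∫ χ, (0 : ℂ) ∂μ)) := by
    refine tendsto_integral_of_dominated_convergence (fun _ => B) ?_ (integrable_const _) ?_ ?_
    · intro N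
      refine Continuous.aestronglyMeasurable ?_
      refine (ev_cont _).mul ?_
      unfold LA
      refine continuous_const.mul (continuous_finsetSum _ fun n _ => ?_)
      exact continuous_const.mul ((hUc n).mul continuous_const)
    · intro N
      refine Eventually.of_forall fun χ => ?_
      rw [norm_mul, ev_norm, one_mul]
      refine (norm_LA_le' (C := 1) (fun n => ?_) N).trans ?_
      · rw [norm_mul]
        exact mul_le_one₀ (hU1 χ n) (norm_nonneg _) (ha n)
      · rw [one_mul]; exact hB' N
    · refine Eventually.of_forall fun χ => ?_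
      have h2 := (h (U χ) (hU1 χ) (hU2 χ)).const_mul (ev C⁻¹ χ)
      rwa [mul_zero] at h2
  rw [integral_zero] at h1
  refine h1.congr fun N => ?_
  have h2 : ∀ χ, ev C⁻¹ χ * LA (fun n => U χ n * a n) N =
      ((1 : ℂ) / ((Real.log (N : ℝ) : ℝ) : ℂ)) *
        ∑ n ∈ Icc 1 N, ((1 : ℂ) / (n : ℂ) * a n) * (ev C⁻¹ χ * U χ n) := by
    intro χ
    unfold LA
    rw [mul_left_comm, mul_sum]
    congr 1
    exact sum_congr rfl fun n _ => by ring
  simp only [h2]
  rw [integral_const_mul, integral_finsetSum]
  · unfold LA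
    congr 1
    refine sum_congr rfl fun n _ => ?_
    rw [integral_const_mul, hint n]
    ring
  · intro n _
    refine Integrable.const_mul ?_ _
    exact int_of_cont μ ((ev_cont _).mul (hUc n)) (C := 1) fun χ => by
      rw [norm_mul, ev_norm, one_mul]; exact hU1 χ n

end Pool.Agent.Y868.ZE
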