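import Pool.Agent.Y868.ZE.K3

/-! Project ZE (helper868): logarithmic empirical measures and invariant measures. -/

set_option autoImplicit false

namespace Pool.Agent.Y868.ZE

open Finset Filter Topology MeasureTheory
open scoped BoundedContinuousFunction

/-- logarithmic averages are almost shift invariant -/
theorem shift_bound {b : ℕ → ℝ} {C : ℝ} (hb : ∀ n, |b n| ≤ C) (N : ℕ) (hN : 1 ≤ N) :
    |∑ n ∈ Icc 1 N, (1 / (n : ℝ)) * (b (n + 1) - b n) - b (N + 1) / N| ≤ C * (2 - 1 / N) := by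
  have hC : 0 ≤ C := (abs_nonneg _).trans (hb 0)
  induction N, hN using Nat.le_induction with
  | base =>
    simp
    have := hb 1
    linarith
  | succ N hN ih =>
    have hNr : (0 : ℝ) < N := by exact_mod_cast hN
    rw [sum_Icc_succ_top (by omega)]
    have e : ∑ n ∈ Icc 1 N, (1 / (n : ℝ)) * (b (n + 1) - b n) +
        1 / ((N + 1 : ℕ) : ℝ) * (b (N + 1 + 1) - b (N + 1)) - b (N + 1 + 1) / ((N + 1 : ℕ) : ℝ) =
        (∑ n ∈ Icc 1 N, (1 / (n : ℝ)) * (b (n + 1) - b n) - b (N + 1) / N) +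
          b (N + 1) * (1 / N - 1 / ((N + 1 : ℕ) : ℝ)) := by
      push_cast
      field_simp
      ring
    rw [e]
    refine (abs_add_le _ _).trans ?_
    have h1 : 0 ≤ 1 / (N : ℝ) - 1 / ((N + 1 : ℕ) : ℝ) := by
      rw [sub_nonneg]
      apply one_div_le_one_div_of_le hNr
      push_cast; linarith
    have h2 : |b (N + 1) * (1 / N - 1 / ((N + 1 : ℕ) : ℝ))| ≤ C * (1 / N - 1 / ((N + 1 : ℕ) : ℝ)) := by
      rw [abs_mul, abs_of_nonneg h1]
      exact mul_le_mul_of_nonneg_right (hb _) h1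
    calc _ ≤ C * (2 - 1 / N) + C * (1 / N - 1 / ((N + 1 : ℕ) : ℝ)) := add_le_add ih h2
      _ = _ := by ring

theorem LR_shift {b : ℕ → ℝ} {C : ℝ} (hb : ∀ n, |b n| ≤ C) :
    Tendsto (fun N => LR (fun n => b (n + 1)) N - LR b N) atTop (𝓝 0) := by
  have hC : 0 ≤ C := (abs_nonneg _).trans (hb 0)
  have h1 : Tendsto (fun N : ℕ => (3 * C) * (1 / Real.log (N : ℝ))) atTop (𝓝 0) := by
    have := (tendsto_const_nhds (x := 3 * C)).mul (tendsto_inv_atTop_zero.comp log_top)
    simpa [Function.comp_def] using this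
  refine squeeze_zero_norm' ?_ h1
  filter_upwards [eventually_ge_atTop 1] with N hN
  have e : LR (fun n => b (n + 1)) N - LR b N =
      (1 / Real.log (N : ℝ)) * ∑ n ∈ Icc 1 N, (1 / (n : ℝ)) * (b (n + 1) - b n) := by
    unfold LR
    rw [← mul_sub, ← sum_sub_distrib]
    congr 1
    exact sum_congr rfl fun n _ => by ring
  rw [e, norm_mul, Real.norm_of_nonneg (inv_log_nonneg N), mul_comm (3 * C)]
  refine mul_le_mul_of_nonneg_left ?_ (inv_log_nonneg N)
  have h2 := shift_bound hb N hN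
  have hNr : (1 : ℝ) ≤ N := by exact_mod_cast hN
  have h3 : |b (N + 1) / N| ≤ C := by
    rw [abs_div, Nat.abs_cast]
    exact (div_le_self (abs_nonneg _) hNr).trans (hb _)
  have h4 : C * (2 - 1 / (N : ℝ)) ≤ 2 * C := by
    have : 0 ≤ C * (1 / (N : ℝ)) := by positivity
    linarith
  rw [Real.norm_eq_abs]
  have h5 : |∑ n ∈ Icc 1 N, (1 / (n : ℝ)) * (b (n + 1) - b n)| ≤
      |∑ n ∈ Icc 1 N, (1 / (n : ℝ)) * (b (n + 1) - b n) - b (N + 1) / N| + |b (N + 1) / N| := by
    have := abs_add_le (∑ n ∈ Icc 1 N, (1 / (n : ℝ)) * (b (n + 1) - b n) - b (N + 1) / N) (b (N + 1) / N)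
    rwa [sub_add_cancel] at this
  linarith

section

variable {Y : Type} [MetricSpace Y] [CompactSpace Y] [MeasurableSpace Y] [BorelSpace Y]

/-- harmonic numbers -/
noncomputable def HN (N : ℕ) : ℝ := ∑ m ∈ Icc 1 N, (1 / (m : ℝ))

theorem HN_pos {N : ℕ} (hN : 1 ≤ N) : 0 < HN N := by
  unfold HN
  refine sum_pos (fun m hm => ?_) ⟨1, by rw [mem_Icc]; omega⟩
  rw [mem_Icc] at hm
  have : (0 : ℝ) < m := by exact_mod_cast hm.1
  positivity

/-- logarithmic empirical measure -/
noncomputable def emp (S : Y → Y) (y : Y) (N : ℕ) : Measure Y :=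
  ∑ n ∈ Icc 1 N, ENNReal.ofReal ((1 / (n : ℝ)) / HN N) • Measure.dirac (S^[n] y)

omit [CompactSpace Y] in
theorem emp_prob (S : Y → Y) (y : Y) {N : ℕ} (hN : 1 ≤ N) : IsProbabilityMeasure (emp S y N) := by
  constructor
  unfold emp
  rw [Measure.finsetSum_apply]
  simp only [Measure.smul_apply, measure_univ, smul_eq_mul, mul_one]
  have hH := HN_pos hN
  rw [← ENNReal.ofReal_sum_of_nonneg (fun n _ => by positivity), ← sum_div]
  have : (∑ m ∈ Icc 1 N, (1 / (m : ℝ))) / HN N = 1 := by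
    unfold HN at hH ⊢
    exact div_self hH.ne'
  rw [this, ENNReal.ofReal_one]

theorem emp_int {E : Type} [NormedAddCommGroup E] [NormedSpace ℝ E] [CompleteSpace E]
    [SecondCountableTopology E]
    (S : Y → Y) (y : Y) {N : ℕ} (hN : 1 ≤ N) {ψ : Y → E} (hψ : Continuous ψ) :
    ∫ x, ψ x ∂(emp S y N) = ∑ n ∈ Icc 1 N, ((1 / (n : ℝ)) / HN N) • ψ (S^[n] y) := by
  have hH := HN_pos hN
  obtain ⟨B, hB⟩ := (isCompact_range hψ.norm).bddAbove
  have hi : ∀ x : Y, Integrable ψ (Measure.dirac x) := fun x =>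
    Integrable.of_bound hψ.aestronglyMeasurable B (Eventually.of_forall fun y => hB ⟨y, rfl⟩)
  unfold emp
  rw [integral_finsetSum_measure]
  · refine sum_congr rfl fun n _ => ?_
    rw [integral_smul_measure, integral_dirac, ENNReal.toReal_ofReal (by positivity)]
  · intro n _
    exact (hi _).smul_measure ENNReal.ofReal_ne_top

/-- if the integral of a continuous function is the same for all invariant measures, then all its
logarithmic averages converge to this value -/
theorem corr {S : Y → Y} (hS : Continuous S) (y : Y) {φ : Y → ℂ} (hφ : Continuous φ) (z : ℂ)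
    (h : ∀ ν : Measure Y, IsProbabilityMeasure ν → MeasurePreserving S ν ν → ∫ x, φ x ∂ν = z) :
    Tendsto (LA fun n => φ (S^[n] y)) atTop (𝓝 z) := by
  rw [tendsto_iff_ultrafilter]
  intro 𝒰 h𝒰
  have hmax : ∀ N : ℕ, 1 ≤ max N 1 := fun N => le_max_right _ _
  set m : ℕ → ProbabilityMeasure Y := fun N => ⟨emp S y (max N 1), emp_prob S y (hmax N)⟩ with hm
  obtain ⟨ν, -, hν⟩ := isCompact_univ.ultrafilter_le_nhds (𝒰.map m) (by simp)
  have hν' : Tendsto m 𝒰 (𝓝 ν) := hν
  -- integrals against the empirical measures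
  have hR : ∀ (ψ : Y → ℝ), Continuous ψ → ∀ᶠ N : ℕ in (𝒰 : Filter ℕ),
      ∫ x, ψ x ∂(m N : Measure Y) = LR (fun n => ψ (S^[n] y)) N / LR (fun _ => 1) N := by
    intro ψ hψ
    refine h𝒰 ?_
    filter_upwards [eventually_ge_atTop 2] with N hN
    have h1 : max N 1 = N := by omega
    rw [hm]
    simp only [ProbabilityMeasure.coe_mk, h1]
    rw [emp_int S y (by omega) hψ]
    have hl : Real.log (N : ℝ) ≠ 0 := (Real.log_pos (by exact_mod_cast hN)).ne'
    have hH := HN_pos (N := N) (by omega)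
    have e2 : LR (fun _ => 1) N = (1 / Real.log (N : ℝ)) * HN N := by
      unfold LR HN
      simp only [mul_one]
    rw [e2]
    unfold LR
    rw [mul_div_mul_left _ _ (by positivity), sum_div]
    exact sum_congr rfl fun n _ => by rw [smul_eq_mul]; ring
  have hR1 : Tendsto (LR fun _ => 1) 𝒰 (𝓝 1) := LR_one.mono_left h𝒰
  have hinv : MeasurePreserving S (ν : Measure Y) (ν : Measure Y) := by
    refine ⟨hS.measurable, ?_⟩
    haveI : IsProbabilityMeasure ((ν : Measure Y).map S) :=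
      Measure.isProbabilityMeasure_map hS.measurable.aemeasurable
    apply ext_of_forall_integral_eq_of_IsFiniteMeasure
    intro f
    rw [integral_map hS.measurable.aemeasurable f.continuous.aestronglyMeasurable]
    have h1 := (ProbabilityMeasure.tendsto_iff_forall_integral_tendsto.1 hν') f
    have h2 := (ProbabilityMeasure.tendsto_iff_forall_integral_tendsto.1 hν')
      (f.compContinuous ⟨S, hS⟩)
    have h3 := h2.sub h1
    have h4 : Tendsto (fun N => (LR (fun n => f (S^[n + 1] y)) N - LR (fun n => f (S^[n] y)) N) /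
        LR (fun _ => 1) N) 𝒰 (𝓝 (0 / 1)) := by
      refine Tendsto.div ?_ hR1 one_ne_zero
      exact (LR_shift (b := fun n => f (S^[n] y)) (C := ‖f‖) fun n => f.norm_coe_le_norm _).mono_left h𝒰
    rw [zero_div] at h4
    have h5 := tendsto_nhds_unique (h3.congr' ?_) h4
    · have h6 : ∫ x, f (S x) ∂(ν : Measure Y) - ∫ x, f x ∂(ν : Measure Y) = 0 := h5
      linarith
    · filter_upwards [hR f f.continuous, hR (fun x => f (S x)) (f.continuous.comp hS)] with N h7 h8
      rw [h7]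
      have h9 : ∫ x, (f.compContinuous ⟨S, hS⟩) x ∂(m N : Measure Y) =
          ∫ x, f (S x) ∂(m N : Measure Y) := rfl
      rw [h9, h8, ← sub_div]
      congr 2
      congr 1
      funext n
      rw [Function.iterate_succ_apply']
  have hz := h ν inferInstance hinv
  -- complex version
  let φb : Y →ᵇ ℂ := BoundedContinuousFunction.mkOfCompact ⟨φ, hφ⟩
  have h1 := (ProbabilityMeasure.tendsto_iff_forall_integral_rclike_tendsto ℂ).1 hν' φb
  have h2 : Tendsto (fun N => ∫ x, φ x ∂(m N : Measure Y)) 𝒰 (𝓝 z) := by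
    rw [← hz]; exact h1
  have h3 : Tendsto (fun N => (∫ x, φ x ∂(m N : Measure Y)) * ((LR (fun _ => 1) N : ℝ) : ℂ)) 𝒰
      (𝓝 (z * ((1 : ℝ) : ℂ))) :=
    h2.mul ((Complex.continuous_ofReal.tendsto 1).comp hR1)
  rw [Complex.ofReal_one, mul_one] at h3
  refine h3.congr' ?_
  refine h𝒰 ?_
  filter_upwards [eventually_ge_atTop 2] with N hN
  have h1 : max N 1 = N := by omega
  rw [hm]
  simp only [ProbabilityMeasure.coe_mk, h1]
  rw [emp_int S y (by omega) hφ]
  have hl : Real.log (N : ℝ) ≠ 0 := (Real.log_pos (by exact_mod_cast hN)).ne'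
  have hH := HN_pos (N := N) (by omega)
  have e2 : LR (fun _ => 1) N = (1 / Real.log (N : ℝ)) * HN N := by
    unfold LR HN
    simp only [mul_one]
  rw [e2]
  unfold LA
  rw [sum_mul, mul_sum]
  refine sum_congr rfl fun n _ => ?_
  rw [Complex.real_smul]
  have hlc : ((Real.log (N : ℝ) : ℝ) : ℂ) ≠ 0 := by exact_mod_cast hl
  have hHc : ((HN N : ℝ) : ℂ) ≠ 0 := by exact_mod_cast hH.ne'
  push_cast
  field_simp

end

end Pool.Agent.Y868.ZE
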