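import Pool.Agent.Y868.ZE.K4

/-! Project ZE (helper868): level sets along orbits. -/

set_option autoImplicit false

namespace Pool.Agent.Y868.ZE

open Finset Filter Topology MeasureTheory
open scoped ComplexConjugate

open scoped Classical in
theorem level_bdd {G₀ : Type} [CommGroupWithZero G₀] {g : ℕ → G₀} (hg : Mul1 g)
    {a : ℕ → ℂ} {C : ℝ} (ha : ∀ n, ‖a n‖ ≤ C)
    (h : ∀ u : ℕ → ℂ, (∀ n, ‖u n‖ ≤ 1) → Mul1 u → Tendsto (LA fun n => u n * a n) atTop (𝓝 0))
    (c : G₀) : Tendsto (LA fun n => (if g n = c then (1 : ℂ) else 0) * a n) atTop (𝓝 0) := by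
  set B : ℝ := max C 1 with hB
  have hB1 : 1 ≤ B := le_max_right _ _
  have hB0 : (0 : ℝ) < B := by linarith
  have hBc : (B : ℂ) ≠ 0 := by exact_mod_cast hB0.ne'
  have h1 : ∀ n, ‖(B : ℂ)⁻¹ * a n‖ ≤ 1 := by
    intro n
    rw [norm_mul, norm_inv, Complex.norm_real, Real.norm_of_nonneg hB0.le, inv_mul_le_iff₀ hB0, mul_one]
    exact (ha n).trans (le_max_left _ _)
  have h2 := level hg (a := fun n => (B : ℂ)⁻¹ * a n) h1 (fun u hu1 hu2 => by
    have h3 := (h u hu1 hu2).const_mul (B : ℂ)⁻¹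
    rw [mul_zero] at h3
    refine h3.congr fun N => ?_
    rw [← LA_smul]
    congr 1
    funext n; ring) c
  have h3 := h2.const_mul (B : ℂ)
  rw [mul_zero] at h3
  refine h3.congr fun N => ?_
  rw [← LA_smul]
  congr 1
  funext n
  field_simp

open scoped Classical in
theorem level_katai {G₀ : Type} [CommGroupWithZero G₀] {g : ℕ → G₀} (hg : Mul1 g)
    {a : ℕ → ℂ} {C : ℝ} (ha : ∀ n, ‖a n‖ ≤ C) {P : Set ℕ} (hP : ∀ p ∈ P, p.Prime)
    (hdiv : ¬ Summable (P.indicator fun n : ℕ => 1 / (n : ℝ)))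
    (hc : ∀ p ∈ P, ∀ q ∈ P, p ≠ q →
      Tendsto (LA fun n => a (p * n) * conj (a (q * n))) atTop (𝓝 0))
    (c : G₀) : Tendsto (LA fun n => (if g n = c then (1 : ℂ) else 0) * a n) atTop (𝓝 0) := by
  refine level_bdd hg ha (fun u hu1 hu2 => ?_) c
  set B : ℝ := max C 1 with hB
  have hB1 : 1 ≤ B := le_max_right _ _
  have hB0 : (0 : ℝ) < B := by linarith
  have hBc : (B : ℂ) ≠ 0 := by exact_mod_cast hB0.ne'
  have h1 : ∀ n, ‖(B : ℂ)⁻¹ * a n‖ ≤ 1 := by
    intro n
    rw [norm_mul, norm_inv, Complex.norm_real, Real.norm_of_nonneg hB0.le, inv_mul_le_iff₀ hB0, mul_one]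
    exact (ha n).trans (le_max_left _ _)
  have h2 := katai hu1 hu2.2 h1 hP hdiv (fun p hp q hq hpq => by
    have h3 := (hc p hp q hq hpq).const_mul ((B : ℂ)⁻¹ * (B : ℂ)⁻¹)
    rw [mul_zero] at h3
    refine h3.congr fun N => ?_
    rw [← LA_smul]
    congr 1
    funext n
    rw [map_mul, map_inv₀, Complex.conj_ofReal]
    ring)
  have h3 := h2.const_mul (B : ℂ)
  rw [mul_zero] at h3
  refine h3.congr fun N => ?_
  rw [← LA_smul]
  congr 1
  funext n
  field_simp

section

variable {X : Type} [MetricSpace X] [CompactSpace X] [MeasurableSpace X] [BorelSpace X]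

/-- the correlations along two powers, if all joinings of the powers integrate `f ⊗ conj f` as the
product measure does -/
theorem corr_pair {T : X → X} (hT : Continuous T) {μ : Measure X} [IsProbabilityMeasure μ]
    (huniq : ∀ k : ℕ, 1 ≤ k → ∀ ν : Measure X, IsProbabilityMeasure ν →
      MeasurePreserving (T^[k]) ν ν → ν = μ)
    {p q : ℕ} (hp : 1 ≤ p) (hq : 1 ≤ q) (f : C(X, ℂ))
    (hj : ∀ ν : Measure (X × X), IsProbabilityMeasure ν →
      MeasurePreserving (Prod.map (T^[p]) (T^[q])) ν ν → ν.map Prod.fst = μ → ν.map Prod.snd = μ →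
      ∫ y, f y.1 * conj (f y.2) ∂ν = (∫ y, f y ∂μ) * conj (∫ y, f y ∂μ)) (x : X) :
    Tendsto (LA fun n => (f (T^[p * n] x) - ∫ y, f y ∂μ) *
      conj (f (T^[q * n] x) - ∫ y, f y ∂μ)) atTop (𝓝 0) := by
  set I : ℂ := ∫ y, f y ∂μ with hI
  have hSc : Continuous (Prod.map (T^[p]) (T^[q])) := (hT.iterate p).prodMap (hT.iterate q)
  have hφ : Continuous (fun y : X × X => (f y.1 - I) * conj (f y.2 - I)) := by fun_prop
  have h1 := corr hSc (x, x) hφ 0 (fun ν hν hinv => by
    have hA : Measurable (T^[p]) := (hT.iterate p).measurable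
    have hB : Measurable (T^[q]) := (hT.iterate q).measurable
    have m1 : ν.map Prod.fst = μ := by
      haveI : IsProbabilityMeasure (ν.map Prod.fst) :=
        Measure.isProbabilityMeasure_map measurable_fst.aemeasurable
      refine huniq p hp _ inferInstance ⟨hA, ?_⟩
      rw [Measure.map_map hA measurable_fst]
      have e : (T^[p]) ∘ (Prod.fst : X × X → X) = Prod.fst ∘ Prod.map (T^[p]) (T^[q]) := rfl
      rw [e, ← Measure.map_map measurable_fst hinv.measurable, hinv.map_eq]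
    have m2 : ν.map Prod.snd = μ := by
      haveI : IsProbabilityMeasure (ν.map Prod.snd) :=
        Measure.isProbabilityMeasure_map measurable_snd.aemeasurable
      refine huniq q hq _ inferInstance ⟨hB, ?_⟩
      rw [Measure.map_map hB measurable_snd]
      have e : (T^[q]) ∘ (Prod.snd : X × X → X) = Prod.snd ∘ Prod.map (T^[p]) (T^[q]) := rfl
      rw [e, ← Measure.map_map measurable_snd hinv.measurable, hinv.map_eq]
    have h2 := hj ν hν hinv m1 m2
    have i1 : ∫ y, f y.1 ∂ν = I := by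
      rw [hI, ← m1, integral_map measurable_fst.aemeasurable f.continuous.aestronglyMeasurable]
    have i2 : ∫ y, f y.2 ∂ν = I := by
      rw [hI, ← m2, integral_map measurable_snd.aemeasurable f.continuous.aestronglyMeasurable]
    have hint : ∀ ψ : X × X → ℂ, Continuous ψ → Integrable ψ ν := by
      intro ψ hψ
      obtain ⟨B, hB⟩ := (isCompact_range hψ.norm).bddAbove
      exact Integrable.of_bound hψ.aestronglyMeasurable B (Eventually.of_forall fun y => hB ⟨y, rfl⟩)
    have e : (fun y : X × X => (f y.1 - I) * conj (f y.2 - I)) = fun y =>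
        ((f y.1 * conj (f y.2) - conj I * f y.1) - I * conj (f y.2)) + I * conj I := by
      funext y
      rw [map_sub]; ring
    rw [e, integral_add (hint _ (by fun_prop)) (hint _ (by fun_prop)),
      integral_sub (hint _ (by fun_prop)) (hint _ (by fun_prop)),
      integral_sub (hint _ (by fun_prop)) (hint _ (by fun_prop)), h2, integral_const_mul,
      integral_const_mul, integral_conj, i1, i2, integral_const]
    simp
    ring)
  refine h1.congr fun N => ?_
  congr 1
  funext n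
  have e : (Prod.map (T^[p]) (T^[q]))^[n] (x, x) = (T^[p * n] x, T^[q * n] x) := by
    rw [Prod.map_iterate, Prod.map_apply, ← Function.iterate_mul, ← Function.iterate_mul]
  rw [e]

open scoped Classical in
/-- level sets along orbits -/
theorem dyn {T : X → X} (hT : Continuous T) {μ : Measure X} [IsProbabilityMeasure μ]
    (huniq : ∀ k : ℕ, 1 ≤ k → ∀ ν : Measure X, IsProbabilityMeasure ν →
      MeasurePreserving (T^[k]) ν ν → ν = μ)
    (D : Set C(X, ℂ)) (hD : Dense (Submodule.span ℂ D : Set C(X, ℂ)))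
    (hP : ∀ f ∈ D, ∃ P : Set ℕ, (∀ p ∈ P, p.Prime) ∧
      ¬ Summable (P.indicator fun n : ℕ => 1 / (n : ℝ)) ∧
      ∀ p ∈ P, ∀ q ∈ P, p ≠ q → ∀ ν : Measure (X × X), IsProbabilityMeasure ν →
        MeasurePreserving (Prod.map (T^[p]) (T^[q])) ν ν → ν.map Prod.fst = μ → ν.map Prod.snd = μ →
        ∫ y, f y.1 * conj (f y.2) ∂ν = (∫ y, f y ∂μ) * conj (∫ y, f y ∂μ))
    {G₀ : Type} [CommGroupWithZero G₀] {g : ℕ → G₀} (hg : Mul1 g) (c : G₀)
    (f : C(X, ℂ)) (x : X) :
    Tendsto (LA fun n => (if g n = c then (1 : ℂ) else 0) * (f (T^[n] x) - ∫ y, f y ∂μ))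
      atTop (𝓝 0) := by
  have hint : ∀ ψ : C(X, ℂ), Integrable ψ μ := fun ψ =>
    Integrable.of_bound ψ.continuous.aestronglyMeasurable ‖ψ‖
      (Eventually.of_forall fun y => ψ.norm_coe_le_norm y)
  -- members of `D`
  have h1 : ∀ f ∈ D, Tendsto (LA fun n => (if g n = c then (1 : ℂ) else 0) *
      (f (T^[n] x) - ∫ y, f y ∂μ)) atTop (𝓝 0) := by
    intro f hf
    obtain ⟨P, hP1, hP2, hP3⟩ := hP f hf
    refine level_katai hg (C := ‖f‖ + ‖∫ y, f y ∂μ‖) (fun n => ?_) hP1 hP2 (fun p hp q hq hpq => ?_) c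
    · exact (norm_sub_le _ _).trans (add_le_add (f.norm_coe_le_norm _) le_rfl)
    · exact corr_pair hT huniq (hP1 p hp).one_lt.le (hP1 q hq).one_lt.le f (hP3 p hp q hq hpq) x
  -- the span
  have h2 : ∀ f ∈ Submodule.span ℂ D, Tendsto (LA fun n => (if g n = c then (1 : ℂ) else 0) *
      (f (T^[n] x) - ∫ y, f y ∂μ)) atTop (𝓝 0) := by
    intro f hf
    induction hf using Submodule.span_induction with
    | mem f hf => exact h1 f hf
    | zero =>
      refine tendsto_const_nhds.congr fun N => ?_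
      unfold LA
      simp
    | add f₁ f₂ _ _ h3 h4 =>
      have h5 := h3.add h4
      rw [add_zero] at h5
      refine h5.congr fun N => ?_
      rw [← LA_add]
      congr 1
      funext n
      have e : ∫ y, (f₁ + f₂) y ∂μ = ∫ y, f₁ y ∂μ + ∫ y, f₂ y ∂μ :=
        integral_add (hint f₁) (hint f₂)
      rw [e, ContinuousMap.add_apply]
      ring
    | smul z f _ h3 =>
      have h5 := h3.const_mul z
      rw [mul_zero] at h5
      refine h5.congr fun N => ?_
      rw [← LA_smul]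
      congr 1
      funext n
      have e : ∫ y, (z • f) y ∂μ = z * ∫ y, f y ∂μ := integral_const_mul z _
      rw [e, ContinuousMap.smul_apply, smul_eq_mul]
      ring
  -- the closure
  obtain ⟨B, hB⟩ := LR_one.bddAbove_range
  have hB' : ∀ N, LR (fun _ => 1) N ≤ B := fun N => hB ⟨N, rfl⟩
  have hB0 : 0 ≤ B := (LR_nonneg (fun _ => zero_le_one) 0).trans (hB' 0)
  rw [Metric.tendsto_atTop']
  intro ε hε
  obtain ⟨f', hf', hd⟩ := Metric.dense_iff.1 hD f (ε / (4 * (B + 1))) (by positivity)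
  rw [Metric.mem_ball] at hf'
  have h3 := h2 f' hd
  rw [Metric.tendsto_atTop'] at h3
  obtain ⟨N₀, hN₀⟩ := h3 (ε / 2) (by positivity)
  refine ⟨N₀, fun N hN => ?_⟩
  have h4 := hN₀ N hN
  rw [dist_zero_right] at h4 ⊢
  have h5 : LA (fun n => (if g n = c then (1 : ℂ) else 0) * (f (T^[n] x) - ∫ y, f y ∂μ)) N =
      LA (fun n => (if g n = c then (1 : ℂ) else 0) * (f' (T^[n] x) - ∫ y, f' y ∂μ)) N +
      LA (fun n => (if g n = c then (1 : ℂ) else 0) * (((f - f') (T^[n] x)) - ∫ y, (f - f') y ∂μ)) N := by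
    rw [← LA_add]
    congr 1
    funext n
    have e : ∫ y, (f - f') y ∂μ = ∫ y, f y ∂μ - ∫ y, f' y ∂μ := integral_sub (hint f) (hint f')
    rw [e, ContinuousMap.sub_apply]
    ring
  rw [h5]
  have h6 : ‖LA (fun n => (if g n = c then (1 : ℂ) else 0) *
      (((f - f') (T^[n] x)) - ∫ y, (f - f') y ∂μ)) N‖ ≤ (2 * ‖f - f'‖) * LR (fun _ => 1) N := by
    refine norm_LA_le' (fun n => ?_) N
    rw [norm_mul]
    have h7 : ‖(if g n = c then (1 : ℂ) else 0)‖ ≤ 1 := by split_ifs <;> simp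
    have h8 : ‖(f - f') (T^[n] x) - ∫ y, (f - f') y ∂μ‖ ≤ 2 * ‖f - f'‖ := by
      refine (norm_sub_le _ _).trans ?_
      have h9 : ‖∫ y, (f - f') y ∂μ‖ ≤ ‖f - f'‖ := by
        have := norm_integral_le_of_norm_le_const (μ := μ) (f := (f - f')) (C := ‖f - f'‖)
          (Eventually.of_forall fun y => (f - f').norm_coe_le_norm y)
        simpa using this
      have h10 := (f - f').norm_coe_le_norm (T^[n] x)
      linarith
    calc _ ≤ 1 * (2 * ‖f - f'‖) := mul_le_mul h7 h8 (norm_nonneg _) zero_le_one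
      _ = _ := one_mul _
  have h7 : ‖f - f'‖ < ε / (4 * (B + 1)) := by
    rw [← dist_eq_norm, dist_comm]; exact hf'
  have h8 : (2 * ‖f - f'‖) * LR (fun _ => 1) N ≤ ε / 2 := by
    calc (2 * ‖f - f'‖) * LR (fun _ => 1) N ≤ (2 * (ε / (4 * (B + 1)))) * (B + 1) :=
          mul_le_mul (by linarith) ((hB' N).trans (by linarith))
            (LR_nonneg (fun _ => zero_le_one) N) (by positivity)
      _ = ε / 2 := by field_simp; ring
  calc _ ≤ _ := norm_add_le _ _
    _ < ε / 2 + ε / 2 := add_lt_add_of_lt_of_le h4 (h6.trans h8)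
    _ = ε := by ring

end

end Pool.Agent.Y868.ZE
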