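import Pool.Agent.Y868.ZE.K5
import Pool.Agent.Y868.VR.A4

/-! Project ZE (helper868): level sets of density zero. -/

set_option autoImplicit false

namespace Pool.Agent.Y868.ZE

open Finset Filter Topology MeasureTheory
open Pool.Agent.Y868.VR

/-- Cesàro mean zero gives logarithmic mean zero -/
theorem log_of_ces {b : ℕ → ℂ}
    (h : Tendsto (fun N : ℕ => (∑ n ∈ Icc 1 N, b n) / (N : ℂ)) atTop (𝓝 0)) :
    Tendsto (LA b) atTop (𝓝 0) := by
  set B : ℕ → ℂ := fun N => ∑ n ∈ Icc 1 N, b n with hB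
  -- summation by parts
  have key : ∀ N : ℕ, ∑ n ∈ Icc 1 N, ((1 : ℂ) / (n : ℂ)) * b n =
      B N / ((N : ℂ) + 1) + ∑ n ∈ Icc 1 N, B n / ((n : ℂ) * (n + 1)) := by
    intro N
    induction N with
    | zero => simp [hB]
    | succ N ih =>
      rw [sum_Icc_succ_top (by omega), sum_Icc_succ_top (by omega), ih]
      have e : B (N + 1) = B N + b (N + 1) := by
        rw [hB]; simp only; rw [sum_Icc_succ_top (by omega)]
      rw [e]
      have h1 : (N : ℂ) + 1 ≠ 0 := by exact_mod_cast Nat.succ_ne_zero N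
      have h2 : (N : ℂ) + 1 + 1 ≠ 0 := by exact_mod_cast Nat.succ_ne_zero (N + 1)
      push_cast
      field_simp
      ring
  rw [Metric.tendsto_atTop'] at h ⊢
  intro ε hε
  obtain ⟨N₀, hN₀⟩ := h (ε / 8) (by positivity)
  have h1 : ∀ n : ℕ, N₀ < n → ‖B n‖ ≤ ε / 8 * n := by
    intro n hn
    have h2 := hN₀ n hn
    rw [dist_zero_right, norm_div, Complex.norm_natCast] at h2
    have hn0 : (0 : ℝ) < n := by exact_mod_cast (Nat.zero_le _).trans_lt hn
    rw [div_lt_iff₀ hn0] at h2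
    exact h2.le
  set K : ℝ := ∑ n ∈ Icc 1 N₀, ‖B n‖ / ((n : ℝ) * (n + 1)) with hK
  have hLR1 : ∀ᶠ N in atTop, LR (fun _ => 1) N < 2 := LR_one.eventually_lt_const (by norm_num)
  have hsm : ∀ᶠ N : ℕ in atTop, (K + ε / 8) * (1 / Real.log (N : ℝ)) < ε / 2 := by
    have h2 : Tendsto (fun N : ℕ => (K + ε / 8) * (1 / Real.log (N : ℝ))) atTop (𝓝 0) := by
      have := (tendsto_const_nhds (x := K + ε / 8)).mul (tendsto_inv_atTop_zero.comp log_top)
      simpa [Function.comp_def] using this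
    exact h2.eventually_lt_const (by positivity)
  obtain ⟨N₁, hN₁⟩ := eventually_atTop.1 (hLR1.and hsm)
  refine ⟨max (N₀ + 1) N₁, fun N hN => ?_⟩
  have hNa : N₀ + 1 < N := (le_max_left _ _).trans_lt hN
  obtain ⟨h5, h6⟩ := hN₁ N ((le_max_right _ _).trans hN.le)
  rw [dist_zero_right]
  unfold LA
  rw [key N, norm_mul]
  have h5' : ‖(1 : ℂ) / ((Real.log (N : ℝ) : ℝ) : ℂ)‖ = 1 / Real.log N := by
    rw [norm_div, norm_one, Complex.norm_real, Real.norm_of_nonneg (Real.log_natCast_nonneg N)]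
  rw [h5']
  have h7 : ‖B N / ((N : ℂ) + 1)‖ ≤ ε / 8 := by
    have hn0 : (0 : ℝ) < (N : ℝ) + 1 := by positivity
    have e : ‖(N : ℂ) + 1‖ = (N : ℝ) + 1 := by
      have := Complex.norm_natCast (N + 1)
      push_cast at this
      exact this
    rw [norm_div, e, div_le_iff₀ hn0]
    have := h1 N (by omega)
    nlinarith
  have h8 : ‖∑ n ∈ Icc 1 N, B n / ((n : ℂ) * (n + 1))‖ ≤
      K + ε / 8 * ∑ n ∈ Icc 1 N, (1 / (n : ℝ)) * 1 := by
    refine (norm_sum_le _ _).trans ?_
    have h9 : ∀ n ∈ Icc 1 N, ‖B n / ((n : ℂ) * (n + 1))‖ ≤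
        (if n ≤ N₀ then ‖B n‖ / ((n : ℝ) * (n + 1)) else 0) + ε / 8 * ((1 / (n : ℝ)) * 1) := by
      intro n hn
      rw [mem_Icc] at hn
      have hn0 : (0 : ℝ) < n := by exact_mod_cast hn.1
      have e : ‖(n : ℂ) + 1‖ = (n : ℝ) + 1 := by
        have := Complex.norm_natCast (n + 1)
        push_cast at this
        exact this
      rw [norm_div, norm_mul, e, Complex.norm_natCast]
      by_cases h10 : n ≤ N₀
      · rw [if_pos h10]
        have : 0 ≤ ε / 8 * ((1 / (n : ℝ)) * 1) := by positivity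
        linarith
      · rw [if_neg h10, zero_add]
        have h11 := h1 n (by omega)
        rw [div_le_iff₀ (by positivity)]
        have h12 : ε / 8 * (1 / (n : ℝ) * 1) * ((n : ℝ) * (n + 1)) = ε / 8 * (n + 1) := by
          field_simp
        rw [h12]
        nlinarith
    refine (sum_le_sum h9).trans ?_
    rw [sum_add_distrib, ← mul_sum]
    refine add_le_add ?_ le_rfl
    rw [hK, ← sum_filter]
    refine sum_le_sum_of_subset_of_nonneg ?_ fun n _ _ => div_nonneg (norm_nonneg _) (by positivity)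
    intro n hn
    rw [mem_filter, mem_Icc] at hn
    rw [mem_Icc]
    omega
  have h13 := inv_log_nonneg N
  calc 1 / Real.log (N : ℝ) * ‖B N / ((N : ℂ) + 1) + ∑ n ∈ Icc 1 N, B n / ((n : ℂ) * (n + 1))‖ ≤
        1 / Real.log (N : ℝ) * (ε / 8 + (K + ε / 8 * ∑ n ∈ Icc 1 N, (1 / (n : ℝ)) * 1)) :=
        mul_le_mul_of_nonneg_left ((norm_add_le _ _).trans (add_le_add h7 h8)) h13
    _ = (K + ε / 8) * (1 / Real.log (N : ℝ)) + ε / 8 * LR (fun _ => 1) N := by
        unfold LR; ring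
    _ < ε / 2 + ε / 8 * 2 := by
        have := mul_lt_mul_of_pos_left h5 (show 0 < ε / 8 by positivity)
        linarith
    _ < ε := by linarith

/-- a bounded sequence restricted to a set of logarithmic density zero -/
theorem null_restrict {s : ℕ → ℝ} (hs : ∀ n, 0 ≤ s n) (h : Tendsto (LR s) atTop (𝓝 0))
    {a : ℕ → ℂ} {C : ℝ} (ha : ∀ n, ‖a n‖ ≤ C) :
    Tendsto (LA fun n => (s n : ℂ) * a n) atTop (𝓝 0) := by
  have h1 := h.const_mul C
  rw [mul_zero] at h1
  refine squeeze_zero_norm (fun N => ?_) h1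
  refine (norm_LA_le _ N).trans ?_
  rw [← LR_smul]
  refine LR_mono (fun n => ?_) N
  rw [norm_mul, Complex.norm_real, Real.norm_of_nonneg (hs n), mul_comm]
  exact mul_le_mul_of_nonneg_right (ha n) (hs n)

end Pool.Agent.Y868.ZE
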