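import Pool.Agent.Y868.ZE.K6

/-! Project ZE (helper868): level sets and characters; level sets of density zero. -/

set_option autoImplicit false

namespace Pool.Agent.Y868.ZE

open Finset Filter Topology MeasureTheory
open Pool.Agent.Y868.VR

section

variable {G₀ : Type} [CommGroupWithZero G₀]

open scoped Classical in
/-- the nonzero values -/
noncomputable def Fg (g : ℕ → G₀) (n : ℕ) : G₀ˣ := if h : g n = 0 then 1 else Units.mk0 (g n) h

variable [TopologicalSpace G₀ˣ]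

open scoped Classical in
/-- the multiplicative function of a character -/
noncomputable def Ug (g : ℕ → G₀) (χ : PontryaginDual G₀ˣ) (n : ℕ) : ℂ :=
  if g n = 0 then 0 else ev (Fg g n) χ

theorem Ug_norm (g : ℕ → G₀) (χ : PontryaginDual G₀ˣ) (n : ℕ) : ‖Ug g χ n‖ ≤ 1 := by
  unfold Ug
  split_ifs
  · simp
  · exact (ev_norm _ _).le

theorem Ug_one {g : ℕ → G₀} {n : ℕ} (h : g n = 1) (χ : PontryaginDual G₀ˣ) : Ug g χ n = 1 := by
  unfold Ug Fg
  have h1 : g n ≠ 0 := by rw [h]; exact one_ne_zero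
  rw [if_neg h1, dif_neg h1]
  have h2 : Units.mk0 (g n) h1 = 1 := by ext; simp [h]
  rw [h2, ev_one]

theorem Ug_pow {g : ℕ → G₀} {n k : ℕ} (hk : k ≠ 0) (h : g n ^ k = 1) (χ : PontryaginDual G₀ˣ) :
    Ug g χ n ^ k = 1 := by
  have h1 : g n ≠ 0 := fun h0 => by rw [h0, zero_pow hk] at h; exact zero_ne_one h
  unfold Ug Fg
  rw [if_neg h1, dif_neg h1]
  have h2 : (Units.mk0 (g n) h1) ^ k = 1 := by ext; simp [h]
  have h3 : ∀ (x : G₀ˣ) (k : ℕ), ev (x ^ k) χ = ev x χ ^ k := by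
    intro x k
    induction k with
    | zero => simp [ev_one]
    | succ k ih => rw [pow_succ, pow_succ, ev_mul, ih]
  rw [← h3, h2, ev_one]

theorem Ug_mul1 {g : ℕ → G₀} (hg : Mul1 g) (χ : PontryaginDual G₀ˣ) : Mul1 (Ug g χ) := by
  obtain ⟨hg1, hgm⟩ := hg
  refine ⟨Ug_one hg1 χ, ?_⟩
  intro m n hm hn hmn
  unfold Ug
  by_cases h3 : g m = 0
  · rw [if_pos h3, if_pos (by rw [hgm m n hm hn hmn, h3, zero_mul]), zero_mul]
  · by_cases h4 : g n = 0
    · rw [if_pos h4, if_pos (by rw [hgm m n hm hn hmn, h4, mul_zero]), mul_zero]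
    · have h5 : g (m * n) ≠ 0 := by
        rw [hgm m n hm hn hmn]; exact mul_ne_zero h3 h4
      rw [if_neg h3, if_neg h4, if_neg h5]
      have h6 : Fg g (m * n) = Fg g m * Fg g n := by
        unfold Fg
        rw [dif_neg h3, dif_neg h4, dif_neg h5]
        ext
        simp [hgm m n hm hn hmn]
      rw [h6, ev_mul]

theorem Ug_cont (g : ℕ → G₀) (n : ℕ) : Continuous fun χ => Ug g χ n := by
  unfold Ug
  by_cases h3 : g n = 0
  · simp only [if_pos h3]; exact continuous_const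
  · simp only [if_neg h3]; exact ev_cont _

variable [DiscreteTopology G₀ˣ] [MeasurableSpace (PontryaginDual G₀ˣ)]
  [BorelSpace (PontryaginDual G₀ˣ)]
  (μ : Measure (PontryaginDual G₀ˣ)) [μ.IsHaarMeasure] [IsProbabilityMeasure μ]

open scoped Classical in
theorem Ug_int (g : ℕ → G₀) {c : G₀} (hc : c ≠ 0) (n : ℕ) :
    ∫ χ, ev (Units.mk0 c hc)⁻¹ χ * Ug g χ n ∂μ = if g n = c then 1 else 0 := by
  by_cases h3 : g n = 0
  · have h4 : g n ≠ c := fun h => hc (h ▸ h3)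
    rw [if_neg h4]
    simp only [Ug, if_pos h3, mul_zero, integral_zero]
  · have h4 : ∀ χ, ev (Units.mk0 c hc)⁻¹ χ * Ug g χ n = ev ((Units.mk0 c hc)⁻¹ * Fg g n) χ := by
      intro χ
      unfold Ug
      rw [if_neg h3, ev_mul]
    simp only [h4]
    rw [int_ev]
    have h5 : (Units.mk0 c hc)⁻¹ * Fg g n = 1 ↔ g n = c := by
      rw [inv_mul_eq_one, eq_comm]
      unfold Fg
      rw [dif_neg h3, Units.ext_iff]
      rfl
    simp only [h5]

include μ in
open scoped Classical in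
/-- the reduction to characters -/
theorem level_ae (g : ℕ → G₀) {a : ℕ → ℂ} {C : ℝ} (ha : ∀ n, ‖a n‖ ≤ C)
    (h : ∀ᵐ χ ∂μ, Tendsto (LA fun n => Ug g χ n * a n) atTop (𝓝 0)) {c : G₀} (hc : c ≠ 0) :
    Tendsto (LA fun n => (if g n = c then (1 : ℂ) else 0) * a n) atTop (𝓝 0) := by
  have hC : 0 ≤ C := (norm_nonneg _).trans (ha 0)
  obtain ⟨B, hB⟩ := LR_one.bddAbove_range
  have hB' : ∀ N, LR (fun _ => 1) N ≤ B := fun N => hB ⟨N, rfl⟩
  have h1 : Tendsto (fun N : ℕ => ∫ χ, ev (Units.mk0 c hc)⁻¹ χ * LA (fun n => Ug g χ n * a n) N ∂μ)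
      atTop (𝓝 (∫ χ, (0 : ℂ) ∂μ)) := by
    refine tendsto_integral_of_dominated_convergence (fun _ => C * B) ?_ (integrable_const _) ?_ ?_
    · intro N
      refine Continuous.aestronglyMeasurable ?_
      refine (ev_cont _).mul ?_
      unfold LA
      refine continuous_const.mul (continuous_finsetSum _ fun n _ => ?_)
      exact continuous_const.mul ((Ug_cont g n).mul continuous_const)
    · intro N
      refine Eventually.of_forall fun χ => ?_
      rw [norm_mul, ev_norm, one_mul]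
      refine (norm_LA_le' (C := C) (fun n => ?_) N).trans ?_
      · rw [norm_mul]
        calc ‖Ug g χ n‖ * ‖a n‖ ≤ 1 * C := mul_le_mul (Ug_norm g χ n) (ha n) (norm_nonneg _) zero_le_one
          _ = C := one_mul _
      · exact mul_le_mul_of_nonneg_left (hB' N) hC
    · filter_upwards [h] with χ hχ
      have h2 := hχ.const_mul (ev (Units.mk0 c hc)⁻¹ χ)
      rwa [mul_zero] at h2
  rw [integral_zero] at h1
  refine h1.congr fun N => ?_
  have h2 : ∀ χ, ev (Units.mk0 c hc)⁻¹ χ * LA (fun n => Ug g χ n * a n) N =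
      ((1 : ℂ) / ((Real.log (N : ℝ) : ℝ) : ℂ)) *
        ∑ n ∈ Icc 1 N, ((1 : ℂ) / (n : ℂ) * a n) * (ev (Units.mk0 c hc)⁻¹ χ * Ug g χ n) := by
    intro χ
    unfold LA
    rw [mul_left_comm, mul_sum]
    congr 1
    exact sum_congr rfl fun n _ => by ring
  simp only [h2]
  rw [integral_const_mul, integral_finsetSum]
  · unfold LA
    congr 1
    refine sum_congr rfl fun n _ => ?_
    rw [integral_const_mul, Ug_int μ g hc n]
    ring
  · intro n _
    refine Integrable.const_mul ?_ _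
    exact int_of_cont μ ((ev_cont _).mul (Ug_cont g n)) (C := 1) fun χ => by
      rw [norm_mul, ev_norm, one_mul]; exact Ug_norm g χ n

/-- the arithmetic function of a character -/
noncomputable def uf (g : ℕ → G₀) (χ : PontryaginDual G₀ˣ) : ArithmeticFunction ℂ :=
  ⟨fun n => if n = 0 then 0 else Ug g χ n, by simp⟩

omit [DiscreteTopology G₀ˣ] [MeasurableSpace (PontryaginDual G₀ˣ)]
  [BorelSpace (PontryaginDual G₀ˣ)] in
theorem uf_apply (g : ℕ → G₀) (χ : PontryaginDual G₀ˣ) {n : ℕ} (hn : n ≠ 0) :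
    uf g χ n = Ug g χ n := by
  change (if n = 0 then 0 else Ug g χ n) = _
  rw [if_neg hn]

omit [DiscreteTopology G₀ˣ] [MeasurableSpace (PontryaginDual G₀ˣ)]
  [BorelSpace (PontryaginDual G₀ˣ)] in
theorem uf_mb {g : ℕ → G₀} (hg : Mul1 g) (χ : PontryaginDual G₀ˣ) : MB (uf g χ) := by
  have h1 := Ug_mul1 hg χ
  refine ⟨⟨?_, ?_⟩, ?_⟩
  · rw [uf_apply g χ one_ne_zero, h1.1]
  · intro m n hmn
    rcases Nat.eq_zero_or_pos m with h0 | h0
    · subst h0; simp
    rcases Nat.eq_zero_or_pos n with h0' | h0'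
    · subst h0'; simp
    rw [uf_apply g χ h0.ne', uf_apply g χ h0'.ne', uf_apply g χ (Nat.mul_pos h0 h0').ne',
      h1.2 m n h0 h0' hmn]
  · intro n
    rcases eq_or_ne n 0 with h0 | h0
    · subst h0; simp
    · rw [uf_apply g χ h0]; exact Ug_norm g χ n

omit [DiscreteTopology G₀ˣ] [MeasurableSpace (PontryaginDual G₀ˣ)]
  [BorelSpace (PontryaginDual G₀ˣ)] in
theorem uf_mean {g : ℕ → G₀} (hg : Mul1 g) {χ : PontryaginDual G₀ˣ} (hn : NP (uf g χ)) :
    Tendsto (LA fun n => Ug g χ n * 1) atTop (𝓝 0) := by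
  have h1 := mz (uf_mb hg χ) hn
  have h2 : Tendsto (fun N : ℕ => (∑ n ∈ Icc 1 N, Ug g χ n) / (N : ℂ)) atTop (𝓝 0) := by
    refine h1.congr fun N => ?_
    congr 1
    refine sum_congr rfl fun n hn => ?_
    have : n ∈ Ioc 0 N := hn
    rw [mem_Ioc] at this
    exact uf_apply g χ (by omega)
  have h3 := log_of_ces h2
  simpa only [mul_one] using h3

omit [DiscreteTopology G₀ˣ] [MeasurableSpace (PontryaginDual G₀ˣ)]
  [BorelSpace (PontryaginDual G₀ˣ)] in
theorem uf_norm' (g : ℕ → G₀) (χ : PontryaginDual G₀ˣ) (n : ℕ) : ‖uf g χ n‖ ≤ 1 := by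
  rcases eq_or_ne n 0 with h0 | h0
  · subst h0; simp
  · rw [uf_apply g χ h0]; exact Ug_norm g χ n

omit [DiscreteTopology G₀ˣ] [MeasurableSpace (PontryaginDual G₀ˣ)]
  [BorelSpace (PontryaginDual G₀ˣ)] in
open scoped Classical in
theorem gg_uf (g : ℕ → G₀) (χ : PontryaginDual G₀ˣ) (y : ℝ) (p : Nat.Primes) :
    gx (Fg g) χ y p ≤ 2 * gg (uf g χ) p 0 y ∧
      (if g p = 0 then 1 / ((p : ℕ) : ℝ) else 0) ≤ gg (uf g χ) p 0 y := by
  have hp0 := p.2.ne_zero
  have hpr : (0 : ℝ) < ((p : ℕ) : ℝ) := by exact_mod_cast p.2.pos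
  have e0 : ((p : ℕ) : ℝ) ^ (-(1 + (0 : ℝ))) = 1 / ((p : ℕ) : ℝ) := by
    rw [add_zero, Real.rpow_neg_one, one_div]
  have hnn : 0 ≤ gg (uf g χ) p 0 y := gg_nonneg (fun n => (uf_norm' g χ n)) p.2.pos _ _
  by_cases h : g p = 0
  · rw [if_pos h]
    have e1 : gg (uf g χ) p 0 y = 1 / ((p : ℕ) : ℝ) := by
      unfold gg
      rw [uf_apply g χ hp0, e0]
      unfold Ug
      rw [if_pos h]
      simp
    refine ⟨?_, e1.ge⟩
    rw [e1]
    unfold gx gg
    rw [e0]
    have h2 : ‖ev (Fg g p) χ * ((p : ℕ) : ℂ) ^ (-((y : ℂ) * Complex.I))‖ ≤ 1 :=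
      bn (a := fun n => ev (Fg g n) χ) (fun _ => (ev_norm _ _).le) p.2.pos y
    have h3 := (abs_le.1 ((Complex.abs_re_le_norm _).trans h2)).1
    have h4 : (0 : ℝ) ≤ 1 / ((p : ℕ) : ℝ) := by positivity
    nlinarith
  · rw [if_neg h]
    refine ⟨?_, hnn⟩
    have e1 : gg (uf g χ) p 0 y = gx (Fg g) χ y p := by
      unfold gx gg
      rw [uf_apply g χ hp0]
      unfold Ug
      rw [if_neg h]
    rw [e1] at hnn ⊢
    linarith

end

end Pool.Agent.Y868.ZE
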