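import Pool.Agent.Y868.ZE.K7

/-! Project ZE (helper868): level sets of density zero; convolution. -/

set_option autoImplicit false

namespace Pool.Agent.Y868.ZE

open Finset Filter Topology MeasureTheory
open Pool.Agent.Y868.VR

section

variable {G₀ : Type} [CommGroupWithZero G₀] [TopologicalSpace G₀ˣ]

theorem np1 (g : ℕ → G₀) {χ : PontryaginDual G₀ˣ} (h : χ ∉ HH (Fg g)) : NP (uf g χ) := by
  intro y hs
  apply h
  refine ⟨y, ∑' p : Nat.Primes, 2 * gg (uf g χ) p 0 y, fun S => ?_⟩
  refine (sum_le_sum fun p _ => (gg_uf g χ y p).1).trans ?_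
  exact (hs.mul_left 2).sum_le_tsum S fun p _ => by
    have := gg_nonneg (a := uf g χ) (fun n => (uf_norm' g χ n)) p.2.pos 0 y
    positivity

open scoped Classical in
theorem np2 {g : ℕ → G₀}
    (h : ¬ Summable (fun p : Nat.Primes => if g p = 0 then 1 / ((p : ℕ) : ℝ) else 0))
    (χ : PontryaginDual G₀ˣ) : NP (uf g χ) := by
  intro y hs
  apply h
  refine Summable.of_nonneg_of_le (fun p => by positivity) (fun p => (gg_uf g χ y p).2) hs

variable [DiscreteTopology G₀ˣ] [MeasurableSpace (PontryaginDual G₀ˣ)]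
  [BorelSpace (PontryaginDual G₀ˣ)]
  (μ : Measure (PontryaginDual G₀ˣ)) [μ.IsHaarMeasure] [IsProbabilityMeasure μ] [μ.Regular]

open scoped Classical in
theorem null_ae {g : ℕ → G₀} (hk : ∀ k : ℕ, 1 ≤ k →
      ¬ Summable (fun p : Nat.Primes => if g p ^ k = 1 then 0 else 1 / ((p : ℕ) : ℝ))) :
    ∀ᵐ χ ∂μ, NP (uf g χ) := by
  by_cases hz : Summable (fun p : Nat.Primes => if g p = 0 then 1 / ((p : ℕ) : ℝ) else 0)
  swap
  · exact Eventually.of_forall fun χ => np2 hz χ
  have h0 : μ (HH (Fg g) : Set (PontryaginDual G₀ˣ)) = 0 := by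
    by_contra hμ
    obtain ⟨hopen, C, hC⟩ := unif μ (Fg g) hμ
    have hS : Summable (fun p : Nat.Primes =>
        if ∃ ψ ∈ HH (Fg g), ev (Fg g p) ψ ≠ 1 then 1 / ((p : ℕ) : ℝ) else 0) := by
      refine summable_of_sum_le (c := C) (fun p => ?_) (sumK μ (Fg g) hμ hopen hC)
      positivity
    haveI : Finite (PontryaginDual G₀ˣ ⧸ HH (Fg g)) := Subgroup.quotient_finite_of_isOpen _ hopen
    have hidx : (HH (Fg g)).index ≠ 0 := Subgroup.index_ne_zero_of_finite
    apply hk (HH (Fg g)).index (Nat.one_le_iff_ne_zero.2 hidx)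
    refine Summable.of_nonneg_of_le (fun p => by positivity) (fun p => ?_) (hz.add hS)
    by_cases h1 : g p ^ (HH (Fg g)).index = 1
    · rw [if_pos h1]; positivity
    rw [if_neg h1]
    by_cases h2 : g p = 0
    · rw [if_pos h2]
      have : (0 : ℝ) ≤ if ∃ ψ ∈ HH (Fg g), ev (Fg g p) ψ ≠ 1 then 1 / ((p : ℕ) : ℝ) else 0 := by
        positivity
      linarith
    · rw [if_neg h2, zero_add]
      have h3 : (Fg g p) ^ (HH (Fg g)).index ≠ 1 := by
        intro h3
        apply h1
        have h4 := congrArg (fun x : G₀ˣ => (x : G₀)) h3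
        simp only [Units.val_pow_eq_pow_val, Units.val_one] at h4
        unfold Fg at h4
        rw [dif_neg h2, Units.val_mk0] at h4
        exact h4
      obtain ⟨ψ, hψ⟩ := exists_ev_ne h3
      have h5 : ∃ ψ ∈ HH (Fg g), ev (Fg g p) ψ ≠ 1 := by
        refine ⟨ψ ^ (HH (Fg g)).index, Subgroup.pow_index_mem _ ψ, ?_⟩
        have e1 : ∀ (x : G₀ˣ) (k : ℕ), ev (x ^ k) ψ = ev x ψ ^ k := by
          intro x k
          induction k with
          | zero => simp [ev_one]
          | succ k ih => rw [pow_succ, pow_succ, ev_mul, ih]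
        have e2 : ∀ (x : G₀ˣ) (k : ℕ), ev x (ψ ^ k) = ev x ψ ^ k := by
          intro x k
          induction k with
          | zero => simp [ev_one']
          | succ k ih => rw [pow_succ, pow_succ, ev_mul', ih]
        rw [e2, ← e1]
        exact hψ
      rw [if_pos h5]
  rw [measure_eq_zero_iff_ae_notMem] at h0
  filter_upwards [h0] with χ hχ
  exact np1 g hχ

end

open scoped Classical in
/-- level sets of density zero -/
theorem null_level {G₀ : Type} [CommGroupWithZero G₀] {g : ℕ → G₀} (hg : Mul1 g)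
    (hk : ∀ k : ℕ, 1 ≤ k →
      ¬ Summable (fun p : Nat.Primes => if g p ^ k = 1 then 0 else 1 / ((p : ℕ) : ℝ)))
    {c : G₀} (hc : c ≠ 0) : Tendsto (LR fun n => if g n = c then 1 else 0) atTop (𝓝 0) := by
  letI : TopologicalSpace G₀ˣ := ⊥
  haveI : DiscreteTopology G₀ˣ := ⟨rfl⟩
  letI : MeasurableSpace (PontryaginDual G₀ˣ) := borel _
  haveI : BorelSpace (PontryaginDual G₀ˣ) := ⟨rfl⟩
  let K₀ : TopologicalSpace.PositiveCompacts (PontryaginDual G₀ˣ) := ⊤
  haveI : IsProbabilityMeasure (Measure.haarMeasure K₀) := by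
    constructor
    have := Measure.haarMeasure_self (K₀ := K₀)
    exact this
  have h1 := level_ae (Measure.haarMeasure K₀) g (a := fun _ => 1) (C := 1) (by simp)
    ((null_ae (Measure.haarMeasure K₀) hk).mono fun χ h => uf_mean hg h) hc
  have h2 := (Complex.continuous_re.tendsto _).comp h1
  rw [Complex.zero_re] at h2
  refine h2.congr fun N => ?_
  simp only [Function.comp_def]
  have h3 : (fun n => (if g n = c then (1 : ℂ) else 0) * 1) =
      fun n => (((if g n = c then (1 : ℝ) else 0) : ℝ) : ℂ) := by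
    funext n; split_ifs <;> simp
  rw [h3, LA_ofReal, Complex.ofReal_re]

/-- the logarithmic average over the multiples of `d` -/
theorem LR_dvd_le {d : ℕ} (hd : 0 < d) (N : ℕ) :
    LR (fun n => if d ∣ n then 1 else 0) N ≤ (1 / (d : ℝ)) * LR (fun _ => 1) N := by
  unfold LR
  rw [mul_left_comm]
  refine mul_le_mul_of_nonneg_left ?_ (inv_log_nonneg N)
  have hdr : (0 : ℝ) < d := by exact_mod_cast hd
  have e1 : ∑ n ∈ Icc 1 N, (1 / (n : ℝ)) * (if d ∣ n then 1 else 0) =
      ∑ n ∈ (Icc 1 N).filter (fun n => d ∣ n), (1 / (n : ℝ)) := by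
    rw [sum_filter]
    exact sum_congr rfl fun n _ => by split_ifs <;> simp
  have e2 : ∑ n ∈ (Icc 1 N).filter (fun n => d ∣ n), (1 / (n : ℝ)) =
      ∑ n ∈ (Icc 1 N).filter (fun n => d ∣ n), (1 / (d : ℝ)) * (1 / ((n / d : ℕ) : ℝ)) := by
    refine sum_congr rfl fun n hn => ?_
    rw [mem_filter] at hn
    obtain ⟨k, hk⟩ := hn.2
    rw [hk, Nat.mul_div_cancel_left _ hd]
    push_cast
    rw [one_div_mul_one_div]
  rw [e1, e2, ← mul_sum]
  refine mul_le_mul_of_nonneg_left ?_ (by positivity)
  have h3 : Set.InjOn (fun n : ℕ => n / d) ((Icc 1 N).filter (fun n => d ∣ n) : Finset ℕ) := by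
    intro a ha b hb hab
    rw [Finset.mem_coe, mem_filter] at ha hb
    simp only at hab
    rw [← Nat.mul_div_cancel' ha.2, ← Nat.mul_div_cancel' hb.2, hab]
  rw [← sum_image (f := fun m : ℕ => 1 / (m : ℝ)) h3]
  simp only [mul_one]
  refine sum_le_sum_of_subset_of_nonneg ?_ fun i _ _ => by positivity
  intro m hm
  rw [mem_image] at hm
  obtain ⟨n, hn, rfl⟩ := hm
  rw [mem_filter, mem_Icc] at hn
  rw [mem_Icc]
  obtain ⟨⟨h4, h5⟩, k, rfl⟩ := hn
  rw [Nat.mul_div_cancel_left _ hd]
  have hk : 0 < k := by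
    rcases Nat.eq_zero_or_pos k with h | h
    · subst h; simp at h4
    · exact h
  exact ⟨hk, (Nat.le_mul_of_pos_left k hd).trans h5⟩

/-- functions close to a completely multiplicative function -/
theorem conv_LA {b v : ArithmeticFunction ℂ} (hb : MB b) (hv : CMA v) (hs : Clo b v)
    {w : ℕ → ℂ} {C : ℝ} (hw : ∀ n, ‖w n‖ ≤ C)
    (hd : ∀ d : ℕ, 1 ≤ d → Tendsto (LA fun m => v m * w (d * m)) atTop (𝓝 0)) :
    Tendsto (LA fun n => b n * w n) atTop (𝓝 0) := by
  have hC : 0 ≤ C := (norm_nonneg _).trans (hw 0)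
  set q := quo b v with hq
  have hqs : Summable (fun n : ℕ => ‖q n‖ / n) := quo_summ hb hv hs
  obtain ⟨B, hB⟩ := LR_one.bddAbove_range
  have hB' : ∀ N, LR (fun _ => 1) N ≤ B := fun N => hB ⟨N, rfl⟩
  have hB0 : 0 ≤ B := (LR_nonneg (fun _ => zero_le_one) 0).trans (hB' 0)
  set X : ℕ → ℕ → ℂ := fun d N => LA (fun n => if d ∣ n then v (n / d) * w n else 0) N with hX
  have hXb : ∀ d : ℕ, 0 < d → ∀ N, ‖X d N‖ ≤ C * B / d := by
    intro d hd0 N
    have hdr : (0 : ℝ) < d := by exact_mod_cast hd0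
    rw [hX]
    refine (norm_LA_le _ N).trans ?_
    have h1 : LR (fun n => ‖(if d ∣ n then v (n / d) * w n else 0)‖) N ≤
        LR (fun n => C * (if d ∣ n then 1 else 0)) N := by
      refine LR_mono (fun n => ?_) N
      split_ifs
      · rw [norm_mul, mul_one]
        calc ‖v (n / d)‖ * ‖w n‖ ≤ 1 * C := mul_le_mul (hv.bdd _) (hw n) (norm_nonneg _) zero_le_one
          _ = C := one_mul _
      · simp
    refine h1.trans ?_
    rw [LR_smul]
    calc C * LR (fun n => if d ∣ n then 1 else 0) N ≤ C * ((1 / (d : ℝ)) * B) := by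
          refine mul_le_mul_of_nonneg_left ?_ hC
          exact (LR_dvd_le hd0 N).trans (mul_le_mul_of_nonneg_left (hB' N) (by positivity))
      _ = C * B / d := by ring
  have hXt : ∀ d : ℕ, 0 < d → Tendsto (X d) atTop (𝓝 0) := by
    intro d hd0
    have hbd : ∀ n, ‖v (n / d) * w n‖ ≤ C := by
      intro n
      rw [norm_mul]
      calc ‖v (n / d)‖ * ‖w n‖ ≤ 1 * C := mul_le_mul (hv.bdd _) (hw n) (norm_nonneg _) zero_le_one
        _ = C := one_mul _
    have h1 := LA_dil (b := fun n => v (n / d) * w n) hbd hd0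
    have h2 := (hd d hd0).const_mul (1 / (d : ℂ))
    rw [mul_zero] at h2
    have h3 := h1.add h2
    rw [add_zero] at h3
    refine h3.congr fun N => ?_
    simp only [Nat.mul_div_cancel_left _ hd0, sub_add_cancel]
    rfl
  have hsum : ∀ N, LA (fun n => b n * w n) N = ∑' d : ℕ, q d * X d N := by
    intro N
    rw [tsum_eq_sum (s := Icc 1 N)]
    · rw [hX]
      have h1 : ∀ d ∈ Icc 1 N, q d * LA (fun n => if d ∣ n then v (n / d) * w n else 0) N =
          ((1 : ℂ) / ((Real.log (N : ℝ) : ℝ) : ℂ)) * ∑ n ∈ Icc 1 N,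
            (if d ∣ n then (1 : ℂ) / (n : ℂ) * (q d * v (n / d)) * w n else 0) := by
        intro d _
        rw [← LA_smul]
        unfold LA
        congr 1
        refine sum_congr rfl fun n _ => ?_
        by_cases h : d ∣ n
        · simp only [if_pos h]; ring
        · simp only [if_neg h, mul_zero]
      rw [sum_congr rfl h1, ← mul_sum, sum_comm]
      unfold LA
      congr 1
      refine sum_congr rfl fun n hn => ?_
      rw [mem_Icc] at hn
      have h2 : b n = ∑ d ∈ n.divisors, q d * v (n / d) := by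
        have h3 : q * v = b := quo_mul hv
        have h3' : b n = (q * v) n := by rw [h3]
        rw [h3', ArithmeticFunction.mul_apply,
          Nat.sum_divisorsAntidiagonal (f := fun a b => q a * v b)]
      beta_reduce
      rw [h2, sum_mul, mul_sum, ← sum_filter]
      have h4 : (Icc 1 N).filter (fun d => d ∣ n) = n.divisors := by
        ext d
        rw [mem_filter, mem_Icc, Nat.mem_divisors]
        constructor
        · rintro ⟨_, h5⟩
          exact ⟨h5, by omega⟩
        · rintro ⟨h5, _⟩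
          have h6 := Nat.le_of_dvd (by omega) h5
          have h7 := Nat.pos_of_dvd_of_pos h5 (by omega)
          exact ⟨⟨h7, by omega⟩, h5⟩
      rw [h4]
      exact sum_congr rfl fun d _ => by ring
    · intro d hd0
      rcases Nat.eq_zero_or_pos d with h | h
      · subst h; simp
      rw [mem_Icc] at hd0
      have h1 : X d N = 0 := by
        rw [hX]
        unfold LA
        beta_reduce
        rw [sum_eq_zero, mul_zero]
        intro n hn
        rw [mem_Icc] at hn
        rw [if_neg, mul_zero]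
        intro h2
        have := Nat.le_of_dvd (by omega) h2
        omega
      rw [h1, mul_zero]
  have key : Tendsto (fun N : ℕ => ∑' d : ℕ, q d * X d N) atTop (𝓝 (∑' _ : ℕ, (0 : ℂ))) := by
    refine tendsto_tsum_of_dominated_convergence (bound := fun d : ℕ => (‖q d‖ / d) * (C * B))
      (hqs.mul_right _) ?_ ?_
    · intro d
      rcases Nat.eq_zero_or_pos d with h | h
      · subst h; simp
      · have := (hXt d h).const_mul (q d)
        rwa [mul_zero] at this
    · refine Eventually.of_forall fun N d => ?_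
      rcases Nat.eq_zero_or_pos d with h | h
      · subst h; simp
      · rw [norm_mul]
        calc ‖q d‖ * ‖X d N‖ ≤ ‖q d‖ * (C * B / d) :=
              mul_le_mul_of_nonneg_left (hXb d h N) (norm_nonneg _)
          _ = _ := by ring
  rw [tsum_zero] at key
  exact key.congr fun N => (hsum N).symm

end Pool.Agent.Y868.ZE
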