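import Pool.Agent.Y868.ZE.K8

/-! Project ZE (helper868): reductions. -/

set_option autoImplicit false

namespace Pool.Agent.Y868.ZE

open Finset Filter Topology MeasureTheory
open Pool.Agent.Y868.VR

theorem LA_congr {b c : ℕ → ℂ} (h : ∀ n, 0 < n → b n = c n) (N : ℕ) : LA b N = LA c N := by
  unfold LA
  congr 1
  refine sum_congr rfl fun n hn => ?_
  rw [mem_Icc] at hn
  rw [h n (by omega)]

theorem summ_nat {f : ℕ → ℝ} (h : Summable (fun p : Nat.Primes => f p)) :
    Summable (fun p : ℕ => if p.Prime then f p else 0) := by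
  have h1 : Summable (Set.indicator {p : ℕ | p.Prime} f) := summable_subtype_iff_indicator.1 h
  refine h1.congr fun p => ?_
  rw [Set.indicator_apply]
  rfl

open scoped Classical in
/-- the zero level set -/
theorem zero_level {G₀ : Type} [CommGroupWithZero G₀] {g : ℕ → G₀} (hg : Mul1 g)
    {a : ℕ → ℂ} {C : ℝ} (ha : ∀ n, ‖a n‖ ≤ C)
    (hd : ∀ d : ℕ, 1 ≤ d → Tendsto (LA fun n => a (d * n)) atTop (𝓝 0)) :
    Tendsto (LA fun n => (if g n = 0 then (1 : ℂ) else 0) * a n) atTop (𝓝 0) := by
  letI : TopologicalSpace G₀ˣ := ⊥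
  haveI : DiscreteTopology G₀ˣ := ⟨rfl⟩
  have hU : ∀ n, Ug g (1 : PontryaginDual G₀ˣ) n = if g n = 0 then 0 else 1 := by
    intro n
    unfold Ug
    split_ifs
    · rfl
    · exact ev_one' _
  have h1 : Tendsto (LA fun n => Ug g (1 : PontryaginDual G₀ˣ) n * a n) atTop (𝓝 0) := by
    by_cases hz : Summable (fun p : Nat.Primes => if g p = 0 then 1 / ((p : ℕ) : ℝ) else 0)
    · have hclo : Clo (uf g (1 : PontryaginDual G₀ˣ))
          ((ArithmeticFunction.zeta : ArithmeticFunction ℕ) : ArithmeticFunction ℂ) := by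
        unfold Clo
        refine (summ_nat (f := fun p => if g p = 0 then 1 / (p : ℝ) else 0) hz).congr fun p => ?_
        by_cases hp : p.Prime
        · rw [if_pos hp, uf_apply g _ hp.ne_zero, hU, ArithmeticFunction.natCoe_apply,
            ArithmeticFunction.zeta_apply, if_neg hp.ne_zero]
          by_cases h2 : g p = 0
          · simp [h2, hp]
          · simp [h2]
        · rw [if_neg hp, if_neg (fun h => hp h.1)]
      have h2 := conv_LA (uf_mb hg (1 : PontryaginDual G₀ˣ)) zeta_cma hclo ha (fun d hd1 => by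
        refine (hd d hd1).congr fun N => ?_
        refine LA_congr (fun n hn => ?_) N
        rw [ArithmeticFunction.natCoe_apply, ArithmeticFunction.zeta_apply, if_neg hn.ne']
        simp)
      refine h2.congr fun N => LA_congr (fun n hn => ?_) N
      rw [uf_apply g _ hn.ne']
    · have h2 := uf_mean hg (np2 hz (1 : PontryaginDual G₀ˣ))
      have h3 := (Complex.continuous_re.tendsto _).comp h2
      rw [Complex.zero_re] at h3
      have h4 : Tendsto (LR fun n => if g n = 0 then (0 : ℝ) else 1) atTop (𝓝 0) := by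
        refine h3.congr fun N => ?_
        simp only [Function.comp_def]
        have h5 : (fun n => Ug g (1 : PontryaginDual G₀ˣ) n * 1) =
            fun n => (((if g n = 0 then (0 : ℝ) else 1) : ℝ) : ℂ) := by
          funext n; rw [hU]; split_ifs <;> simp
        rw [h5, LA_ofReal, Complex.ofReal_re]
      have h5 := null_restrict (fun n => by positivity) h4 ha
      refine h5.congr fun N => LA_congr (fun n _ => ?_) N
      rw [hU]
      split_ifs <;> simp
  have h2 : Tendsto (LA a) atTop (𝓝 0) := by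
    have := hd 1 le_rfl
    simpa only [one_mul] using this
  have h3 := h2.sub h1
  rw [sub_zero] at h3
  refine h3.congr fun N => ?_
  rw [← LA_sub]
  congr 1
  funext n
  rw [hU]
  split_ifs <;> simp

open scoped Classical in
/-- the case of functions of finite order at almost all primes -/
theorem red {G₀ : Type} [CommGroupWithZero G₀] {g : ℕ → G₀} (hg : Mul1 g)
    {a : ℕ → ℂ} {C : ℝ} (ha : ∀ n, ‖a n‖ ≤ C) {k : ℕ} (hk : 1 ≤ k)
    (hs : Summable (fun p : Nat.Primes => if g p ^ k = 1 then 0 else 1 / ((p : ℕ) : ℝ)))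
    (hv : ∀ v : ℕ → ℂ, v 1 = 1 → (∀ m n : ℕ, 0 < m → 0 < n → v (m * n) = v m * v n) →
      (∀ n, 0 < n → v n ^ k = 1) → ∀ d : ℕ, 1 ≤ d →
        Tendsto (LA fun n => v n * a (d * n)) atTop (𝓝 0))
    {c : G₀} (hc : c ≠ 0) :
    Tendsto (LA fun n => (if g n = c then (1 : ℂ) else 0) * a n) atTop (𝓝 0) := by
  letI : TopologicalSpace G₀ˣ := ⊥
  haveI : DiscreteTopology G₀ˣ := ⟨rfl⟩
  letI : MeasurableSpace (PontryaginDual G₀ˣ) := borel _
  haveI : BorelSpace (PontryaginDual G₀ˣ) := ⟨rfl⟩
  let K₀ : TopologicalSpace.PositiveCompacts (PontryaginDual G₀ˣ) := ⊤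
  haveI : IsProbabilityMeasure (Measure.haarMeasure K₀) := by
    constructor
    have := Measure.haarMeasure_self (K₀ := K₀)
    exact this
  refine level_ae (Measure.haarMeasure K₀) g ha (Eventually.of_forall fun χ => ?_) hc
  set b' : ℕ → ℂ := fun p => if Ug g χ p ^ k = 1 then Ug g χ p else 1 with hb'
  have hb1 : ∀ n, ‖b' n‖ ≤ 1 := by
    intro n
    rw [hb']
    simp only
    split_ifs
    · exact Ug_norm g χ n
    · simp
  have hb2 : ∀ n, b' n ^ k = 1 := by
    intro n
    rw [hb']
    simp only
    split_ifs with h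
    · exact h
    · exact one_pow k
  have hclo : Clo (uf g χ) (cm b') := by
    unfold Clo
    refine Summable.of_nonneg_of_le (fun p => by positivity) (fun p => ?_)
      (summ_nat (f := fun p => if g p ^ k = 1 then 0 else 1 / (p : ℝ)) hs)
    by_cases hp : p.Prime
    · rw [if_pos hp]
      by_cases h1 : g p ^ k = 1
      · rw [if_pos h1, if_neg]
        rintro ⟨_, h2⟩
        apply h2
        rw [uf_apply g χ hp.ne_zero, cm_prime b' hp, hb']
        simp only
        rw [if_pos (Ug_pow (by omega) h1 χ)]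
      · rw [if_neg h1]
        split_ifs
        · exact le_rfl
        · positivity
    · rw [if_neg hp, if_neg (fun h => hp h.1)]
  have h1 := conv_LA (uf_mb hg χ) (cm_cma hb1) hclo ha (fun d hd1 => by
    refine hv (cm b') (cm_one b') (fun m n _ _ => cm_mul b' m n) (fun n hn => ?_) d hd1
    rw [cm_apply b' hn.ne', Finsupp.prod, ← Finset.prod_pow]
    refine Finset.prod_eq_one fun p _ => ?_
    rw [← pow_mul, mul_comm, pow_mul, hb2, one_pow])
  exact h1.congr fun N => LA_congr (fun n hn => by rw [uf_apply g χ hn.ne']) N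

open scoped Classical in
/-- the full reduction to completely multiplicative functions with values in roots of unity -/
theorem full_red {G₀ : Type} [CommGroupWithZero G₀] {g : ℕ → G₀} (hg : Mul1 g)
    {a : ℕ → ℂ} {C : ℝ} (ha : ∀ n, ‖a n‖ ≤ C)
    (hv : ∀ k : ℕ, 1 ≤ k → ∀ v : ℕ → ℂ, v 1 = 1 →
      (∀ m n : ℕ, 0 < m → 0 < n → v (m * n) = v m * v n) →
      (∀ n, 0 < n → v n ^ k = 1) → ∀ d : ℕ, 1 ≤ d →
        Tendsto (LA fun n => v n * a (d * n)) atTop (𝓝 0))
    (c : G₀) :
    Tendsto (LA fun n => (if g n = c then (1 : ℂ) else 0) * a n) atTop (𝓝 0) := by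
  by_cases hc : c = 0
  · subst hc
    refine zero_level hg ha fun d hd => ?_
    have := hv 1 le_rfl (fun _ => 1) rfl (fun _ _ _ _ => by simp) (fun _ _ => by simp) d hd
    simpa only [one_mul] using this
  by_cases h : ∃ k : ℕ, 1 ≤ k ∧
      Summable (fun p : Nat.Primes => if g p ^ k = 1 then 0 else 1 / ((p : ℕ) : ℝ))
  · obtain ⟨k, hk, hs⟩ := h
    exact red hg ha hk hs (hv k hk) hc
  · push Not at h
    have h1 := null_restrict (fun n => by positivity) (null_level hg h hc) ha
    refine h1.congr fun N => LA_congr (fun n _ => ?_) N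
    split_ifs <;> simp

section

variable {X : Type} [MetricSpace X] [CompactSpace X] [MeasurableSpace X] [BorelSpace X]

/-- totally uniquely ergodic: all averages along multiples converge -/
theorem tue {T : X → X} (hT : Continuous T) {μ : Measure X} [IsProbabilityMeasure μ]
    (huniq : ∀ k : ℕ, 1 ≤ k → ∀ ν : Measure X, IsProbabilityMeasure ν →
      MeasurePreserving (T^[k]) ν ν → ν = μ) (f : C(X, ℂ)) (x : X) {d : ℕ} (hd : 1 ≤ d) :
    Tendsto (LA fun n => f (T^[d * n] x) - ∫ y, f y ∂μ) atTop (𝓝 0) := by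
  have hint : Integrable (fun y => f y) μ :=
    Integrable.of_bound f.continuous.aestronglyMeasurable ‖f‖
      (Eventually.of_forall fun y => f.norm_coe_le_norm y)
  have h1 := corr (hT.iterate d) x (φ := fun y => f y - ∫ y, f y ∂μ) (by fun_prop) 0
    (fun ν hν hinv => by
      have := huniq d hd ν hν hinv
      subst this
      rw [integral_sub hint (integrable_const _), integral_const]
      simp)
  refine h1.congr fun N => ?_
  congr 1
  funext n
  rw [← Function.iterate_mul]

end

end Pool.Agent.Y868.ZE
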